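import Pool.Agent.X35.GV.WinF
import Pool.Agent.H304R2.EC.Points
import Pool.Agent.H126T.Field
import Pool.Agent.H341R2.WeilSharp

/-! Averages over `n` modulo `p` of the sums `∑_t χ(g(t) - n) u(t)`, `χ` the quadratic character. -/

set_option autoImplicit false

namespace Pool.Agent.X35.GV
open Finset
open Pool.Agent.H304R2.EC.Pts (qc pair_sum sum_qc rc)

section
variable {p : ℕ} [hF : Fact p.Prime]

/-- the sum -/
noncomputable def tw (g : ZMod p → ZMod p) (u : ZMod p → ℝ) (n : ZMod p) : ℝ := ∑ t : ZMod p, (qc p (g t - n) : ℝ) * u t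

lemma qc_abs (a : ZMod p) : |(qc p a : ℝ)| ≤ 1 := by
  by_cases h : a = 0
  · have h6 : qc p a = 0 := by rw [h]; exact quadraticChar_zero
    rw [h6]
    norm_num
  · rcases (quadraticChar_dichotomy h : qc p a = 1 ∨ qc p a = -1) with h1 | h1 <;> rw [h1] <;> norm_num

lemma tw_abs (g : ZMod p → ZMod p) (u : ZMod p → ℝ) (U : ℝ) (hu : ∀ t, |u t| ≤ U) (n : ZMod p) : |tw g u n| ≤ p * U := by
  unfold tw
  refine (abs_sum_le_sum_abs _ _).trans ?_
  have h : ∀ t ∈ (univ : Finset (ZMod p)), |(qc p (g t - n) : ℝ) * u t| ≤ U := by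
    intro t _
    rw [abs_mul]
    calc |(qc p (g t - n) : ℝ)| * |u t| ≤ 1 * |u t| := mul_le_mul_of_nonneg_right (qc_abs _) (abs_nonneg _)
      _ = |u t| := one_mul _
      _ ≤ U := hu t
  refine (sum_le_sum h).trans ?_
  rw [sum_const, card_univ, ZMod.card, nsmul_eq_mul]

lemma sum_qc_sub (h2 : p ≠ 2) (c : ZMod p) : ∑ n : ZMod p, qc p (c - n) = 0 := by
  rw [← sum_qc (p := p) h2]
  exact Equiv.sum_comp (Equiv.subLeft c) (fun n => qc p n)

lemma tw_mean (h2 : p ≠ 2) (g : ZMod p → ZMod p) (u : ZMod p → ℝ) : ∑ n : ZMod p, tw g u n = 0 := by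
  unfold tw
  rw [sum_comm]
  refine sum_eq_zero fun t _ => ?_
  rw [← sum_mul]
  have h : ∑ n : ZMod p, (qc p (g t - n) : ℝ) = 0 := by
    have := sum_qc_sub h2 (g t)
    exact_mod_cast this
  rw [h, zero_mul]

lemma tw_sq (h2 : p ≠ 2) (g : ZMod p → ZMod p) (e : ℕ) (hg : ∀ c, ((univ : Finset (ZMod p)).filter (fun t => g t = c)).card ≤ e)
    (u : ZMod p → ℝ) (U : ℝ) (hu : ∀ t, |u t| ≤ U) :
    ∑ n : ZMod p, tw g u n ^ 2 ≤ e * (p : ℝ) ^ 2 * U ^ 2 := by
  classical
  have hU0 : 0 ≤ U := (abs_nonneg _).trans (hu 0)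
  have h1 : ∀ n, tw g u n ^ 2 = ∑ t : ZMod p, ∑ t' : ZMod p, (qc p ((n - g t) * (n - g t')) : ℝ) * (u t * u t') := by
    intro n
    unfold tw
    rw [sq, sum_mul_sum]
    refine sum_congr rfl fun t _ => sum_congr rfl fun t' _ => ?_
    have h3 : (n - g t) * (n - g t') = (g t - n) * (g t' - n) := by ring
    rw [h3, map_mul]
    push_cast
    ring
  have h4 : ∀ t t' : ZMod p, ∑ n : ZMod p, (qc p ((n - g t) * (n - g t')) : ℝ) = (if g t = g t' then (p : ℝ) else 0) - 1 := by
    intro t t'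
    have h5 := pair_sum h2 (g t) (g t')
    have h6 : ∑ n : ZMod p, (qc p ((n - g t) * (n - g t')) : ℝ) = ((if g t = g t' then (p : ℤ) - 1 else -1 : ℤ) : ℝ) := by
      rw [← h5]
      push_cast
      rfl
    rw [h6]
    split_ifs <;> push_cast <;> ring
  calc ∑ n : ZMod p, tw g u n ^ 2 = ∑ t : ZMod p, ∑ t' : ZMod p, ((if g t = g t' then (p : ℝ) else 0) - 1) * (u t * u t') := by
        rw [sum_congr rfl fun n _ => h1 n, sum_comm]
        refine sum_congr rfl fun t _ => ?_
        rw [sum_comm]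
        refine sum_congr rfl fun t' _ => ?_
        rw [← sum_mul, h4]
    _ = ∑ t : ZMod p, ∑ t' : ZMod p, (if g t = g t' then (p : ℝ) else 0) * (u t * u t') - (∑ t : ZMod p, u t) ^ 2 := by
        rw [sq, sum_mul_sum, ← sum_sub_distrib]
        refine sum_congr rfl fun t _ => ?_
        rw [← sum_sub_distrib]
        refine sum_congr rfl fun t' _ => ?_
        ring
    _ ≤ ∑ t : ZMod p, ∑ t' : ZMod p, (if g t = g t' then (p : ℝ) else 0) * (u t * u t') := by nlinarith [sq_nonneg (∑ t : ZMod p, u t)]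
    _ ≤ ∑ t : ZMod p, ∑ t' : ZMod p, (if g t' = g t then (p : ℝ) * U ^ 2 else 0) := by
        refine sum_le_sum fun t _ => sum_le_sum fun t' _ => ?_
        by_cases h : g t = g t'
        · rw [if_pos h, if_pos h.symm]
          apply mul_le_mul_of_nonneg_left _ (Nat.cast_nonneg _)
          calc u t * u t' ≤ |u t * u t'| := le_abs_self _
            _ = |u t| * |u t'| := abs_mul _ _
            _ ≤ U * U := mul_le_mul (hu t) (hu t') (abs_nonneg _) hU0
            _ = U ^ 2 := (sq U).symm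
        · rw [if_neg h, if_neg (fun h' => h h'.symm), zero_mul]
    _ ≤ ∑ _t : ZMod p, (e : ℝ) * (p * U ^ 2) := by
        refine sum_le_sum fun t _ => ?_
        rw [← sum_filter, sum_const, nsmul_eq_mul]
        apply mul_le_mul_of_nonneg_right _ (by positivity)
        exact_mod_cast hg (g t)
    _ = _ := by
        rw [sum_const, card_univ, ZMod.card, nsmul_eq_mul]
        ring

/-- the average over the residues as a sum over `ZMod p` -/
lemma avg_zmod (F : ℤ → ℝ) (G : ZMod p → ℝ) (h : ∀ n : ℤ, F n = G (n : ZMod p)) : avg p F = (∑ n : ZMod p, G n) / p := by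
  unfold avg
  congr 1
  refine sum_bij' (fun i _ => (i : ZMod p)) (fun x _ => x.val) (fun i _ => mem_univ _)
    (fun x _ => mem_range.2 (ZMod.val_lt x)) (fun i hi => ?_) (fun x _ => ?_) (fun i _ => ?_)
  · exact ZMod.val_natCast_of_lt (mem_range.1 hi)
  · exact ZMod.natCast_zmod_val x
  · rw [h, Int.cast_natCast]

/-- the roots of `g = c` -/
lemma fibre_card (g : Polynomial ℤ) (hg : g.Monic) (h1 : 1 ≤ g.natDegree) (c : ZMod p) :
    ((univ : Finset (ZMod p)).filter (fun t => (g.map (Int.castRingHom (ZMod p))).eval t = c)).card ≤ g.natDegree := by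
  classical
  obtain ⟨f, hf⟩ : ∃ f : Polynomial (ZMod p), f = g.map (Int.castRingHom (ZMod p)) - Polynomial.C c := ⟨_, rfl⟩
  have hd : (g.map (Int.castRingHom (ZMod p))).natDegree = g.natDegree := hg.natDegree_map _
  have hm : f.natDegree = g.natDegree := by
    rw [hf, Polynomial.natDegree_sub_C, hd]
  have hf0 : f ≠ 0 := by
    intro h
    rw [h, Polynomial.natDegree_zero] at hm
    omega
  have hsub : (univ : Finset (ZMod p)).filter (fun t => (g.map (Int.castRingHom (ZMod p))).eval t = c) ⊆ f.roots.toFinset := by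
    intro t ht
    rw [mem_filter] at ht
    rw [Multiset.mem_toFinset, Polynomial.mem_roots hf0, Polynomial.IsRoot.def, hf, Polynomial.eval_sub, ht.2, Polynomial.eval_C, sub_self]
  calc _ ≤ f.roots.toFinset.card := card_le_card hsub
    _ ≤ Multiset.card f.roots := Multiset.toFinset_card_le _
    _ ≤ f.natDegree := Polynomial.card_roots' f
    _ = g.natDegree := hm

/-- the reduction of `h(X, T)` at the point `t` -/
noncomputable def fib (h : Polynomial (Polynomial ℤ)) (t : ZMod p) : Polynomial (ZMod p) :=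
  h.map (Polynomial.eval₂RingHom (Int.castRingHom (ZMod p)) t)

/-- the trace of the curve `y² = h(x, t)` -/
noncomputable def tr0 (h : Polynomial (Polynomial ℤ)) (t : ZMod p) : ℤ :=
  p - Nat.card {P : ZMod p × ZMod p // 1 * P.2 ^ 2 = (fib h t).eval P.1}

lemma tr0_bound (h2 : p ≠ 2) (h : Polynomial (Polynomial ℤ)) (hm : h.Monic) (ho : Odd h.natDegree) (t : ZMod p) :
    |(tr0 h t : ℝ)| ≤ h.natDegree * √p := by
  have h3 : ringChar (ZMod p) ≠ 2 := rc h2
  obtain ⟨g, hg⟩ : ∃ g : Polynomial (ZMod p), g = fib h t := ⟨_, rfl⟩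
  have hgd : g.natDegree = h.natDegree := by
    rw [hg]
    exact hm.natDegree_map _
  have h4 := Pool.Agent.H126T.card_aff h3 g (1 : ZMod p) one_ne_zero
  rw [ZMod.card, map_one, one_mul] at h4
  have h5 := Pool.Agent.H341R2.Sharp.weil_sharp h3 g (by rw [hgd]; exact ho.pos) (by
    intro c h' hgh
    by_cases hc : c = 0
    · rw [hc] at hgh
      simp at hgh
      rw [hgh, Polynomial.natDegree_zero] at hgd
      have := ho.pos
      omega
    · have h5 : g.natDegree = 2 * h'.natDegree := by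
        rw [hgh, Polynomial.natDegree_C_mul hc, Polynomial.natDegree_pow]
      rw [hgd] at h5
      rw [h5] at ho
      exact (Nat.not_odd_iff_even.2 (even_two_mul _)) ho)
  rw [hgd, ZMod.card] at h5
  unfold tr0
  rw [← hg, h4]
  push_cast
  rw [sub_add_cancel_left, abs_neg]
  refine h5.trans ?_
  have h6 : 0 ≤ √(p : ℝ) := Real.sqrt_nonneg _
  nlinarith

open Classical in
/-- The trace of the fibre at `t` of the family `(g(T) - n) y² = h(x, T)`: `p` minus the number of the affine points, and `0` if `g(t) = n`. -/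
noncomputable def trt (g : Polynomial ℤ) (h : Polynomial (Polynomial ℤ)) (n t : ZMod p) : ℤ :=
  if (g.map (Int.castRingHom (ZMod p))).eval t = n then 0 else
    p - Nat.card {P : ZMod p × ZMod p // ((g.map (Int.castRingHom (ZMod p))).eval t - n) * P.2 ^ 2 = (fib h t).eval P.1}

lemma trt_eq (h2 : p ≠ 2) (g : Polynomial ℤ) (h : Polynomial (Polynomial ℤ)) (n t : ZMod p) :
    (trt g h n t : ℝ) = (qc p ((g.map (Int.castRingHom (ZMod p))).eval t - n) : ℝ) * tr0 h t := by
  classical
  have h3 : ringChar (ZMod p) ≠ 2 := rc h2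
  unfold trt tr0
  by_cases h0 : (g.map (Int.castRingHom (ZMod p))).eval t = n
  · have h6 : qc p (0 : ZMod p) = 0 := quadraticChar_zero
    rw [if_pos h0, h0, sub_self, h6]
    simp
  · rw [if_neg h0]
    obtain ⟨f, hf⟩ : ∃ f : Polynomial (ZMod p), f = fib h t := ⟨_, rfl⟩
    rw [← hf, Pool.Agent.H126T.card_aff h3 f _ (sub_ne_zero.2 h0), Pool.Agent.H126T.card_aff h3 f _ one_ne_zero, ZMod.card, map_one]
    push_cast
    ring

end

end Pool.Agent.X35.GV
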