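import Pool.Agent.X35.GV.Centered

/-! Power sums of the Frobenius eigenvalues of the members of families of hyperelliptic curves: periodicity and Weil's bound. -/

set_option autoImplicit false

namespace Pool.Agent.X35.GV
open Finset Polynomial

section
/-- the member of the family modulo `p` -/
noncomputable def mem (F : ℤ[X][X]) (n : ℤ) (p : ℕ) : (ZMod p)[X] :=
  (F.map (evalRingHom n)).map (Int.castRingHom (ZMod p))

lemma mem_per (F : ℤ[X][X]) (p : ℕ) (n m : ℤ) (h : n ≡ m [ZMOD (p : ℕ)]) : mem F n p = mem F m p := by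
  unfold mem
  ext i
  rw [coeff_map, coeff_map, coeff_map, coeff_map, coe_evalRingHom, coe_evalRingHom, eq_intCast, eq_intCast]
  apply (ZMod.intCast_eq_intCast_iff _ _ p).2
  have h1 := (F.coeff i).sub_dvd_eval_sub m n
  exact (Int.modEq_iff_dvd.2 ((Int.modEq_iff_dvd.1 h).trans h1))

variable {E : Type} [Field E] [Fintype E] [DecidableEq E]

lemma card_aff1 (hE : ringChar E ≠ 2) (g : E[X]) :
    (Nat.card {P : E × E // P.2 ^ 2 = g.eval P.1} : ℤ) = Fintype.card E + ∑ x : E, quadraticChar E (g.eval x) := by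
  have h := Pool.Agent.H126T.card_aff hE g (1 : E) one_ne_zero
  rw [map_one, one_mul] at h
  simp only [one_mul] at h
  exact h

lemma card_sq (hE : ringChar E ≠ 2) (c : E) : (Nat.card {y : E // y ^ 2 = c} : ℤ) = 1 + quadraticChar E c := by
  have h := quadraticChar_card_sqrts hE c
  rw [Set.toFinset_card] at h
  rw [Nat.card_eq_fintype_card]
  have e : Fintype.card {y : E // y ^ 2 = c} = Fintype.card ↑{x : E | x ^ 2 = c} := Fintype.card_congr (Equiv.refl _)
  rw [e, h, add_comm]

lemma not_sq (f : E[X]) (hs : f.Separable) (hd : 1 ≤ f.natDegree) : ∀ (c : E) (h : E[X]), f ≠ C c * h ^ 2 := by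
  intro c h hf
  have hsq := hs.squarefree
  have h1 : h * h ∣ f := ⟨C c, by rw [hf]; ring⟩
  have h2 := hsq h h1
  have hc : c ≠ 0 := by
    rintro rfl
    rw [hf] at hd
    simp at hd
  rw [hf, natDegree_C_mul hc, natDegree_pow, natDegree_eq_zero_of_isUnit h2] at hd
  omega

/-- **Weil's bound** for all points of `y² = f(x)` -/
lemma weil_all (hE : ringChar E ≠ 2) (g : ℕ) (f : E[X]) (hs : f.Separable) (hd : f.natDegree = 2 * g + 1 ∨ f.natDegree = 2 * g + 2) :
    |((Fintype.card E : ℝ) + 1 - ((Nat.card {P : E × E // P.2 ^ 2 = f.eval P.1} + Nat.card {y : E // y ^ 2 = f.coeff (2 * g + 2)} : ℕ) : ℝ))| ≤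
      (2 * g + 2) * √(Fintype.card E) := by
  have h1 := card_aff1 hE f
  have h2 := card_sq hE (f.coeff (2 * g + 2))
  have hd1 : 1 ≤ f.natDegree := by rcases hd with h | h <;> omega
  have h3 := Pool.Agent.H341R2.Sharp.weil_sharp hE f hd1 (not_sq f hs hd1)
  have h4 : ((Nat.card {P : E × E // P.2 ^ 2 = f.eval P.1} + Nat.card {y : E // y ^ 2 = f.coeff (2 * g + 2)} : ℕ) : ℝ) =
      (Fintype.card E + ∑ x : E, (quadraticChar E (f.eval x) : ℝ)) + (1 + (quadraticChar E (f.coeff (2 * g + 2)) : ℝ)) := by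
    have h5 : ((Nat.card {P : E × E // P.2 ^ 2 = f.eval P.1} : ℤ) : ℝ) = (Fintype.card E + ∑ x : E, (quadraticChar E (f.eval x) : ℝ)) := by
      rw [h1]; push_cast; rfl
    have h6 : ((Nat.card {y : E // y ^ 2 = f.coeff (2 * g + 2)} : ℤ) : ℝ) = 1 + (quadraticChar E (f.coeff (2 * g + 2)) : ℝ) := by
      rw [h2]; push_cast; rfl
    push_cast at h5 h6 ⊢
    rw [h5, h6]
  rw [h4]
  have hc1 : (1 : ℝ) ≤ √(Fintype.card E) := by
    rw [Real.one_le_sqrt]
    exact_mod_cast Fintype.card_pos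
  have hq : |(quadraticChar E (f.coeff (2 * g + 2)) : ℝ)| ≤ 1 := by
    by_cases h : f.coeff (2 * g + 2) = 0
    · rw [h, quadraticChar_zero]; norm_num
    · rcases quadraticChar_dichotomy h with h1 | h1 <;> rw [h1] <;> norm_num
  have e1 : (Fintype.card E : ℝ) + 1 - ((Fintype.card E + ∑ x : E, (quadraticChar E (f.eval x) : ℝ)) +
      (1 + (quadraticChar E (f.coeff (2 * g + 2)) : ℝ))) =
      -(∑ x : E, (quadraticChar E (f.eval x) : ℝ)) - (quadraticChar E (f.coeff (2 * g + 2)) : ℝ) := by ring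
  rw [e1]
  rcases hd with hd | hd
  · have h0 : f.coeff (2 * g + 2) = 0 := coeff_eq_zero_of_natDegree_lt (by omega)
    rw [h0, quadraticChar_zero]
    rw [hd] at h3
    push_cast at h3 ⊢
    rw [sub_zero, abs_neg]
    refine h3.trans ?_
    nlinarith
  · rw [hd] at h3
    push_cast at h3
    refine (abs_sub _ _).trans ?_
    rw [abs_neg]
    have : (2 * (g : ℝ) + 2 - 1) * √(Fintype.card E) + 1 ≤ (2 * g + 2) * √(Fintype.card E) := by nlinarith
    linarith

end

/-- The curve is smooth of genus `g` modulo `p`. -/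
def GoodC (g p : ℕ) (f : (ZMod p)[X]) : Prop :=
  p.Prime ∧ p ≠ 2 ∧ (f.natDegree = 2 * g + 1 ∨ f.natDegree = 2 * g + 2) ∧ f.Separable

open Classical in
/-- the number of points over the field with `p ^ k` elements -/
noncomputable def pts (g p k : ℕ) (f : (ZMod p)[X]) : ℕ :=
  if h : p.Prime then
    haveI : Fact p.Prime := ⟨h⟩
    Nat.card {P : GaloisField p k × GaloisField p k // P.2 ^ 2 = aeval P.1 f} +
      Nat.card {y : GaloisField p k // y ^ 2 = algebraMap (ZMod p) (GaloisField p k) (f.coeff (2 * g + 2))}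
  else 0

/-- the normalized power sum -/
noncomputable def psum (g p : ℕ) (f : (ZMod p)[X]) (k : ℕ) : ℝ := ((p : ℝ) ^ k + 1 - pts g p k f) / Real.sqrt p ^ k

lemma psum_bound (g p : ℕ) (f : (ZMod p)[X]) (hf : GoodC g p f) (k : ℕ) (hk : k ≠ 0) : |psum g p f k| ≤ 2 * g + 2 := by
  classical
  obtain ⟨hp, h2, hd, hs⟩ := hf
  have hF : Fact p.Prime := ⟨hp⟩
  have hfin : Finite (GaloisField p k) := inferInstance
  have hft : Fintype (GaloisField p k) := Fintype.ofFinite _
  have hcard : Fintype.card (GaloisField p k) = p ^ k := by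
    rw [← Nat.card_eq_fintype_card]
    exact GaloisField.card p k hk
  have hchar : ringChar (GaloisField p k) ≠ 2 := by
    rw [ringChar.eq (GaloisField p k) p]
    exact h2
  obtain ⟨fE, hfE⟩ : ∃ fE : (GaloisField p k)[X], fE = f.map (algebraMap (ZMod p) (GaloisField p k)) := ⟨_, rfl⟩
  have hsE : fE.Separable := by rw [hfE]; exact hs.map
  have hdE : fE.natDegree = 2 * g + 1 ∨ fE.natDegree = 2 * g + 2 := by
    rw [hfE, natDegree_map]
    exact hd
  have h := weil_all hchar g fE hsE hdE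
  have hpts : pts g p k f = Nat.card {P : GaloisField p k × GaloisField p k // P.2 ^ 2 = fE.eval P.1} +
      Nat.card {y : GaloisField p k // y ^ 2 = fE.coeff (2 * g + 2)} := by
    unfold pts
    rw [dif_pos hp, hfE, coeff_map]
    simp only [eval_map_algebraMap]
  unfold psum
  rw [hpts]
  rw [hcard] at h
  have hp0 : (0 : ℝ) < p := by exact_mod_cast hp.pos
  have hsp : 0 < Real.sqrt (p : ℝ) ^ k := by
    have := Real.sqrt_pos.2 hp0
    positivity
  have hsq : √((p ^ k : ℕ) : ℝ) = Real.sqrt (p : ℝ) ^ k := by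
    push_cast
    rw [Real.sqrt_eq_iff_mul_self_eq (by positivity) (by positivity), ← mul_pow, Real.mul_self_sqrt hp0.le]
  rw [hsq] at h
  rw [abs_div, abs_of_pos hsp, div_le_iff₀ hsp]
  push_cast at h ⊢
  exact h

/-- a polynomial is bounded on a box -/
lemma poly_bdd {R : ℕ} (Φ : MvPolynomial (Fin R) ℚ) (M : ℝ) : ∃ D : ℝ, 0 < D ∧ ∀ t : Fin R → ℝ, (∀ i, |t i| ≤ M) →
    |MvPolynomial.aeval t Φ| ≤ D := by
  have hc : IsCompact (Set.pi Set.univ (fun _ : Fin R => Set.Icc (-M) M)) := isCompact_univ_pi fun _ => isCompact_Icc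
  have hcont : Continuous (fun t : Fin R → ℝ => |MvPolynomial.aeval t Φ|) := by
    have h1 : (fun t : Fin R → ℝ => MvPolynomial.aeval t Φ) = fun t => MvPolynomial.eval t (MvPolynomial.map (algebraMap ℚ ℝ) Φ) := by
      funext t
      rw [MvPolynomial.aeval_def, MvPolynomial.eval_map]
    have h2 : Continuous (fun t : Fin R → ℝ => MvPolynomial.aeval t Φ) := by
      rw [h1]
      exact MvPolynomial.continuous_eval _
    exact h2.abs
  obtain ⟨D, hD⟩ := hc.bddAbove_image hcont.continuousOn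
  refine ⟨max D 1, by positivity, fun t ht => ?_⟩
  have : |MvPolynomial.aeval t Φ| ∈ (fun t : Fin R → ℝ => |MvPolynomial.aeval t Φ|) '' (Set.pi Set.univ (fun _ : Fin R => Set.Icc (-M) M)) :=
    ⟨t, fun i _ => abs_le.1 (ht i), rfl⟩
  exact (hD this).trans (le_max_left _ _)

theorem countable_mvq (k : ℕ) : Countable (MvPolynomial (Fin k) ℚ) := by
  rw [← Cardinal.mk_le_aleph0_iff]
  refine MvPolynomial.cardinalMk_le_max_lift.trans ?_
  simp

theorem countable_pp : Countable ℤ[X][X] := by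
  have h0 := Pool.Agent.X35.GM.countable_int_poly
  rw [← Cardinal.mk_le_aleph0_iff]
  exact Polynomial.cardinalMk_le_max.trans (max_le Cardinal.mk_le_aleph0 le_rfl)

end Pool.Agent.X35.GV
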