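import Pool.Agent.X35.GV.Nagao

/-! Averages over `n` modulo `p` of the sums `∑_t χ(a(t) - n b(t)) u(t)` over the points `t` of an affine space, `χ` the quadratic character. -/

set_option autoImplicit false

namespace Pool.Agent.X35.GV
open Finset
open Pool.Agent.H304R2.EC.Pts (qc pair_sum sum_qc rc)

section
variable {p : ℕ} [hF : Fact p.Prime] {T : Type} [Fintype T]

/-- the sum -/
noncomputable def twT (g : T → ZMod p) (u : T → ℝ) (n : ZMod p) : ℝ := ∑ t : T, (qc p (g t - n) : ℝ) * u t

lemma twT_abs (g : T → ZMod p) (u : T → ℝ) (U : ℝ) (hu : ∀ t, |u t| ≤ U) (n : ZMod p) : |twT g u n| ≤ Fintype.card T * U := by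
  unfold twT
  refine (abs_sum_le_sum_abs _ _).trans ?_
  have h : ∀ t ∈ (univ : Finset T), |(qc p (g t - n) : ℝ) * u t| ≤ U := by
    intro t _
    rw [abs_mul]
    calc |(qc p (g t - n) : ℝ)| * |u t| ≤ 1 * |u t| := mul_le_mul_of_nonneg_right (qc_abs _) (abs_nonneg _)
      _ = |u t| := one_mul _
      _ ≤ U := hu t
  refine (sum_le_sum h).trans ?_
  rw [sum_const, card_univ, nsmul_eq_mul]

lemma twT_mean (h2 : p ≠ 2) (g : T → ZMod p) (u : T → ℝ) : ∑ n : ZMod p, twT g u n = 0 := by
  unfold twT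
  rw [sum_comm]
  refine sum_eq_zero fun t _ => ?_
  rw [← sum_mul]
  have h : ∑ n : ZMod p, (qc p (g t - n) : ℝ) = 0 := by
    have := sum_qc_sub h2 (g t)
    exact_mod_cast this
  rw [h, zero_mul]

lemma twT_sq (h2 : p ≠ 2) (g : T → ZMod p) (f : ℝ) (hf : 0 ≤ f) (hg : ∀ c, (Nat.card {t : T // g t = c} : ℝ) ≤ f)
    (u : T → ℝ) (U : ℝ) (hU0 : 0 ≤ U) (hu : ∀ t, |u t| ≤ U) :
    ∑ n : ZMod p, twT g u n ^ 2 ≤ Fintype.card T * (f * (p * U ^ 2)) := by
  classical
  have h1 : ∀ n, twT g u n ^ 2 = ∑ t : T, ∑ t' : T, (qc p ((n - g t) * (n - g t')) : ℝ) * (u t * u t') := by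
    intro n
    unfold twT
    rw [sq, sum_mul_sum]
    refine sum_congr rfl fun t _ => sum_congr rfl fun t' _ => ?_
    have h3 : (n - g t) * (n - g t') = (g t - n) * (g t' - n) := by ring
    rw [h3, map_mul]
    push_cast
    ring
  have h4 : ∀ t t' : T, ∑ n : ZMod p, (qc p ((n - g t) * (n - g t')) : ℝ) = (if g t = g t' then (p : ℝ) else 0) - 1 := by
    intro t t'
    have h5 := pair_sum h2 (g t) (g t')
    have h6 : ∑ n : ZMod p, (qc p ((n - g t) * (n - g t')) : ℝ) = ((if g t = g t' then (p : ℤ) - 1 else -1 : ℤ) : ℝ) := by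
      rw [← h5]
      push_cast
      rfl
    rw [h6]
    split_ifs <;> push_cast <;> ring
  calc ∑ n : ZMod p, twT g u n ^ 2 = ∑ t : T, ∑ t' : T, ((if g t = g t' then (p : ℝ) else 0) - 1) * (u t * u t') := by
        rw [sum_congr rfl fun n _ => h1 n, sum_comm]
        refine sum_congr rfl fun t _ => ?_
        rw [sum_comm]
        refine sum_congr rfl fun t' _ => ?_
        rw [← sum_mul, h4]
    _ = ∑ t : T, ∑ t' : T, (if g t = g t' then (p : ℝ) else 0) * (u t * u t') - (∑ t : T, u t) ^ 2 := by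
        rw [sq, sum_mul_sum, ← sum_sub_distrib]
        refine sum_congr rfl fun t _ => ?_
        rw [← sum_sub_distrib]
        refine sum_congr rfl fun t' _ => ?_
        ring
    _ ≤ ∑ t : T, ∑ t' : T, (if g t = g t' then (p : ℝ) else 0) * (u t * u t') := by nlinarith [sq_nonneg (∑ t : T, u t)]
    _ ≤ ∑ t : T, ∑ t' : T, (if g t' = g t then (p : ℝ) * U ^ 2 else 0) := by
        refine sum_le_sum fun t _ => sum_le_sum fun t' _ => ?_
        by_cases h : g t = g t'
        · rw [if_pos h, if_pos h.symm]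
          apply mul_le_mul_of_nonneg_left _ (Nat.cast_nonneg _)
          calc u t * u t' ≤ |u t * u t'| := le_abs_self _
            _ = |u t| * |u t'| := abs_mul _ _
            _ ≤ U * U := mul_le_mul (hu t) (hu t') (abs_nonneg _) hU0
            _ = U ^ 2 := (sq U).symm
        · rw [if_neg h, if_neg (fun h' => h h'.symm), zero_mul]
    _ ≤ ∑ _t : T, f * (p * U ^ 2) := by
        refine sum_le_sum fun t _ => ?_
        rw [← sum_filter, sum_const, nsmul_eq_mul]
        apply mul_le_mul_of_nonneg_right _ (by positivity)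
        have h5 := hg (g t)
        rw [Nat.card_eq_fintype_card, Fintype.card_subtype] at h5
        exact h5
    _ = _ := by
        rw [sum_const, card_univ, nsmul_eq_mul]

/-- the part of the sum at the base locus -/
noncomputable def base (a b : T → ZMod p) (u : T → ℝ) : ℝ := by
  classical
  exact ∑ t : T, if b t = 0 then (qc p (a t) : ℝ) * u t else 0

lemma split (a b : T → ZMod p) (u : T → ℝ) (n : ZMod p) :
    ∑ t : T, (qc p (a t - n * b t) : ℝ) * u t = twT (fun t => a t / b t) (fun t => (qc p (b t) : ℝ) * u t) n + base a b u := by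
  classical
  unfold twT base
  rw [← sum_add_distrib]
  refine sum_congr rfl fun t _ => ?_
  by_cases h : b t = 0
  · have h6 : qc p (0 : ZMod p) = 0 := quadraticChar_zero
    beta_reduce
    rw [if_pos h, h, mul_zero, sub_zero, h6]
    push_cast
    ring
  · rw [if_neg h]
    beta_reduce
    have h1 : a t - n * b t = b t * (a t / b t - n) := by field_simp
    rw [h1, map_mul]
    push_cast
    ring

lemma base_abs (a b : T → ZMod p) (u : T → ℝ) (U : ℝ) (hu : ∀ t, |u t| ≤ U) :
    |base a b u| ≤ Nat.card {t : T // b t = 0} * U := by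
  classical
  unfold base
  refine (abs_sum_le_sum_abs _ _).trans ?_
  have h1 : ∀ t : T, |if b t = 0 then (qc p (a t) : ℝ) * u t else 0| ≤ if b t = 0 then U else 0 := by
    intro t
    by_cases h : b t = 0
    · rw [if_pos h, if_pos h, abs_mul]
      calc |(qc p (a t) : ℝ)| * |u t| ≤ 1 * |u t| := mul_le_mul_of_nonneg_right (qc_abs _) (abs_nonneg _)
        _ = |u t| := one_mul _
        _ ≤ U := hu t
    · rw [if_neg h, if_neg h, abs_zero]
  refine (sum_le_sum fun t _ => h1 t).trans ?_
  rw [← sum_filter, sum_const, nsmul_eq_mul, Nat.card_eq_fintype_card, Fintype.card_subtype]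

end

section
variable {p : ℕ} [hF : Fact p.Prime] {k : ℕ}

lemma zeros_le (P : MvPolynomial (Fin k) (ZMod p)) (hP : P ≠ 0) (e : ℕ) (he : P.totalDegree ≤ e) :
    (Nat.card {t : Fin k → ZMod p // P.eval t = 0} : ℝ) ≤ e * (p : ℝ) ^ k / p := by
  classical
  have h := MvPolynomial.schwartz_zippel_totalDegree hP (univ : Finset (ZMod p))
  rw [card_univ, ZMod.card, Fintype.piFinset_univ] at h
  have hp0 : (0 : ℝ) < p := by exact_mod_cast hF.out.pos
  have hp1 : (0 : ℚ≥0) < p := by exact_mod_cast hF.out.pos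
  rw [div_le_div_iff₀ (by positivity) hp1] at h
  have h0 : ((univ : Finset (Fin k → ZMod p)).filter (fun t => P.eval t = 0)).card * p ≤ P.totalDegree * p ^ k := by exact_mod_cast h
  have h1 : (((univ : Finset (Fin k → ZMod p)).filter (fun t => P.eval t = 0)).card : ℝ) * p ≤ P.totalDegree * (p : ℝ) ^ k := by
    exact_mod_cast h0
  rw [Nat.card_eq_fintype_card, Fintype.card_subtype, le_div_iff₀ hp0]
  have h2 : (P.totalDegree : ℝ) ≤ e := by exact_mod_cast he
  calc _ ≤ (P.totalDegree : ℝ) * (p : ℝ) ^ k := h1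
    _ ≤ e * (p : ℝ) ^ k := by gcongr

/-- the values modulo `p` of an integral polynomial -/
noncomputable def ev (p : ℕ) {k : ℕ} (g : MvPolynomial (Fin k) ℤ) (t : Fin k → ZMod p) : ZMod p :=
  MvPolynomial.eval₂ (Int.castRingHom (ZMod p)) t g

/-- independence modulo `p` -/
def Good (p : ℕ) {k : ℕ} (g q : MvPolynomial (Fin k) ℤ) : Prop :=
  MvPolynomial.map (Int.castRingHom (ZMod p)) q ≠ 0 ∧ ∀ c : ZMod p, MvPolynomial.map (Int.castRingHom (ZMod p)) g -
    MvPolynomial.C c * MvPolynomial.map (Int.castRingHom (ZMod p)) q ≠ 0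

lemma ev_map (g : MvPolynomial (Fin k) ℤ) (t : Fin k → ZMod p) :
    (MvPolynomial.map (Int.castRingHom (ZMod p)) g).eval t = ev p g t := by
  unfold ev
  rw [MvPolynomial.eval_map]

lemma totalDegree_map_le' (g : MvPolynomial (Fin k) ℤ) :
    (MvPolynomial.map (Int.castRingHom (ZMod p)) g).totalDegree ≤ g.totalDegree := by
  unfold MvPolynomial.totalDegree
  exact Finset.sup_mono (MvPolynomial.support_map_subset _ _)

lemma q_zeros (g q : MvPolynomial (Fin k) ℤ) (h : Good p g q) (e : ℕ) (hq : q.totalDegree ≤ e) :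
    (Nat.card {t : Fin k → ZMod p // ev p q t = 0} : ℝ) ≤ e * (p : ℝ) ^ k / p := by
  have h1 := zeros_le (MvPolynomial.map (Int.castRingHom (ZMod p)) q) h.1 e
    ((totalDegree_map_le' _).trans hq)
  simp only [ev_map] at h1
  exact h1

lemma fibre_le (g q : MvPolynomial (Fin k) ℤ) (h : Good p g q) (e : ℕ) (hg : g.totalDegree ≤ e) (hq : q.totalDegree ≤ e) (c : ZMod p) :
    (Nat.card {t : Fin k → ZMod p // ev p g t / ev p q t = c} : ℝ) ≤ 2 * e * (p : ℝ) ^ k / p := by
  classical
  have h1 := zeros_le (MvPolynomial.map (Int.castRingHom (ZMod p)) g -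
    MvPolynomial.C c * MvPolynomial.map (Int.castRingHom (ZMod p)) q) (h.2 c) e (by
      refine (MvPolynomial.totalDegree_sub _ _).trans (max_le ((totalDegree_map_le' _).trans hg) ?_)
      refine (MvPolynomial.totalDegree_mul _ _).trans ?_
      rw [MvPolynomial.totalDegree_C, zero_add]
      exact (totalDegree_map_le' _).trans hq)
  have h2 := q_zeros g q h e hq
  simp only [map_sub, map_mul, MvPolynomial.eval_C, ev_map] at h1
  rw [Nat.card_eq_fintype_card, Fintype.card_subtype] at h1 h2 ⊢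
  have h3 : (univ.filter (fun t : Fin k → ZMod p => ev p g t / ev p q t = c)) ⊆
      (univ.filter (fun t : Fin k → ZMod p => ev p g t - c * ev p q t = 0)) ∪ (univ.filter (fun t : Fin k → ZMod p => ev p q t = 0)) := by
    intro t ht
    rw [mem_filter] at ht
    rw [mem_union, mem_filter, mem_filter]
    by_cases h0 : ev p q t = 0
    · exact Or.inr ⟨mem_univ _, h0⟩
    · left
      refine ⟨mem_univ _, ?_⟩
      rw [← ht.2]
      field_simp
      ring
  have h4 := (card_le_card h3).trans (card_union_le _ _)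
  have h5 : ((univ.filter (fun t : Fin k → ZMod p => ev p g t / ev p q t = c)).card : ℝ) ≤
      ((univ.filter (fun t : Fin k → ZMod p => ev p g t - c * ev p q t = 0)).card : ℝ) +
      ((univ.filter (fun t : Fin k → ZMod p => ev p q t = 0)).card : ℝ) := by exact_mod_cast h4
  refine h5.trans ((add_le_add h1 h2).trans (le_of_eq ?_))
  ring

end

/-- independent polynomials remain so modulo almost all primes -/
lemma good_of_indep {k : ℕ} (g q : MvPolynomial (Fin k) ℤ)
    (h : ∀ a b : ℤ, MvPolynomial.C a * g = MvPolynomial.C b * q → a = 0 ∧ b = 0) :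
    ∃ m : ℕ, m ≠ 0 ∧ ∀ p : ℕ, p.Prime → ¬ p ∣ m → Good p g q := by
  classical
  have hq : q ≠ 0 := by
    intro h0
    have := h 0 1 (by rw [h0]; simp)
    omega
  obtain ⟨i, hi⟩ := MvPolynomial.ne_zero_iff.1 hq
  obtain ⟨j, hj⟩ : ∃ j, q.coeff i * g.coeff j ≠ g.coeff i * q.coeff j := by
    by_contra hcon
    push Not at hcon
    have h1 : MvPolynomial.C (q.coeff i) * g = MvPolynomial.C (g.coeff i) * q := by
      ext j
      rw [MvPolynomial.coeff_C_mul, MvPolynomial.coeff_C_mul, hcon j]
    exact hi (h _ _ h1).1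
  refine ⟨(q.coeff i * g.coeff j - g.coeff i * q.coeff j).natAbs, by
    rw [Int.natAbs_ne_zero]
    exact sub_ne_zero.2 hj, fun p hp hdvd => ?_⟩
  have hz : (((q.coeff i * g.coeff j - g.coeff i * q.coeff j : ℤ)) : ZMod p) ≠ 0 := by
    intro h0
    rw [ZMod.intCast_zmod_eq_zero_iff_dvd] at h0
    exact hdvd (Int.natCast_dvd.1 h0)
  constructor
  · intro h0
    apply hz
    have h1 : ∀ m, ((q.coeff m : ℤ) : ZMod p) = 0 := by
      intro m
      have := congrArg (MvPolynomial.coeff m) h0
      rw [MvPolynomial.coeff_map, MvPolynomial.coeff_zero] at this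
      exact this
    push_cast
    rw [h1 i, h1 j]
    ring
  · intro c h0
    apply hz
    have h1 : ∀ m, ((g.coeff m : ℤ) : ZMod p) = c * ((q.coeff m : ℤ) : ZMod p) := by
      intro m
      have := congrArg (MvPolynomial.coeff m) h0
      rw [MvPolynomial.coeff_sub, MvPolynomial.coeff_C_mul, MvPolynomial.coeff_map, MvPolynomial.coeff_map, MvPolynomial.coeff_zero,
        sub_eq_zero] at this
      exact this
    push_cast
    rw [h1 i, h1 j]
    ring

theorem countable_mv (k : ℕ) : Countable (MvPolynomial (Fin k) ℤ) := by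
  rw [← Cardinal.mk_le_aleph0_iff]
  refine MvPolynomial.cardinalMk_le_max_lift.trans ?_
  simp

theorem countable_mv_poly (k : ℕ) : Countable (Polynomial (MvPolynomial (Fin k) ℤ)) := by
  have := countable_mv k
  rw [← Cardinal.mk_le_aleph0_iff]
  exact Polynomial.cardinalMk_le_max.trans (max_le Cardinal.mk_le_aleph0 le_rfl)

end Pool.Agent.X35.GV
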