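import Mathlib

/-! Points of cubics modulo `p` depend on the residues of the coefficients only. -/

set_option autoImplicit false

namespace Pool.Agent.X35.GV
open Finset

/-- The number of the solutions `(x, y)` of `y² = x³ + A x + B` modulo `p`. -/
def points (p : ℕ) (A B : ℤ) : ℕ :=
  ((range p ×ˢ range p).filter
    (fun xy : ℕ × ℕ => (p : ℤ) ∣ (xy.2 : ℤ) ^ 2 - ((xy.1 : ℤ) ^ 3 + A * xy.1 + B))).card

lemma points_congr (p : ℕ) {A A' B B' : ℤ} (hA : A ≡ A' [ZMOD p]) (hB : B ≡ B' [ZMOD p]) : points p A B = points p A' B' := by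
  unfold points
  congr 1
  apply filter_congr
  intro xy _
  have h : (xy.2 : ℤ) ^ 2 - ((xy.1 : ℤ) ^ 3 + A * xy.1 + B) ≡ (xy.2 : ℤ) ^ 2 - ((xy.1 : ℤ) ^ 3 + A' * xy.1 + B') [ZMOD p] :=
    (Int.ModEq.refl _).sub (((Int.ModEq.refl _).add (hA.mul_right _)).add hB)
  exact h.dvd_iff

lemma disc_congr (p : ℕ) {A A' B B' : ℤ} (hA : A ≡ A' [ZMOD p]) (hB : B ≡ B' [ZMOD p]) :
    (p : ℤ) ∣ 2 * (4 * A ^ 3 + 27 * B ^ 2) ↔ (p : ℤ) ∣ 2 * (4 * A' ^ 3 + 27 * B' ^ 2) := by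
  have h : 2 * (4 * A ^ 3 + 27 * B ^ 2) ≡ 2 * (4 * A' ^ 3 + 27 * B' ^ 2) [ZMOD p] :=
    (((hA.pow 3).mul_left 4).add ((hB.pow 2).mul_left 27)).mul_left 2
  exact h.dvd_iff

lemma points_le (p : ℕ) (A B : ℤ) : points p A B ≤ p * p := by
  unfold points
  refine (card_filter_le _ _).trans ?_
  rw [card_product, card_range]

end Pool.Agent.X35.GV
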