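import Pool.Agent.X35.GV.Centered

/-! The centered law with additional weights (arithmetic progressions). -/

set_option autoImplicit false

namespace Pool.Agent.X35.GV
open Finset

/-- the indicator functions of the residue classes `a` modulo `q ≤ x ^ A` -/
theorem progressions (A : ℝ) (hA : 0 ≤ A) : ∃ U : ℕ → Finset (ℕ → ℝ), (∀ x, 2 ≤ x → ((U x).card : ℝ) ≤ (x : ℝ) ^ (2 * A + 2)) ∧
    (∀ x, ∀ w ∈ U x, ∀ p, |w p| ≤ 1) ∧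
    ∀ x : ℕ, 2 ≤ x → ∀ q : ℕ, 1 ≤ q → (q : ℝ) ≤ (x : ℝ) ^ A → ∀ a : ℤ, (fun p : ℕ => if (p : ℤ) ≡ a [ZMOD (q : ℤ)] then (1 : ℝ) else 0) ∈ U x := by
  classical
  obtain ⟨S, hS⟩ : ∃ S : ℕ → Finset (ℕ × ℕ), S = fun (x : ℕ) => Icc 1 ⌊(x : ℝ) ^ A⌋₊ ×ˢ range ⌊(x : ℝ) ^ A⌋₊ := ⟨_, rfl⟩
  refine ⟨fun x => (S x).image (fun c p => if (p : ℤ) ≡ (c.2 : ℤ) [ZMOD (c.1 : ℤ)] then (1 : ℝ) else 0), ?_, ?_, ?_⟩
  · intro x hx
    have hxr : (2 : ℝ) ≤ x := by exact_mod_cast hx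
    have hx0 : (0 : ℝ) < x := by linarith
    have h1 : (((S x).image (fun (c : ℕ × ℕ) (p : ℕ) => if (p : ℤ) ≡ (c.2 : ℤ) [ZMOD (c.1 : ℤ)] then (1 : ℝ) else 0)).card : ℝ) ≤ (S x).card := by
      exact_mod_cast card_image_le
    refine h1.trans ?_
    rw [hS]
    beta_reduce
    rw [card_product, Nat.card_Icc, card_range, Nat.add_sub_cancel]
    push_cast
    have h2 : (⌊(x : ℝ) ^ A⌋₊ : ℝ) ≤ (x : ℝ) ^ A := Nat.floor_le (by positivity)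
    calc (⌊(x : ℝ) ^ A⌋₊ : ℝ) * ⌊(x : ℝ) ^ A⌋₊ ≤ (x : ℝ) ^ A * (x : ℝ) ^ A := by gcongr
      _ = (x : ℝ) ^ (2 * A) := by rw [← Real.rpow_add hx0]; ring_nf
      _ ≤ (x : ℝ) ^ (2 * A + 2) := Real.rpow_le_rpow_of_exponent_le (by linarith) (by linarith)
  · intro x w hw p
    rw [mem_image] at hw
    obtain ⟨c, _, rfl⟩ := hw
    beta_reduce
    split_ifs <;> norm_num
  · intro x hx q hq hqx a
    rw [mem_image]
    have hq0 : (0 : ℤ) < q := by exact_mod_cast hq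
    refine ⟨(q, (a % q).toNat), ?_, ?_⟩
    · rw [hS]
      beta_reduce
      rw [mem_product, mem_Icc, mem_range]
      have h1 : q ≤ ⌊(x : ℝ) ^ A⌋₊ := Nat.le_floor hqx
      have h2 := Int.emod_nonneg a hq0.ne'
      have h3 := Int.emod_lt_of_pos a hq0
      refine ⟨⟨hq, h1⟩, ?_⟩
      have : (a % q).toNat < q := by omega
      show (a % q).toNat < _
      omega
    · funext p
      have h2 := Int.emod_nonneg a hq0.ne'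
      have h4 : (((a % q).toNat : ℕ) : ℤ) = a % q := Int.toNat_of_nonneg h2
      beta_reduce
      rw [h4]
      have : ((p : ℤ) ≡ a % q [ZMOD q]) ↔ ((p : ℤ) ≡ a [ZMOD q]) := by
        unfold Int.ModEq
        rw [Int.emod_emod_of_dvd _ (dvd_refl _)]
      simp only [this]

/-- weights times `p ^ (- i τ)` -/
theorem heightsU (A B : ℝ) (hA : 0 ≤ A) (U : ℕ → Finset (ℕ → ℝ)) (hU1 : ∀ x, 2 ≤ x → ((U x).card : ℝ) ≤ (x : ℝ) ^ B)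
    (hU2 : ∀ x, ∀ w ∈ U x, ∀ p, |w p| ≤ 1) : ∃ W : ℕ → Finset (ℕ → ℝ), (∀ x, 2 ≤ x → ((W x).card : ℝ) ≤ (x : ℝ) ^ (B + (A + 6))) ∧
    (∀ x, ∀ w ∈ W x, ∀ p, |w p| ≤ 1) ∧
    ∀ x : ℕ, 2 ≤ x → ∀ u ∈ U x, ∀ (c : ℕ → ℝ) (K S : ℝ), 0 ≤ K → (∀ p ∈ op x, |c p| ≤ K) → (∀ w ∈ W x, |∑ p ∈ op x, w p * c p| ≤ S) →
      ∀ τ : ℝ, |τ| ≤ (x : ℝ) ^ A → ‖∑ p ∈ op x, ((u p * c p : ℝ) : ℂ) * (p : ℂ) ^ (-(τ * Complex.I))‖ ≤ 2 * S + 2 * K := by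
  classical
  obtain ⟨W, hW1, hW2, hW3⟩ := heights A hA
  refine ⟨fun x => (U x ×ˢ W x).image (fun c p => c.1 p * c.2 p), ?_, ?_, ?_⟩
  · intro x hx
    have hx0 : (0 : ℝ) < x := by
      have : (2 : ℝ) ≤ x := by exact_mod_cast hx
      linarith
    have h1 : (((U x ×ˢ W x).image (fun (c : (ℕ → ℝ) × (ℕ → ℝ)) (p : ℕ) => c.1 p * c.2 p)).card : ℝ) ≤ (U x ×ˢ W x).card := by
      exact_mod_cast card_image_le
    refine h1.trans ?_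
    rw [card_product, Nat.cast_mul, Real.rpow_add hx0]
    exact mul_le_mul (hU1 x hx) (hW1 x hx) (Nat.cast_nonneg _) (Real.rpow_nonneg hx0.le _)
  · intro x w hw p
    rw [mem_image] at hw
    obtain ⟨c, hc, rfl⟩ := hw
    rw [mem_product] at hc
    rw [abs_mul]
    exact mul_le_one₀ (hU2 x c.1 hc.1 p) (abs_nonneg _) (hW2 x c.2 hc.2 p)
  · intro x hx u hu c K S hK hc hS τ hτ
    refine hW3 x hx (fun p => u p * c p) K S hK (fun p hp => ?_) (fun w hw => ?_) τ hτ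
    · rw [abs_mul]
      calc |u p| * |c p| ≤ 1 * |c p| := mul_le_mul_of_nonneg_right (hU2 x u hu p) (abs_nonneg _)
        _ = |c p| := one_mul _
        _ ≤ K := hc p hp
    · have h1 := hS (fun p => u p * w p) (mem_image.2 ⟨(u, w), mem_product.2 ⟨hu, hw⟩, rfl⟩)
      have h2 : ∑ p ∈ op x, w p * (u p * c p) = ∑ p ∈ op x, u p * w p * c p := sum_congr rfl fun p _ => by ring
      rw [h2]
      exact h1

/-- from the weights to the complex sums -/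
lemma finishU (A : ℝ) (U W : ℕ → Finset (ℕ → ℝ))
    (hW3 : ∀ x : ℕ, 2 ≤ x → ∀ u ∈ U x, ∀ (c : ℕ → ℝ) (K S : ℝ), 0 ≤ K → (∀ p ∈ op x, |c p| ≤ K) → (∀ w ∈ W x, |∑ p ∈ op x, w p * c p| ≤ S) →
      ∀ τ : ℝ, |τ| ≤ (x : ℝ) ^ A → ‖∑ p ∈ op x, ((u p * c p : ℝ) : ℂ) * (p : ℂ) ^ (-(τ * Complex.I))‖ ≤ 2 * S + 2 * K)
    (β D δ : ℝ) (hβ : 0 ≤ β) (hD : 0 < D) (hδ : 0 < δ) (a : ℕ → ℤ → ℝ)
    (hb : ∀ p : ℕ, p.Prime → p ≠ 2 → ∀ n, |a p n| ≤ D * (p : ℝ) ^ β) (x : ℕ) (hx : (3 : ℝ) ≤ x) (n : ℤ)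
    (hlaw : ∀ w ∈ W x, |∑ p ∈ op x, cen β D a x w p n| ≤ √(1 + (x : ℝ)) * (x : ℝ) ^ (δ / 4))
    (habs : 12 * D * (x : ℝ) ^ (δ / 4) * (1 + Real.log x) ^ 2 ≤ (x : ℝ) ^ δ) (u : ℕ → ℝ) (hu : u ∈ U x) (σ : ℝ) (hσ : |σ| ≤ (x : ℝ) ^ A) :
    ‖∑ p ∈ op x, ((u p * ((a p n - avg p (a p)) * Real.log p) : ℝ) : ℂ) * (p : ℂ) ^ (-(σ * Complex.I))‖ ≤ (x : ℝ) ^ (β + 1 / 2 + δ) := by
  have hx0 : (0 : ℝ) < x := by linarith
  have hxn : 2 ≤ x := by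
    have : (2 : ℝ) ≤ x := by linarith
    exact_mod_cast this
  have hl : 0 < Real.log x := Real.log_pos (by linarith)
  have hxb : 0 < (x : ℝ) ^ β := Real.rpow_pos_of_pos hx0 _
  have hS : ∀ w ∈ W x, |∑ p ∈ op x, w p * ((a p n - avg p (a p)) * Real.log p)| ≤
      (2 * D * (x : ℝ) ^ β * Real.log x) * (√(1 + (x : ℝ)) * (x : ℝ) ^ (δ / 4)) := by
    intro w hw
    have h1 := hlaw w hw
    have h2 : ∑ p ∈ op x, w p * ((a p n - avg p (a p)) * Real.log p) = (2 * D * (x : ℝ) ^ β * Real.log x) * ∑ p ∈ op x, cen β D a x w p n := by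
      rw [mul_sum]
      refine sum_congr rfl fun p hp => ?_
      unfold cen
      field_simp
    rw [h2, abs_mul, abs_of_pos (by positivity : (0 : ℝ) < 2 * D * (x : ℝ) ^ β * Real.log x)]
    exact mul_le_mul_of_nonneg_left h1 (by positivity)
  have hK : ∀ p ∈ op x, |(a p n - avg p (a p)) * Real.log p| ≤ 2 * D * (x : ℝ) ^ β * Real.log x := by
    intro p hp
    obtain ⟨q1, q2, q3, q4, q5⟩ := op_log hp
    rw [mem_op] at hp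
    have hp0 : (0 : ℝ) < p := by linarith
    have hpx : (p : ℝ) ^ β ≤ (x : ℝ) ^ β := Real.rpow_le_rpow hp0.le q2 hβ
    rw [abs_mul, abs_of_pos q3]
    exact mul_le_mul ((cen_diff β D a hb p hp.2.1 hp.2.2 n).trans (by gcongr)) q4 q3.le (by positivity)
  have hfin := hW3 x hxn u hu (fun p => (a p n - avg p (a p)) * Real.log p) _ _ (by positivity) hK hS σ hσ
  refine hfin.trans ?_
  have hsq : √(1 + (x : ℝ)) ≤ 2 * √(x : ℝ) := by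
    rw [Real.sqrt_le_left (by positivity), mul_pow, Real.sq_sqrt hx0.le]
    linarith
  have hs1 : 1 ≤ √(x : ℝ) := by
    rw [Real.one_le_sqrt]
    linarith
  have hxd : 1 ≤ (x : ℝ) ^ (δ / 4) := Real.one_le_rpow (by linarith) (by positivity)
  rw [Real.rpow_add hx0, Real.rpow_add hx0, ← Real.sqrt_eq_rpow]
  calc 2 * ((2 * D * (x : ℝ) ^ β * Real.log x) * (√(1 + x) * (x : ℝ) ^ (δ / 4))) + 2 * (2 * D * (x : ℝ) ^ β * Real.log x)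
      ≤ 2 * ((2 * D * (x : ℝ) ^ β * Real.log x) * ((2 * √(x : ℝ)) * (x : ℝ) ^ (δ / 4))) +
        2 * (2 * D * (x : ℝ) ^ β * Real.log x) * (√(x : ℝ) * (x : ℝ) ^ (δ / 4)) := by
        have h1 : 2 * (2 * D * (x : ℝ) ^ β * Real.log x) ≤ 2 * (2 * D * (x : ℝ) ^ β * Real.log x) * (√(x : ℝ) * (x : ℝ) ^ (δ / 4)) :=
          le_mul_of_one_le_right (by positivity) (one_le_mul_of_one_le_of_one_le hs1 hxd)
        gcongr
    _ = (x : ℝ) ^ β * √(x : ℝ) * (12 * D * (x : ℝ) ^ (δ / 4) * Real.log x) := by ring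
    _ ≤ (x : ℝ) ^ β * √(x : ℝ) * (12 * D * (x : ℝ) ^ (δ / 4) * (1 + Real.log x) ^ 2) := by
        have h1 : Real.log x ≤ (1 + Real.log x) ^ 2 := by nlinarith
        gcongr
    _ ≤ (x : ℝ) ^ β * √(x : ℝ) * (x : ℝ) ^ δ := mul_le_mul_of_nonneg_left habs (by positivity)

/-- **centered law near sequences** -/
theorem centered_seqU (δ A B β : ℝ) (hδ : 0 < δ) (hA : 0 ≤ A) (hβ : 0 ≤ β) (U : ℕ → Finset (ℕ → ℝ))
    (hU1 : ∀ x, 2 ≤ x → ((U x).card : ℝ) ≤ (x : ℝ) ^ B) (hU2 : ∀ x, ∀ w ∈ U x, ∀ p, |w p| ≤ 1) : ∃ κ C : ℝ, 0 < κ ∧ 0 < C ∧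
    ∀ (v : ℕ → ℝ) (τ θ : ℝ), (∀ i, 1 ≤ v i) → 0 ≤ τ → θ < 1 → (∀ t : ℝ, τ < t → Summable (fun i => v i ^ (-t))) →
    ∀ (Γ : Type) [Countable Γ] (a : Γ → ℕ → ℤ → ℝ) (D : Γ → ℝ), (∀ c, 0 < D c) →
    (∀ c, ∀ p : ℕ, p.Prime → p ≠ 2 → ∀ m m' : ℤ, m ≡ m' [ZMOD (p : ℕ)] → a c p m = a c p m') →
    (∀ c, ∀ p : ℕ, p.Prime → p ≠ 2 → ∀ n, |a c p n| ≤ D c * (p : ℝ) ^ β) →
    ∃ E : Set ℝ, dimH E ≤ ENNReal.ofReal ((1 - κ + τ) / (1 - θ)) ∧ ∀ α : ℝ, 0 < α → α ∉ E → ∀ c : Γ, ∃ i₀ : ℕ,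
      ∀ i : ℕ, i₀ ≤ i → ∀ n : ℤ, |(|(n : ℝ)|) - α * v i| ≤ v i ^ θ →
        ∀ x : ℕ, Real.log |(n : ℝ)| ^ C ≤ x → (x : ℝ) ≤ |(n : ℝ)| ^ κ → ∀ u ∈ U x, ∀ σ : ℝ, |σ| ≤ (x : ℝ) ^ A →
          ‖∑ p ∈ op x, ((u p * ((a c p n - avg p (a c p)) * Real.log p) : ℝ) : ℂ) * (p : ℂ) ^ (-(σ * Complex.I))‖ ≤ (x : ℝ) ^ (β + 1 / 2 + δ) := by
  classical
  obtain ⟨W, hW1, hW2, hW3⟩ := heightsU A B hA U hU1 hU2
  obtain ⟨κ, hκ, hκ1, H⟩ := lawWinF (δ / 4) (B + (A + 6)) 1 (by positivity) le_rfl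
  refine ⟨κ, 2 / (δ / 4), hκ, by positivity, fun v τ θ hv1 hτ hθ hv Γ _ a D hD hper hb => ?_⟩
  obtain ⟨E, hE1, hE2⟩ := H v τ θ hv1 hτ hθ hv Γ (ℕ → ℝ) (fun _ x => W x) (fun c x hx => hW1 x hx) ℕ
    (fun _ x _ => op x) (fun _ _ p => p)
    (by
      intro c x l _ p hp
      rw [mem_op] at hp
      exact ⟨hp.2.1.two_le, by rw [pow_one]; exact hp.1⟩)
    (by
      intro c x l _ p hp p' hp' hne
      rw [mem_op] at hp hp'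
      exact (Nat.coprime_primes hp.2.1 hp'.2.1).2 hne)
    (fun c x w p n => cen β (D c) (a c) x w p n) (fun _ x _ => 1 + x)
    (by
      intro c x l _ p hp m m' h
      rw [mem_op] at hp
      unfold cen
      rw [hper c p hp.2.1 hp.2.2 m m' h])
    (by
      intro c x l hl p hp m
      exact cen_abs β (D c) hβ (hD c) (a c) (hb c) x l (hW2 x l hl) p hp m)
    (by
      intro c x l hl p hp
      exact cen_mean β (D c) (a c) x l p hp)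
    (by
      intro c x l hl
      have hx0 : (0 : ℝ) ≤ x := Nat.cast_nonneg _
      exact ⟨by linarith, cen_var β (D c) hβ (hD c) (a c) (hb c) x l (hW2 x l hl)⟩)
  refine ⟨E, hE1, fun α hα hαE c => ?_⟩
  obtain ⟨i₁, hi₁⟩ := hE2 α hα hαE c
  obtain ⟨x₀, hx₀⟩ := absorb δ (12 * D c) hδ (by have := hD c; positivity)
  obtain ⟨i₂, hi₂⟩ := log_large hv1 hτ hθ hv α hα (max x₀ 3) (2 / (δ / 4)) (by positivity)
  refine ⟨max i₁ i₂, fun i hi n hn x hx1 hx2 u hu σ hσ => ?_⟩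
  have hlarge := hi₂ i (le_trans (le_max_right _ _) hi) n hn
  have hxx : x₀ ≤ x := ((le_max_left _ _).trans hlarge).trans hx1
  have hx3 : (3 : ℝ) ≤ x := ((le_max_right _ _).trans hlarge).trans hx1
  exact finishU A U W hW3 β (D c) δ hβ (hD c) hδ (a c) (hb c) x hx3 n
    (fun w hw => hi₁ i (le_trans (le_max_left _ _) hi) n hn x hx1 hx2 w hw) (hx₀ x hxx) u hu σ hσ

/-- **centered law in intervals** -/
theorem centered_intU (δ A B β D : ℝ) (hδ : 0 < δ) (hA : 0 ≤ A) (hβ : 0 ≤ β) (hD : 0 < D) (U : ℕ → Finset (ℕ → ℝ))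
    (hU1 : ∀ x, 2 ≤ x → ((U x).card : ℝ) ≤ (x : ℝ) ^ B) (hU2 : ∀ x, ∀ w ∈ U x, ∀ p, |w p| ≤ 1) : ∃ κ C : ℝ, 0 < κ ∧ 0 < C ∧ ∃ N₀ : ℕ, ∀ N : ℕ, N₀ ≤ N →
    ∀ (Γ : Type) (H : ℕ → Set Γ), (∀ x, 2 ≤ x → (H x).Finite ∧ ((H x).ncard : ℝ) ≤ (x : ℝ) ^ A) →
    ∀ (a : Γ → ℕ → ℤ → ℝ),
    (∀ x, ∀ c ∈ H x, ∀ p : ℕ, p.Prime → p ≠ 2 → ∀ m m' : ℤ, m ≡ m' [ZMOD (p : ℕ)] → a c p m = a c p m') →
    (∀ x, ∀ c ∈ H x, ∀ p : ℕ, p.Prime → p ≠ 2 → ∀ n, |a c p n| ≤ D * (p : ℝ) ^ β) →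
    ∀ M : ℤ, ({n : ℤ | M ≤ n ∧ n < M + N ∧ ¬ ∀ x : ℕ, Real.log N ^ C ≤ x → (x : ℝ) ≤ (N : ℝ) ^ κ → ∀ c ∈ H x, ∀ u ∈ U x, ∀ σ : ℝ, |σ| ≤ (x : ℝ) ^ A →
        ‖∑ p ∈ op x, ((u p * ((a c p n - avg p (a c p)) * Real.log p) : ℝ) : ℂ) * (p : ℂ) ^ (-(σ * Complex.I))‖ ≤ (x : ℝ) ^ (β + 1 / 2 + δ)}.ncard : ℝ) ≤
      (N : ℝ) ^ (1 - κ) := by
  classical
  obtain ⟨W, hW1, hW2, hW3⟩ := heightsU A B hA U hU1 hU2
  obtain ⟨κ, hκ, hκ1, N₀, HH⟩ := law1F (δ / 4) (A + (B + (A + 6))) 1 (by positivity) le_rfl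
  obtain ⟨x₀, hx₀⟩ := absorb δ (12 * D) hδ (by positivity)
  obtain ⟨N₁, hN₁⟩ : ∃ N₁ : ℕ, ∀ N : ℕ, N₁ ≤ N → max x₀ 3 ≤ Real.log N ^ (2 / (δ / 4)) := by
    have h1 : Filter.Tendsto (fun N : ℕ => Real.log (N : ℝ) ^ (2 / (δ / 4))) Filter.atTop Filter.atTop :=
      (tendsto_rpow_atTop (by positivity)).comp (Real.tendsto_log_atTop.comp tendsto_natCast_atTop_atTop)
    exact Filter.eventually_atTop.1 (h1.eventually_ge_atTop _)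
  refine ⟨κ, 2 / (δ / 4), hκ, by positivity, max N₀ N₁, fun N hN Γ H hH a hper hb M => ?_⟩
  have hNx : ∀ x : ℕ, Real.log N ^ (2 / (δ / 4)) ≤ x → x₀ ≤ x ∧ (3 : ℝ) ≤ x := by
    intro x hx
    have := hN₁ N (le_trans (le_max_right _ _) hN)
    exact ⟨((le_max_left _ _).trans this).trans hx, ((le_max_right _ _).trans this).trans hx⟩
  obtain ⟨Hf, hHf⟩ : ∃ Hf : ℕ → Finset Γ, Hf = fun x => if h : 2 ≤ x then (hH x h).1.toFinset else ∅ := ⟨_, rfl⟩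
  have hHm : ∀ x c, c ∈ Hf x → 2 ≤ x ∧ c ∈ H x := by
    intro x c hc
    rw [hHf] at hc
    by_cases h : 2 ≤ x
    · simp only [h, dif_pos, Set.Finite.mem_toFinset] at hc
      exact ⟨h, hc⟩
    · simp only [h] at hc
      exact absurd hc (by simp)
  obtain ⟨Ex, hEx⟩ : ∃ Ex : Finset ℤ, Ex = (Ico M (M + N)).filter (fun n => ¬ ∀ x : ℕ, Real.log N ^ (2 / (δ / 4)) ≤ x → (x : ℝ) ≤ (N : ℝ) ^ κ →
      ∀ c ∈ H x, ∀ u ∈ U x, ∀ σ : ℝ, |σ| ≤ (x : ℝ) ^ A →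
        ‖∑ p ∈ op x, ((u p * ((a c p n - avg p (a c p)) * Real.log p) : ℝ) : ℂ) * (p : ℂ) ^ (-(σ * Complex.I))‖ ≤ (x : ℝ) ^ (β + 1 / 2 + δ)) := ⟨_, rfl⟩
  have hset : {n : ℤ | M ≤ n ∧ n < M + N ∧ ¬ ∀ x : ℕ, Real.log N ^ (2 / (δ / 4)) ≤ x → (x : ℝ) ≤ (N : ℝ) ^ κ →
      ∀ c ∈ H x, ∀ u ∈ U x, ∀ σ : ℝ, |σ| ≤ (x : ℝ) ^ A →
        ‖∑ p ∈ op x, ((u p * ((a c p n - avg p (a c p)) * Real.log p) : ℝ) : ℂ) * (p : ℂ) ^ (-(σ * Complex.I))‖ ≤ (x : ℝ) ^ (β + 1 / 2 + δ)} =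
      (Ex : Set ℤ) := by
    ext n
    rw [hEx, mem_coe, mem_filter, mem_Ico, and_assoc]
    rfl
  rw [hset, Set.ncard_coe_finset]
  refine HH N (le_trans (le_max_left _ _) hN) (Γ × (ℕ → ℝ)) (fun x => Hf x ×ˢ W x) ?_ ℕ
    (fun x _ => op x) (fun _ p => p) ?_ ?_ (fun x c p n => cen β D (a c.1) x c.2 p n) (fun x _ => 1 + x) ?_ ?_ ?_ ?_ M Ex ?_ ?_
  · intro x hx
    have hx0 : (0 : ℝ) < x := by
      have : (2 : ℝ) ≤ x := by exact_mod_cast hx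
      linarith
    rw [card_product, Nat.cast_mul, Real.rpow_add hx0]
    apply mul_le_mul _ (hW1 x hx) (Nat.cast_nonneg _) (Real.rpow_nonneg hx0.le _)
    have h1 := (hH x hx).2
    rw [Set.ncard_eq_toFinset_card _ (hH x hx).1] at h1
    rw [hHf]
    simp only [hx, dif_pos]
    exact h1
  · intro x c _ p hp
    rw [mem_op] at hp
    exact ⟨hp.2.1.two_le, by rw [pow_one]; exact hp.1⟩
  · intro x c _ p hp p' hp' hne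
    rw [mem_op] at hp hp'
    exact (Nat.coprime_primes hp.2.1 hp'.2.1).2 hne
  · intro x c hc p hp m m' h
    rw [mem_product] at hc
    obtain ⟨hx2, hcH⟩ := hHm x c.1 hc.1
    rw [mem_op] at hp
    unfold cen
    rw [hper x c.1 hcH p hp.2.1 hp.2.2 m m' h]
  · intro x c hc p hp m
    rw [mem_product] at hc
    obtain ⟨hx2, hcH⟩ := hHm x c.1 hc.1
    exact cen_abs β D hβ hD (a c.1) (hb x c.1 hcH) x c.2 (hW2 x c.2 hc.2) p hp m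
  · intro x c hc p hp
    exact cen_mean β D (a c.1) x c.2 p hp
  · intro x c hc
    rw [mem_product] at hc
    obtain ⟨hx2, hcH⟩ := hHm x c.1 hc.1
    have hx0 : (0 : ℝ) ≤ x := Nat.cast_nonneg _
    exact ⟨by linarith, cen_var β D hβ hD (a c.1) (hb x c.1 hcH) x c.2 (hW2 x c.2 hc.2)⟩
  · intro n hn
    rw [hEx, mem_filter, mem_Ico] at hn
    exact hn.1
  · intro n hn
    rw [hEx, mem_filter] at hn
    obtain ⟨-, hn⟩ := hn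
    push Not at hn
    obtain ⟨x, hx1, hx2, c, hc, u, hu, σ, hσ, hbig⟩ := hn
    refine ⟨x, hx1, hx2, ?_⟩
    by_contra hcon
    push Not at hcon
    obtain ⟨hxx, hx3⟩ := hNx x hx1
    have hxn : 2 ≤ x := by
      have : (2 : ℝ) ≤ x := by linarith
      exact_mod_cast this
    have hcf : c ∈ Hf x := by
      rw [hHf]
      simp only [hxn, dif_pos, Set.Finite.mem_toFinset]
      exact hc
    exact absurd hbig (not_lt.2 (finishU A U W hW3 β D δ hβ hD hδ (a c) (hb x c hc) x hx3 n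
      (fun w hw => hcon (c, w) (mem_product.2 ⟨hcf, hw⟩)) (hx₀ x hxx) u hu σ hσ))

end Pool.Agent.X35.GV
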