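import Pool.Agent.X35.GV.Pencil

/-! The law for centered local functions: sums of `(a_p(n) - mean) (log p) p ^ (- i σ)` at all heights, near sequences and in intervals. -/

set_option autoImplicit false

namespace Pool.Agent.X35.GV
open Finset

/-- the normalized centered function -/
noncomputable def cen (β D : ℝ) (a : ℕ → ℤ → ℝ) (x : ℕ) (w : ℕ → ℝ) (p : ℕ) (n : ℤ) : ℝ :=
  (a p n - avg p (a p)) * (w p * Real.log p / (2 * D * (x : ℝ) ^ β * Real.log x))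

section
variable (β D : ℝ) (hβ : 0 ≤ β) (hD : 0 < D) (a : ℕ → ℤ → ℝ)
  (hb : ∀ p : ℕ, p.Prime → p ≠ 2 → ∀ n, |a p n| ≤ D * (p : ℝ) ^ β)
include hb

lemma avg_abs (p : ℕ) (hp : p.Prime) (h2 : p ≠ 2) : |avg p (a p)| ≤ D * (p : ℝ) ^ β := by
  unfold avg
  have hp0 : (0 : ℝ) < p := by exact_mod_cast hp.pos
  rw [abs_div, abs_of_pos hp0, div_le_iff₀ hp0]
  refine (abs_sum_le_sum_abs _ _).trans ?_
  have h : ∀ t ∈ range p, |a p (t : ℤ)| ≤ D * (p : ℝ) ^ β := fun t _ => hb p hp h2 t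
  refine (sum_le_sum h).trans ?_
  rw [sum_const, card_range, nsmul_eq_mul]
  linarith

lemma cen_diff (p : ℕ) (hp : p.Prime) (h2 : p ≠ 2) (n : ℤ) : |a p n - avg p (a p)| ≤ 2 * D * (p : ℝ) ^ β := by
  have h1 := hb p hp h2 n
  have h3 := avg_abs β D a hb p hp h2
  refine (abs_sub _ _).trans ?_
  linarith

include hβ hD in
lemma cen_abs (x : ℕ) (w : ℕ → ℝ) (hw : ∀ p, |w p| ≤ 1) (p : ℕ) (hp : p ∈ op x) (n : ℤ) : |cen β D a x w p n| ≤ 1 := by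
  obtain ⟨q1, q2, q3, q4, q5⟩ := op_log hp
  rw [mem_op] at hp
  have hp0 : (0 : ℝ) < p := by linarith
  have hx0 : (0 : ℝ) < x := by linarith
  have hxb : 0 < (x : ℝ) ^ β := Real.rpow_pos_of_pos hx0 _
  have hpx : (p : ℝ) ^ β ≤ (x : ℝ) ^ β := Real.rpow_le_rpow hp0.le q2 hβ
  unfold cen
  rw [abs_mul, abs_div, abs_mul, abs_of_pos q3, abs_of_pos (by positivity : (0 : ℝ) < 2 * D * (x : ℝ) ^ β * Real.log x), ← mul_div_assoc,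
    div_le_one (by positivity)]
  calc _ ≤ (2 * D * (x : ℝ) ^ β) * (1 * Real.log x) := by
        apply mul_le_mul ((cen_diff β D a hb p hp.2.1 hp.2.2 n).trans (by gcongr)) _ (by positivity) (by positivity)
        exact mul_le_mul (hw p) q4 q3.le (by norm_num)
    _ = _ := by ring

include hβ hD in
lemma cen_var (x : ℕ) (w : ℕ → ℝ) (hw : ∀ p, |w p| ≤ 1) : ∑ p ∈ op x, avg p (fun m => cen β D a x w p m ^ 2) ≤ 1 + x := by
  have hone : ∀ p ∈ op x, avg p (fun m => cen β D a x w p m ^ 2) ≤ 1 := by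
    intro p hp
    have hp' := hp
    rw [mem_op] at hp
    have hp0 : (0 : ℝ) < p := by exact_mod_cast hp.2.1.pos
    unfold avg
    rw [div_le_one hp0]
    have h : ∀ m ∈ range p, cen β D a x w p (m : ℤ) ^ 2 ≤ 1 := by
      intro m _
      rw [← sq_abs]
      exact pow_le_one₀ (abs_nonneg _) (cen_abs β D hβ hD a hb x w hw p hp' _)
    refine (sum_le_sum h).trans ?_
    rw [sum_const, card_range, nsmul_eq_mul, mul_one]
  calc _ ≤ ∑ _p ∈ op x, (1 : ℝ) := sum_le_sum hone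
    _ = ((op x).card : ℝ) := by rw [sum_const, nsmul_eq_mul, mul_one]
    _ ≤ x := op_card x
    _ ≤ 1 + x := by linarith

omit hb in
lemma cen_mean (x : ℕ) (w : ℕ → ℝ) (p : ℕ) (hp : p ∈ op x) : avg p (cen β D a x w p) = 0 := by
  rw [mem_op] at hp
  have hp0 : (0 : ℝ) < p := by exact_mod_cast hp.2.1.pos
  have h1 : ∑ m ∈ range p, a p (m : ℤ) = p * avg p (a p) := by
    unfold avg
    rw [mul_div_cancel₀ _ hp0.ne']
  have h2 : ∑ m ∈ range p, cen β D a x w p (m : ℤ) = 0 := by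
    unfold cen
    rw [← sum_mul, sum_sub_distrib, sum_const, card_range, nsmul_eq_mul, h1, sub_self, zero_mul]
  unfold avg
  rw [h2, zero_div]

end

/-- the constants are absorbed -/
lemma absorb (δ K : ℝ) (hδ : 0 < δ) (hK : 0 ≤ K) : ∃ x₀ : ℝ, ∀ x : ℝ, x₀ ≤ x →
    K * (x : ℝ) ^ (δ / 4) * (1 + Real.log x) ^ 2 ≤ (x : ℝ) ^ δ := by
  have h1 := (isLittleO_log_rpow_atTop (show (0 : ℝ) < δ / 8 by positivity)).bound (show (0 : ℝ) < 1 by norm_num)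
  have h2 : Filter.Tendsto (fun x : ℝ => x ^ (δ / 2)) Filter.atTop Filter.atTop := tendsto_rpow_atTop (by positivity)
  have h3 := h2.eventually_ge_atTop (4 * K)
  obtain ⟨x₀, hx₀⟩ := Filter.eventually_atTop.1 (h1.and (h3.and (Filter.eventually_ge_atTop (1 : ℝ))))
  refine ⟨x₀, fun x hx => ?_⟩
  obtain ⟨h4, h5, h6⟩ := hx₀ x hx
  have hx0 : 0 < x := by linarith
  rw [one_mul, Real.norm_eq_abs, Real.norm_eq_abs, abs_of_nonneg (Real.log_nonneg h6), abs_of_pos (Real.rpow_pos_of_pos hx0 _)] at h4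
  have h7 : x ^ δ = x ^ (δ / 2) * (x ^ (δ / 4) * (x ^ (δ / 8) * x ^ (δ / 8))) := by
    rw [← Real.rpow_add hx0, ← Real.rpow_add hx0, ← Real.rpow_add hx0]
    congr 1
    ring
  rw [h7]
  have h8 : 1 ≤ x ^ (δ / 8) := Real.one_le_rpow h6 (by positivity)
  have h9 : 0 ≤ Real.log x := Real.log_nonneg h6
  have h10 : 0 < x ^ (δ / 4) := Real.rpow_pos_of_pos hx0 _
  have h11 : (1 + Real.log x) ^ 2 ≤ 4 * (x ^ (δ / 8) * x ^ (δ / 8)) := by nlinarith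
  calc K * x ^ (δ / 4) * (1 + Real.log x) ^ 2 ≤ K * x ^ (δ / 4) * (4 * (x ^ (δ / 8) * x ^ (δ / 8))) := by gcongr
    _ = (4 * K) * (x ^ (δ / 4) * (x ^ (δ / 8) * x ^ (δ / 8))) := by ring
    _ ≤ x ^ (δ / 2) * (x ^ (δ / 4) * (x ^ (δ / 8) * x ^ (δ / 8))) := by gcongr

/-- from the weights to the complex sums -/
lemma finish (A : ℝ) (W : ℕ → Finset (ℕ → ℝ))
    (hW3 : ∀ x : ℕ, 2 ≤ x → ∀ (c : ℕ → ℝ) (K S : ℝ), 0 ≤ K → (∀ p ∈ op x, |c p| ≤ K) → (∀ w ∈ W x, |∑ p ∈ op x, w p * c p| ≤ S) →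
      ∀ τ : ℝ, |τ| ≤ (x : ℝ) ^ A → ‖∑ p ∈ op x, (c p : ℂ) * (p : ℂ) ^ (-(τ * Complex.I))‖ ≤ 2 * S + 2 * K)
    (β D δ : ℝ) (hβ : 0 ≤ β) (hD : 0 < D) (hδ : 0 < δ) (a : ℕ → ℤ → ℝ)
    (hb : ∀ p : ℕ, p.Prime → p ≠ 2 → ∀ n, |a p n| ≤ D * (p : ℝ) ^ β) (x : ℕ) (hx : (3 : ℝ) ≤ x) (n : ℤ)
    (hlaw : ∀ w ∈ W x, |∑ p ∈ op x, cen β D a x w p n| ≤ √(1 + (x : ℝ)) * (x : ℝ) ^ (δ / 4))
    (habs : 12 * D * (x : ℝ) ^ (δ / 4) * (1 + Real.log x) ^ 2 ≤ (x : ℝ) ^ δ) (σ : ℝ) (hσ : |σ| ≤ (x : ℝ) ^ A) :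
    ‖∑ p ∈ op x, (((a p n - avg p (a p)) * Real.log p : ℝ) : ℂ) * (p : ℂ) ^ (-(σ * Complex.I))‖ ≤ (x : ℝ) ^ (β + 1 / 2 + δ) := by
  have hx0 : (0 : ℝ) < x := by linarith
  have hxn : 2 ≤ x := by
    have : (2 : ℝ) ≤ x := by linarith
    exact_mod_cast this
  have hl : 0 < Real.log x := Real.log_pos (by linarith)
  have hxb : 0 < (x : ℝ) ^ β := Real.rpow_pos_of_pos hx0 _
  have hS : ∀ w ∈ W x, |∑ p ∈ op x, w p * ((a p n - avg p (a p)) * Real.log p)| ≤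
      (2 * D * (x : ℝ) ^ β * Real.log x) * (√(1 + (x : ℝ)) * (x : ℝ) ^ (δ / 4)) := by
    intro w hw
    have h1 := hlaw w hw
    have h2 : ∑ p ∈ op x, w p * ((a p n - avg p (a p)) * Real.log p) = (2 * D * (x : ℝ) ^ β * Real.log x) * ∑ p ∈ op x, cen β D a x w p n := by
      rw [mul_sum]
      refine sum_congr rfl fun p hp => ?_
      unfold cen
      field_simp
    rw [h2, abs_mul, abs_of_pos (by positivity : (0 : ℝ) < 2 * D * (x : ℝ) ^ β * Real.log x)]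
    exact mul_le_mul_of_nonneg_left h1 (by positivity)
  have hK : ∀ p ∈ op x, |(a p n - avg p (a p)) * Real.log p| ≤ 2 * D * (x : ℝ) ^ β * Real.log x := by
    intro p hp
    obtain ⟨q1, q2, q3, q4, q5⟩ := op_log hp
    rw [mem_op] at hp
    have hp0 : (0 : ℝ) < p := by linarith
    have hpx : (p : ℝ) ^ β ≤ (x : ℝ) ^ β := Real.rpow_le_rpow hp0.le q2 hβ
    rw [abs_mul, abs_of_pos q3]
    exact mul_le_mul ((cen_diff β D a hb p hp.2.1 hp.2.2 n).trans (by gcongr)) q4 q3.le (by positivity)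
  have hfin := hW3 x hxn (fun p => (a p n - avg p (a p)) * Real.log p) _ _ (by positivity) hK hS σ hσ
  refine hfin.trans ?_
  have hsq : √(1 + (x : ℝ)) ≤ 2 * √(x : ℝ) := by
    rw [Real.sqrt_le_left (by positivity), mul_pow, Real.sq_sqrt hx0.le]
    linarith
  have hs1 : 1 ≤ √(x : ℝ) := by
    rw [Real.one_le_sqrt]
    linarith
  have hxd : 1 ≤ (x : ℝ) ^ (δ / 4) := Real.one_le_rpow (by linarith) (by positivity)
  rw [Real.rpow_add hx0, Real.rpow_add hx0, ← Real.sqrt_eq_rpow]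
  calc 2 * ((2 * D * (x : ℝ) ^ β * Real.log x) * (√(1 + x) * (x : ℝ) ^ (δ / 4))) + 2 * (2 * D * (x : ℝ) ^ β * Real.log x)
      ≤ 2 * ((2 * D * (x : ℝ) ^ β * Real.log x) * ((2 * √(x : ℝ)) * (x : ℝ) ^ (δ / 4))) +
        2 * (2 * D * (x : ℝ) ^ β * Real.log x) * (√(x : ℝ) * (x : ℝ) ^ (δ / 4)) := by
        have h1 : 2 * (2 * D * (x : ℝ) ^ β * Real.log x) ≤ 2 * (2 * D * (x : ℝ) ^ β * Real.log x) * (√(x : ℝ) * (x : ℝ) ^ (δ / 4)) :=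
          le_mul_of_one_le_right (by positivity) (one_le_mul_of_one_le_of_one_le hs1 hxd)
        gcongr
    _ = (x : ℝ) ^ β * √(x : ℝ) * (12 * D * (x : ℝ) ^ (δ / 4) * Real.log x) := by ring
    _ ≤ (x : ℝ) ^ β * √(x : ℝ) * (12 * D * (x : ℝ) ^ (δ / 4) * (1 + Real.log x) ^ 2) := by
        have h1 : Real.log x ≤ (1 + Real.log x) ^ 2 := by nlinarith
        gcongr
    _ ≤ (x : ℝ) ^ β * √(x : ℝ) * (x : ℝ) ^ δ := mul_le_mul_of_nonneg_left habs (by positivity)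

/-- **centered law near sequences** -/
theorem centered_seq (δ A β : ℝ) (hδ : 0 < δ) (hA : 0 ≤ A) (hβ : 0 ≤ β) : ∃ κ C : ℝ, 0 < κ ∧ 0 < C ∧
    ∀ (v : ℕ → ℝ) (τ θ : ℝ), (∀ i, 1 ≤ v i) → 0 ≤ τ → θ < 1 → (∀ t : ℝ, τ < t → Summable (fun i => v i ^ (-t))) →
    ∀ (Γ : Type) [Countable Γ] (a : Γ → ℕ → ℤ → ℝ) (D : Γ → ℝ), (∀ c, 0 < D c) →
    (∀ c, ∀ p : ℕ, p.Prime → p ≠ 2 → ∀ m m' : ℤ, m ≡ m' [ZMOD (p : ℕ)] → a c p m = a c p m') →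
    (∀ c, ∀ p : ℕ, p.Prime → p ≠ 2 → ∀ n, |a c p n| ≤ D c * (p : ℝ) ^ β) →
    ∃ E : Set ℝ, dimH E ≤ ENNReal.ofReal ((1 - κ + τ) / (1 - θ)) ∧ ∀ α : ℝ, 0 < α → α ∉ E → ∀ c : Γ, ∃ i₀ : ℕ,
      ∀ i : ℕ, i₀ ≤ i → ∀ n : ℤ, |(|(n : ℝ)|) - α * v i| ≤ v i ^ θ →
        ∀ x : ℕ, Real.log |(n : ℝ)| ^ C ≤ x → (x : ℝ) ≤ |(n : ℝ)| ^ κ → ∀ σ : ℝ, |σ| ≤ (x : ℝ) ^ A →
          ‖∑ p ∈ op x, (((a c p n - avg p (a c p)) * Real.log p : ℝ) : ℂ) * (p : ℂ) ^ (-(σ * Complex.I))‖ ≤ (x : ℝ) ^ (β + 1 / 2 + δ) := by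
  classical
  obtain ⟨W, hW1, hW2, hW3⟩ := heights A hA
  obtain ⟨κ, hκ, hκ1, H⟩ := lawWinF (δ / 4) (A + 6) 1 (by positivity) le_rfl
  refine ⟨κ, 2 / (δ / 4), hκ, by positivity, fun v τ θ hv1 hτ hθ hv Γ _ a D hD hper hb => ?_⟩
  obtain ⟨E, hE1, hE2⟩ := H v τ θ hv1 hτ hθ hv Γ (ℕ → ℝ) (fun _ x => W x) (fun c x hx => hW1 x hx) ℕ
    (fun _ x _ => op x) (fun _ _ p => p)
    (by
      intro c x l _ p hp
      rw [mem_op] at hp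
      exact ⟨hp.2.1.two_le, by rw [pow_one]; exact hp.1⟩)
    (by
      intro c x l _ p hp p' hp' hne
      rw [mem_op] at hp hp'
      exact (Nat.coprime_primes hp.2.1 hp'.2.1).2 hne)
    (fun c x w p n => cen β (D c) (a c) x w p n) (fun _ x _ => 1 + x)
    (by
      intro c x l _ p hp m m' h
      rw [mem_op] at hp
      unfold cen
      rw [hper c p hp.2.1 hp.2.2 m m' h])
    (by
      intro c x l hl p hp m
      exact cen_abs β (D c) hβ (hD c) (a c) (hb c) x l (hW2 x l hl) p hp m)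
    (by
      intro c x l hl p hp
      exact cen_mean β (D c) (a c) x l p hp)
    (by
      intro c x l hl
      have hx0 : (0 : ℝ) ≤ x := Nat.cast_nonneg _
      exact ⟨by linarith, cen_var β (D c) hβ (hD c) (a c) (hb c) x l (hW2 x l hl)⟩)
  refine ⟨E, hE1, fun α hα hαE c => ?_⟩
  obtain ⟨i₁, hi₁⟩ := hE2 α hα hαE c
  obtain ⟨x₀, hx₀⟩ := absorb δ (12 * D c) hδ (by have := hD c; positivity)
  obtain ⟨i₂, hi₂⟩ := log_large hv1 hτ hθ hv α hα (max x₀ 3) (2 / (δ / 4)) (by positivity)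
  refine ⟨max i₁ i₂, fun i hi n hn x hx1 hx2 σ hσ => ?_⟩
  have hlarge := hi₂ i (le_trans (le_max_right _ _) hi) n hn
  have hxx : x₀ ≤ x := ((le_max_left _ _).trans hlarge).trans hx1
  have hx3 : (3 : ℝ) ≤ x := ((le_max_right _ _).trans hlarge).trans hx1
  exact finish A W hW3 β (D c) δ hβ (hD c) hδ (a c) (hb c) x hx3 n
    (fun w hw => hi₁ i (le_trans (le_max_left _ _) hi) n hn x hx1 hx2 w hw) (hx₀ x hxx) σ hσ

/-- **centered law in intervals** -/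
theorem centered_int (δ A β D : ℝ) (hδ : 0 < δ) (hA : 0 ≤ A) (hβ : 0 ≤ β) (hD : 0 < D) : ∃ κ C : ℝ, 0 < κ ∧ 0 < C ∧ ∃ N₀ : ℕ, ∀ N : ℕ, N₀ ≤ N →
    ∀ (Γ : Type) (H : ℕ → Set Γ), (∀ x, 2 ≤ x → (H x).Finite ∧ ((H x).ncard : ℝ) ≤ (x : ℝ) ^ A) →
    ∀ (a : Γ → ℕ → ℤ → ℝ),
    (∀ x, ∀ c ∈ H x, ∀ p : ℕ, p.Prime → p ≠ 2 → ∀ m m' : ℤ, m ≡ m' [ZMOD (p : ℕ)] → a c p m = a c p m') →
    (∀ x, ∀ c ∈ H x, ∀ p : ℕ, p.Prime → p ≠ 2 → ∀ n, |a c p n| ≤ D * (p : ℝ) ^ β) →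
    ∀ M : ℤ, ({n : ℤ | M ≤ n ∧ n < M + N ∧ ¬ ∀ x : ℕ, Real.log N ^ C ≤ x → (x : ℝ) ≤ (N : ℝ) ^ κ → ∀ c ∈ H x, ∀ σ : ℝ, |σ| ≤ (x : ℝ) ^ A →
        ‖∑ p ∈ op x, (((a c p n - avg p (a c p)) * Real.log p : ℝ) : ℂ) * (p : ℂ) ^ (-(σ * Complex.I))‖ ≤ (x : ℝ) ^ (β + 1 / 2 + δ)}.ncard : ℝ) ≤
      (N : ℝ) ^ (1 - κ) := by
  classical
  obtain ⟨W, hW1, hW2, hW3⟩ := heights A hA
  obtain ⟨κ, hκ, hκ1, N₀, HH⟩ := law1F (δ / 4) (A + (A + 6)) 1 (by positivity) le_rfl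
  obtain ⟨x₀, hx₀⟩ := absorb δ (12 * D) hδ (by positivity)
  obtain ⟨N₁, hN₁⟩ : ∃ N₁ : ℕ, ∀ N : ℕ, N₁ ≤ N → max x₀ 3 ≤ Real.log N ^ (2 / (δ / 4)) := by
    have h1 : Filter.Tendsto (fun N : ℕ => Real.log (N : ℝ) ^ (2 / (δ / 4))) Filter.atTop Filter.atTop :=
      (tendsto_rpow_atTop (by positivity)).comp (Real.tendsto_log_atTop.comp tendsto_natCast_atTop_atTop)
    exact Filter.eventually_atTop.1 (h1.eventually_ge_atTop _)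
  refine ⟨κ, 2 / (δ / 4), hκ, by positivity, max N₀ N₁, fun N hN Γ H hH a hper hb M => ?_⟩
  have hNx : ∀ x : ℕ, Real.log N ^ (2 / (δ / 4)) ≤ x → x₀ ≤ x ∧ (3 : ℝ) ≤ x := by
    intro x hx
    have := hN₁ N (le_trans (le_max_right _ _) hN)
    exact ⟨((le_max_left _ _).trans this).trans hx, ((le_max_right _ _).trans this).trans hx⟩
  obtain ⟨Hf, hHf⟩ : ∃ Hf : ℕ → Finset Γ, Hf = fun x => if h : 2 ≤ x then (hH x h).1.toFinset else ∅ := ⟨_, rfl⟩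
  have hHm : ∀ x c, c ∈ Hf x → 2 ≤ x ∧ c ∈ H x := by
    intro x c hc
    rw [hHf] at hc
    by_cases h : 2 ≤ x
    · simp only [h, dif_pos, Set.Finite.mem_toFinset] at hc
      exact ⟨h, hc⟩
    · simp only [h] at hc
      exact absurd hc (by simp)
  obtain ⟨Ex, hEx⟩ : ∃ Ex : Finset ℤ, Ex = (Ico M (M + N)).filter (fun n => ¬ ∀ x : ℕ, Real.log N ^ (2 / (δ / 4)) ≤ x → (x : ℝ) ≤ (N : ℝ) ^ κ →
      ∀ c ∈ H x, ∀ σ : ℝ, |σ| ≤ (x : ℝ) ^ A →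
        ‖∑ p ∈ op x, (((a c p n - avg p (a c p)) * Real.log p : ℝ) : ℂ) * (p : ℂ) ^ (-(σ * Complex.I))‖ ≤ (x : ℝ) ^ (β + 1 / 2 + δ)) := ⟨_, rfl⟩
  have hset : {n : ℤ | M ≤ n ∧ n < M + N ∧ ¬ ∀ x : ℕ, Real.log N ^ (2 / (δ / 4)) ≤ x → (x : ℝ) ≤ (N : ℝ) ^ κ →
      ∀ c ∈ H x, ∀ σ : ℝ, |σ| ≤ (x : ℝ) ^ A →
        ‖∑ p ∈ op x, (((a c p n - avg p (a c p)) * Real.log p : ℝ) : ℂ) * (p : ℂ) ^ (-(σ * Complex.I))‖ ≤ (x : ℝ) ^ (β + 1 / 2 + δ)} =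
      (Ex : Set ℤ) := by
    ext n
    rw [hEx, mem_coe, mem_filter, mem_Ico, and_assoc]
    rfl
  rw [hset, Set.ncard_coe_finset]
  refine HH N (le_trans (le_max_left _ _) hN) (Γ × (ℕ → ℝ)) (fun x => Hf x ×ˢ W x) ?_ ℕ
    (fun x _ => op x) (fun _ p => p) ?_ ?_ (fun x c p n => cen β D (a c.1) x c.2 p n) (fun x _ => 1 + x) ?_ ?_ ?_ ?_ M Ex ?_ ?_
  · intro x hx
    have hx0 : (0 : ℝ) < x := by
      have : (2 : ℝ) ≤ x := by exact_mod_cast hx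
      linarith
    rw [card_product, Nat.cast_mul, Real.rpow_add hx0]
    apply mul_le_mul _ (hW1 x hx) (Nat.cast_nonneg _) (Real.rpow_nonneg hx0.le _)
    have h1 := (hH x hx).2
    rw [Set.ncard_eq_toFinset_card _ (hH x hx).1] at h1
    rw [hHf]
    simp only [hx, dif_pos]
    exact h1
  · intro x c _ p hp
    rw [mem_op] at hp
    exact ⟨hp.2.1.two_le, by rw [pow_one]; exact hp.1⟩
  · intro x c _ p hp p' hp' hne
    rw [mem_op] at hp hp'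
    exact (Nat.coprime_primes hp.2.1 hp'.2.1).2 hne
  · intro x c hc p hp m m' h
    rw [mem_product] at hc
    obtain ⟨hx2, hcH⟩ := hHm x c.1 hc.1
    rw [mem_op] at hp
    unfold cen
    rw [hper x c.1 hcH p hp.2.1 hp.2.2 m m' h]
  · intro x c hc p hp m
    rw [mem_product] at hc
    obtain ⟨hx2, hcH⟩ := hHm x c.1 hc.1
    exact cen_abs β D hβ hD (a c.1) (hb x c.1 hcH) x c.2 (hW2 x c.2 hc.2) p hp m
  · intro x c hc p hp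
    exact cen_mean β D (a c.1) x c.2 p hp
  · intro x c hc
    rw [mem_product] at hc
    obtain ⟨hx2, hcH⟩ := hHm x c.1 hc.1
    have hx0 : (0 : ℝ) ≤ x := Nat.cast_nonneg _
    exact ⟨by linarith, cen_var β D hβ hD (a c.1) (hb x c.1 hcH) x c.2 (hW2 x c.2 hc.2)⟩
  · intro n hn
    rw [hEx, mem_filter, mem_Ico] at hn
    exact hn.1
  · intro n hn
    rw [hEx, mem_filter] at hn
    obtain ⟨-, hn⟩ := hn
    push Not at hn
    obtain ⟨x, hx1, hx2, c, hc, σ, hσ, hbig⟩ := hn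
    refine ⟨x, hx1, hx2, ?_⟩
    by_contra hcon
    push Not at hcon
    obtain ⟨hxx, hx3⟩ := hNx x hx1
    have hxn : 2 ≤ x := by
      have : (2 : ℝ) ≤ x := by linarith
      exact_mod_cast this
    have hcf : c ∈ Hf x := by
      rw [hHf]
      simp only [hxn, dif_pos, Set.Finite.mem_toFinset]
      exact hc
    exact absurd hbig (not_lt.2 (finish A W hW3 β D δ hβ hD hδ (a c) (hb x c hc) x hx3 n
      (fun w hw => hcon (c, w) (mem_product.2 ⟨hcf, hw⟩)) (hx₀ x hxx) σ hσ))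

end Pool.Agent.X35.GV
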