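import Pool.Agent.X35.GV.LawZ
import Pool.Agent.X35.GM.WinZ

/-! The law for the integers of an interval, and for all integers near `α v_i`. -/

set_option autoImplicit false

namespace Pool.Agent.X35.GV
open Finset

open Classical in
/-- the proportion of the residues with a property -/
noncomputable def prob (q : ℕ) (T : ℤ → Prop) : ℝ := (((range q).filter (fun n : ℕ => T n)).card : ℝ) / q

lemma prob_nonneg (q : ℕ) (T : ℤ → Prop) : 0 ≤ prob q T := by unfold prob; positivity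

lemma Prob_one (q : ℕ) (T : ℤ → Prop) : Prob 1 q (fun m => T (m 0)) = prob q T := by
  classical
  unfold Prob prob
  rw [pow_one]
  congr 2
  refine card_bij (fun n _ => n 0) ?_ ?_ ?_
  · intro n hn
    rw [mem_filter, Fintype.mem_piFinset] at hn
    rw [mem_filter]
    exact ⟨hn.1 0, hn.2⟩
  · intro n _ n' _ h
    funext i
    rw [Subsingleton.elim i 0]
    exact h
  · intro n hn
    rw [mem_filter] at hn
    refine ⟨fun _ => n, ?_, rfl⟩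
    rw [mem_filter, Fintype.mem_piFinset]
    exact ⟨fun _ => hn.1, hn.2⟩

open Classical in
/-- the integers of an interval -/
theorem law1 (δ A : ℝ) (B : ℕ) (hδ : 0 < δ) (hB : 1 ≤ B) : ∃ κ : ℝ, 0 < κ ∧ κ ≤ 1 / 2 ∧ ∃ N₀ : ℕ, ∀ N : ℕ, N₀ ≤ N →
    ∀ (Ka : Type) (Λ : ℕ → Finset Ka), (∀ x, 2 ≤ x → ((Λ x).card : ℝ) ≤ (x : ℝ) ^ A) →
    ∀ (ι : Type) (I : ℕ → Ka → Finset ι) (q : Ka → ι → ℕ), (∀ x, ∀ l ∈ Λ x, ∀ a ∈ I x l, 2 ≤ q l a ∧ q l a ≤ x ^ B) →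
    (∀ x, ∀ l ∈ Λ x, ∀ a ∈ I x l, ∀ a' ∈ I x l, a ≠ a' → Nat.Coprime (q l a) (q l a')) →
    ∀ T : Ka → ι → ℤ → Prop, (∀ x, ∀ l ∈ Λ x, ∀ a ∈ I x l, ∀ m m' : ℤ, m ≡ m' [ZMOD (q l a : ℕ)] → (T l a m ↔ T l a m')) →
    ∀ (M : ℤ) (Ex : Finset ℤ), (∀ m ∈ Ex, M ≤ m ∧ m < M + N) →
    (∀ m ∈ Ex, ∃ x : ℕ, Real.log N ^ (2 / δ) ≤ x ∧ (x : ℝ) ≤ (N : ℝ) ^ κ ∧ ∃ l ∈ Λ x,
      √(max 1 (∑ a ∈ I x l, prob (q l a) (T l a))) * (x : ℝ) ^ δ <
      |(((I x l).filter (fun a => T l a m)).card : ℝ) - ∑ a ∈ I x l, prob (q l a) (T l a)|) →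
    (Ex.card : ℝ) ≤ (N : ℝ) ^ (1 - κ) := by
  obtain ⟨κ, hκ, hκ1, N₀, H⟩ := law 1 δ A B hδ hB
  refine ⟨κ, hκ, hκ1, N₀ + 1, fun N hN Ka Λ hΛ ι I q hq hcop T hT M Ex hEx hExb => ?_⟩
  have hN0 : (0 : ℝ) < N := by exact_mod_cast (by omega : 0 < N)
  have hinj : Set.InjOn (fun (m : ℤ) (_ : Fin 1) => m) (Ex : Set ℤ) := by
    intro m _ m' _ h
    exact congrFun h 0
  have h1 := H N (by omega) Ka Λ hΛ ι I q hq hcop (fun l a m => T l a (m 0)) (by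
    intro x l hl a ha m m' h
    exact hT x l hl a ha (m 0) (m' 0) (h 0)) (fun _ => M) (fun _ => N) (fun _ => le_rfl) (Ex.image (fun (m : ℤ) (_ : Fin 1) => m)) (by
    intro m hm i
    rw [mem_image] at hm
    obtain ⟨n, hn, rfl⟩ := hm
    exact hEx n hn) (by
    intro m hm
    rw [mem_image] at hm
    obtain ⟨n, hn, rfl⟩ := hm
    obtain ⟨x, hx1, hx2, l, hl, h⟩ := hExb n hn
    refine ⟨x, hx1, hx2, l, hl, ?_⟩
    simp only [Prob_one]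
    exact h)
  rw [card_image_of_injOn hinj] at h1
  refine h1.trans (le_of_eq ?_)
  rw [prod_const, card_univ, Fintype.card_fin, pow_one, ← Real.rpow_add_one hN0.ne']
  congr 1
  ring

open Classical in
/-- all integers near `± α v_i`, countably many systems of conditions -/
theorem lawWin (δ A : ℝ) (B : ℕ) (hδ : 0 < δ) (hB : 1 ≤ B) : ∃ κ : ℝ, 0 < κ ∧ κ ≤ 1 / 2 ∧
    ∀ (v : ℕ → ℝ) (τ θ : ℝ), (∀ i, 1 ≤ v i) → 0 ≤ τ → θ < 1 → (∀ t : ℝ, τ < t → Summable (fun i => v i ^ (-t))) →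
    ∀ (Γ : Type) [Countable Γ] (Ka : Type) (Λ : Γ → ℕ → Finset Ka), (∀ c x, 2 ≤ x → ((Λ c x).card : ℝ) ≤ (x : ℝ) ^ A) →
    ∀ (ι : Type) (I : Γ → ℕ → Ka → Finset ι) (q : Γ → Ka → ι → ℕ),
    (∀ c x, ∀ l ∈ Λ c x, ∀ a ∈ I c x l, 2 ≤ q c l a ∧ q c l a ≤ x ^ B) →
    (∀ c x, ∀ l ∈ Λ c x, ∀ a ∈ I c x l, ∀ a' ∈ I c x l, a ≠ a' → Nat.Coprime (q c l a) (q c l a')) →
    ∀ T : Γ → Ka → ι → ℤ → Prop,
    (∀ c x, ∀ l ∈ Λ c x, ∀ a ∈ I c x l, ∀ m m' : ℤ, m ≡ m' [ZMOD (q c l a : ℕ)] → (T c l a m ↔ T c l a m')) →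
    ∃ E : Set ℝ, dimH E ≤ ENNReal.ofReal ((1 - κ + τ) / (1 - θ)) ∧ ∀ α : ℝ, 0 < α → α ∉ E → ∀ c : Γ, ∃ i₀ : ℕ,
      ∀ i : ℕ, i₀ ≤ i → ∀ n : ℤ, |(|(n : ℝ)|) - α * v i| ≤ v i ^ θ →
        ∀ x : ℕ, Real.log |(n : ℝ)| ^ (2 / δ) ≤ x → (x : ℝ) ≤ |(n : ℝ)| ^ κ → ∀ l ∈ Λ c x,
          |(((I c x l).filter (fun a => T c l a n)).card : ℝ) - ∑ a ∈ I c x l, prob (q c l a) (T c l a)| ≤
            √(max 1 (∑ a ∈ I c x l, prob (q c l a) (T c l a))) * (x : ℝ) ^ δ := by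
  obtain ⟨κ, hκ, hκ1, N₀, H⟩ := law1 δ A B hδ hB
  refine ⟨κ / 2, by linarith, by linarith, fun v τ θ hv1 hτ hθ hv Γ _ Ka Λ hΛ ι I q hq hcop T hT => ?_⟩
  obtain ⟨S, hS⟩ : ∃ S : Γ → Set ℤ, S = fun c => {n : ℤ | ∃ x : ℕ, Real.log |(n : ℝ)| ^ (2 / δ) ≤ x ∧
      (x : ℝ) ≤ |(n : ℝ)| ^ (κ / 2) ∧ ∃ l ∈ Λ c x,
      √(max 1 (∑ a ∈ I c x l, prob (q c l a) (T c l a))) * (x : ℝ) ^ δ <
      |(((I c x l).filter (fun a => T c l a n)).card : ℝ) - ∑ a ∈ I c x l, prob (q c l a) (T c l a)|} := ⟨_, rfl⟩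
  have hsh : ∀ c : Γ, ∃ C : ℝ, ∃ i₁ : ℕ, ∀ i : ℕ, i₁ ≤ i →
      ((Pool.Agent.X35.GM.shell (S c) i).ncard : ℝ) ≤ C * ((2 : ℝ) ^ i) ^ (1 - κ / 2) := by
    intro c
    refine ⟨2, N₀ + 1, fun i hi => ?_⟩
    obtain ⟨N, hN⟩ : ∃ N : ℕ, N = 2 ^ i := ⟨_, rfl⟩
    have hNN : N₀ ≤ N := by
      have h1 : i < 2 ^ i := Nat.lt_two_pow_self
      omega
    have hN2 : 2 ≤ N := by
      rw [hN]
      calc 2 = 2 ^ 1 := by norm_num
        _ ≤ 2 ^ i := Nat.pow_le_pow_right (by norm_num) (by omega)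
    have hNr : ((2 : ℝ) ^ i) = N := by rw [hN]; push_cast; rfl
    have hN2r : (2 : ℝ) ≤ N := by exact_mod_cast hN2
    -- for members of the shell the conditions of the law hold
    have hcond : ∀ n ∈ Pool.Agent.X35.GM.shell (S c) i, ∃ x : ℕ, Real.log N ^ (2 / δ) ≤ x ∧ (x : ℝ) ≤ (N : ℝ) ^ κ ∧ ∃ l ∈ Λ c x,
        √(max 1 (∑ a ∈ I c x l, prob (q c l a) (T c l a))) * (x : ℝ) ^ δ <
        |(((I c x l).filter (fun a => T c l a n)).card : ℝ) - ∑ a ∈ I c x l, prob (q c l a) (T c l a)| := by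
      rintro n ⟨hn, hn1, hn2⟩
      rw [hS] at hn
      obtain ⟨x, hx1, hx2, l, hl, h⟩ := hn
      have h1 : (N : ℝ) ≤ |(n : ℝ)| := by rw [← hNr]; exact_mod_cast hn1
      have h2 : |(n : ℝ)| ≤ 2 * N := by
        have h3 : |(n : ℝ)| < 2 ^ (i + 1) := by exact_mod_cast hn2
        rw [pow_succ, hNr] at h3
        linarith
      refine ⟨x, le_trans ?_ hx1, hx2.trans ?_, l, hl, h⟩
      · exact Real.rpow_le_rpow (Real.log_nonneg (by linarith)) (Real.log_le_log (by linarith) h1) (by positivity)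
      · calc |(n : ℝ)| ^ (κ / 2) ≤ ((N : ℝ) ^ (2 : ℝ)) ^ (κ / 2) := by
              apply Real.rpow_le_rpow (abs_nonneg _) _ (by linarith)
              rw [Real.rpow_two]
              nlinarith
          _ = (N : ℝ) ^ κ := by
              rw [← Real.rpow_mul (by positivity)]
              congr 1
              ring
    have hfin : (Pool.Agent.X35.GM.shell (S c) i).Finite := by
      refine (Set.finite_Icc (-(2 ^ (i + 1)) : ℤ) (2 ^ (i + 1))).subset ?_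
      rintro n ⟨-, -, hn2⟩
      exact abs_le.1 hn2.le
    obtain ⟨P, hP⟩ : ∃ P : Finset ℤ, P = hfin.toFinset.filter (fun n => 0 < n) := ⟨_, rfl⟩
    obtain ⟨Q, hQ⟩ : ∃ Q : Finset ℤ, Q = hfin.toFinset.filter (fun n => ¬ 0 < n) := ⟨_, rfl⟩
    have hP1 : (P.card : ℝ) ≤ (N : ℝ) ^ (1 - κ) := by
      refine H N hNN Ka (Λ c) (hΛ c) ι (I c) (q c) (hq c) (hcop c) (T c) (hT c) N P ?_ ?_
      · intro m hm
        rw [hP, mem_filter, Set.Finite.mem_toFinset] at hm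
        obtain ⟨⟨-, h1, h2⟩, h3⟩ := hm
        rw [abs_of_pos h3] at h1 h2
        rw [pow_succ] at h2
        have h4 : ((2 : ℤ) ^ i) = (N : ℤ) := by rw [hN]; push_cast; rfl
        rw [h4] at h1 h2
        constructor <;> linarith
      · intro m hm
        rw [hP, mem_filter, Set.Finite.mem_toFinset] at hm
        exact hcond m hm.1
    have hQ1 : (Q.card : ℝ) ≤ (N : ℝ) ^ (1 - κ) := by
      refine H N hNN Ka (Λ c) (hΛ c) ι (I c) (q c) (hq c) (hcop c) (T c) (hT c) (-(2 * N) + 1) Q ?_ ?_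
      · intro m hm
        rw [hQ, mem_filter, Set.Finite.mem_toFinset] at hm
        obtain ⟨⟨-, h1, h2⟩, h3⟩ := hm
        push Not at h3
        rw [abs_of_nonpos h3] at h1 h2
        rw [pow_succ] at h2
        have h4 : ((2 : ℤ) ^ i) = (N : ℤ) := by rw [hN]; push_cast; rfl
        rw [h4] at h1 h2
        constructor <;> linarith
      · intro m hm
        rw [hQ, mem_filter, Set.Finite.mem_toFinset] at hm
        exact hcond m hm.1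
    have hc : (Pool.Agent.X35.GM.shell (S c) i).ncard = P.card + Q.card := by
      rw [Set.ncard_eq_toFinset_card _ hfin, hP, hQ, card_filter_add_card_filter_not]
    rw [hc, hNr]
    push_cast
    have h5 : (N : ℝ) ^ (1 - κ) ≤ (N : ℝ) ^ (1 - κ / 2) := Real.rpow_le_rpow_of_exponent_le (by linarith) (by linarith)
    linarith
  obtain ⟨E, hE1, hE2⟩ := Pool.Agent.X35.GM.win_many S hv1 hτ hv (by linarith) hθ hsh
  refine ⟨E, hE1, fun α hα hαE c => ?_⟩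
  obtain ⟨i₀, hi₀⟩ := hE2 α hα hαE c
  refine ⟨i₀, fun i hi n hn x hx1 hx2 l hl => ?_⟩
  by_contra hcon
  push Not at hcon
  refine absurd (hi₀ i hi n ?_) (not_lt.2 hn)
  rw [hS]
  exact ⟨x, hx1, hx2, l, hl, hcon⟩

end Pool.Agent.X35.GV
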