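import Pool.Agent.X35.GV.CenteredU

/-! Partial summation and Euler products. -/

set_option autoImplicit false

namespace Pool.Agent.X35.GV
open Finset

lemma rpow_step (b : ℝ) (hb : 0 ≤ b) (t : ℝ) (ht : 1 ≤ t) : t ^ (-b) - (t + 1) ^ (-b) ≤ b * t ^ (-b - 1) := by
  have ht0 : 0 < t := by linarith
  have h1 : (t + 1) ^ (-b) = t ^ (-b) * (1 + 1 / t) ^ (-b) := by
    rw [← Real.mul_rpow ht0.le (by positivity)]
    congr 1
    field_simp
  have h2 : 1 - b / t ≤ (1 + 1 / t) ^ (-b) := by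
    rw [Real.rpow_def_of_pos (by positivity)]
    have h3 := Real.add_one_le_exp (Real.log (1 + 1 / t) * -b)
    have h4 : Real.log (1 + 1 / t) ≤ 1 / t := by
      have := Real.log_le_sub_one_of_pos (show (0 : ℝ) < 1 + 1 / t by positivity)
      linarith
    have h5 : Real.log (1 + 1 / t) * b ≤ 1 / t * b := mul_le_mul_of_nonneg_right h4 hb
    have h6 : 1 / t * b = b / t := by ring
    linarith
  have h3 : t ^ (-b - 1) = t ^ (-b) * (1 / t) := by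
    rw [Real.rpow_sub ht0, Real.rpow_one]
    ring
  rw [h1, h3]
  have h4 : 0 < t ^ (-b) := Real.rpow_pos_of_pos ht0 _
  have h5 : t ^ (-b) * (1 - b / t) ≤ t ^ (-b) * (1 + 1 / t) ^ (-b) := mul_le_mul_of_nonneg_left h2 h4.le
  have h6 : b * (t ^ (-b) * (1 / t)) = t ^ (-b) * (b / t) := by ring
  rw [h6]
  linarith

lemma rpow_back (ε : ℝ) (hε : 0 ≤ ε) (t : ℝ) (ht : 2 ≤ t) : ε * t ^ (-1 - ε) ≤ (t - 1) ^ (-ε) - t ^ (-ε) := by
  have ht0 : 0 < t := by linarith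
  have h0 : 0 < 1 - 1 / t := by
    rw [sub_pos, div_lt_one ht0]
    linarith
  have h1 : (t - 1) ^ (-ε) = t ^ (-ε) * (1 - 1 / t) ^ (-ε) := by
    rw [← Real.mul_rpow ht0.le h0.le]
    congr 1
    field_simp
  have h2 : 1 + ε / t ≤ (1 - 1 / t) ^ (-ε) := by
    rw [Real.rpow_def_of_pos h0]
    have h3 := Real.add_one_le_exp (Real.log (1 - 1 / t) * -ε)
    have h4 : Real.log (1 - 1 / t) ≤ -(1 / t) := by
      have := Real.log_le_sub_one_of_pos h0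
      linarith
    have h5 : Real.log (1 - 1 / t) * ε ≤ -(1 / t) * ε := mul_le_mul_of_nonneg_right h4 hε
    have h6 : 1 / t * ε = ε / t := by ring
    linarith
  have h3 : t ^ (-1 - ε) = t ^ (-ε) * (1 / t) := by
    rw [show -1 - ε = -ε - 1 by ring, Real.rpow_sub ht0, Real.rpow_one]
    ring
  rw [h1, h3]
  have h4 : 0 < t ^ (-ε) := Real.rpow_pos_of_pos ht0 _
  have h5 : t ^ (-ε) * (1 + ε / t) ≤ t ^ (-ε) * (1 - 1 / t) ^ (-ε) := mul_le_mul_of_nonneg_left h2 h4.le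
  have h6 : ε * (t ^ (-ε) * (1 / t)) = t ^ (-ε) * (ε / t) := by ring
  rw [h6]
  linarith

/-- the tail of `∑ k ^ (- 1 - ε)` -/
lemma tail (ε : ℝ) (hε : 0 < ε) (y x : ℕ) (hy : 1 ≤ y) (hyx : y ≤ x) :
    ∑ k ∈ Ioc y x, (k : ℝ) ^ (-1 - ε) ≤ (1 / ε) * ((y : ℝ) ^ (-ε) - (x : ℝ) ^ (-ε)) := by
  induction x, hyx using Nat.le_induction with
  | base => simp
  | succ x hx ih =>
    rw [sum_Ioc_succ_top (by omega)]
    have h1 := rpow_back ε hε.le ((x + 1 : ℕ) : ℝ) (by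
      have : (1 : ℝ) ≤ x := by exact_mod_cast (by omega : 1 ≤ x)
      push_cast
      linarith)
    have h2 : (((x + 1 : ℕ) : ℝ) - 1) = x := by push_cast; ring
    rw [h2] at h1
    have h3 : ((x + 1 : ℕ) : ℝ) ^ (-1 - ε) ≤ (1 / ε) * ((x : ℝ) ^ (-ε) - ((x + 1 : ℕ) : ℝ) ^ (-ε)) := by
      rw [one_div, ← div_eq_inv_mul, le_div_iff₀ hε]
      linarith
    calc _ ≤ (1 / ε) * ((y : ℝ) ^ (-ε) - (x : ℝ) ^ (-ε)) + (1 / ε) * ((x : ℝ) ^ (-ε) - ((x + 1 : ℕ) : ℝ) ^ (-ε)) := add_le_add ih h3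
      _ = _ := by ring

/-- **partial summation** -/
lemma abel (c : ℕ → ℂ) (β b : ℝ) (hβ : 0 ≤ β) (hb : β < b) (y x : ℕ) (hy : 2 ≤ y) (hyx : y ≤ x)
    (hS : ∀ m : ℕ, y ≤ m → m ≤ x → ‖∑ k ∈ range (m + 1), c k‖ ≤ (m : ℝ) ^ β) :
    ‖∑ k ∈ Ioc y x, c k * ((k : ℝ) ^ (-b) : ℝ)‖ ≤ (2 + 2 * b / (b - β)) * ((y : ℝ) - 1) ^ (-(b - β)) := by
  obtain ⟨ε, hε⟩ : ∃ ε : ℝ, ε = b - β := ⟨_, rfl⟩
  have hε0 : 0 < ε := by linarith
  have hb0 : 0 < b := by linarith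
  have hyr : (2 : ℝ) ≤ y := by exact_mod_cast hy
  have key : ∀ x : ℕ, y ≤ x → (∀ m : ℕ, y ≤ m → m ≤ x → ‖∑ k ∈ range (m + 1), c k‖ ≤ (m : ℝ) ^ β) →
      ‖∑ k ∈ Ioc y x, c k * ((k : ℝ) ^ (-b) : ℝ) - (∑ k ∈ range (x + 1), c k) * ((x : ℝ) ^ (-b) : ℝ)‖ ≤
        (y : ℝ) ^ (-ε) + (b / ε) * (((y : ℝ) - 1) ^ (-ε) - ((x : ℝ) - 1) ^ (-ε)) := by
    intro x hx
    induction x, hx using Nat.le_induction with
    | base =>
      intro hS
      rw [Ioc_self, sum_empty, zero_sub, norm_neg, norm_mul, Complex.norm_real, Real.norm_eq_abs, abs_of_nonneg (by positivity), sub_self,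
        mul_zero, add_zero]
      have h1 := hS y le_rfl le_rfl
      calc _ ≤ (y : ℝ) ^ β * (y : ℝ) ^ (-b) := mul_le_mul_of_nonneg_right h1 (by positivity)
        _ = (y : ℝ) ^ (-ε) := by
            rw [← Real.rpow_add (by linarith)]
            congr 1
            rw [hε]
            ring
    | succ x hx ih =>
      intro hS
      have hxr : (2 : ℝ) ≤ x := by exact_mod_cast (by omega : 2 ≤ x)
      have ih' := ih (fun m h1 h2 => hS m h1 (by omega))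
      rw [sum_Ioc_succ_top (by omega), sum_range_succ _ (x + 1)]
      have h1 : ∑ k ∈ Ioc y x, c k * ((k : ℝ) ^ (-b) : ℝ) + c (x + 1) * ((((x + 1 : ℕ) : ℝ) ^ (-b) : ℝ) : ℂ) -
          (∑ k ∈ range (x + 1), c k + c (x + 1)) * ((((x + 1 : ℕ) : ℝ) ^ (-b) : ℝ) : ℂ) =
          (∑ k ∈ Ioc y x, c k * ((k : ℝ) ^ (-b) : ℝ) - (∑ k ∈ range (x + 1), c k) * ((x : ℝ) ^ (-b) : ℝ)) +
          (∑ k ∈ range (x + 1), c k) * ((((x : ℝ) ^ (-b) - ((x + 1 : ℕ) : ℝ) ^ (-b) : ℝ)) : ℂ) := by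
        push_cast
        ring
      rw [h1]
      refine (norm_add_le _ _).trans ?_
      have h2 : ‖(∑ k ∈ range (x + 1), c k) * ((((x : ℝ) ^ (-b) - ((x + 1 : ℕ) : ℝ) ^ (-b) : ℝ)) : ℂ)‖ ≤
          (b / ε) * (((x : ℝ) - 1) ^ (-ε) - (((x + 1 : ℕ) : ℝ) - 1) ^ (-ε)) := by
        have h3 := rpow_step b (by linarith) (x : ℝ) (by linarith)
        have h4 := rpow_back ε hε0.le (x : ℝ) hxr
        have h5 : ((x + 1 : ℕ) : ℝ) = (x : ℝ) + 1 := by push_cast; ring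
        have h6 : 0 ≤ (x : ℝ) ^ (-b) - ((x : ℝ) + 1) ^ (-b) := by
          have := Real.rpow_le_rpow_of_nonpos (by linarith : (0 : ℝ) < x) (by linarith : (x : ℝ) ≤ x + 1) (by linarith : -b ≤ 0)
          linarith
        rw [h5, norm_mul, Complex.norm_real, Real.norm_eq_abs, abs_of_nonneg h6, add_sub_cancel_right]
        have h7 := hS x hx (by omega)
        calc _ ≤ (x : ℝ) ^ β * (b * (x : ℝ) ^ (-b - 1)) := mul_le_mul h7 h3 h6 (by positivity)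
          _ = b * (x : ℝ) ^ (-1 - ε) := by
              have : (x : ℝ) ^ (-1 - ε) = (x : ℝ) ^ β * (x : ℝ) ^ (-b - 1) := by
                rw [← Real.rpow_add (by linarith)]
                congr 1
                rw [hε]
                ring
              rw [this]
              ring
          _ = (b / ε) * (ε * (x : ℝ) ^ (-1 - ε)) := by field_simp
          _ ≤ (b / ε) * (((x : ℝ) - 1) ^ (-ε) - (x : ℝ) ^ (-ε)) := mul_le_mul_of_nonneg_left h4 (by positivity)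
      calc _ ≤ ((y : ℝ) ^ (-ε) + (b / ε) * (((y : ℝ) - 1) ^ (-ε) - ((x : ℝ) - 1) ^ (-ε))) +
          (b / ε) * (((x : ℝ) - 1) ^ (-ε) - (((x + 1 : ℕ) : ℝ) - 1) ^ (-ε)) := add_le_add ih' h2
        _ = _ := by ring
  have h1 := key x hyx hS
  have hxr : (2 : ℝ) ≤ x := by exact_mod_cast (by omega : 2 ≤ x)
  have h2 : ‖(∑ k ∈ range (x + 1), c k) * ((x : ℝ) ^ (-b) : ℝ)‖ ≤ ((y : ℝ) - 1) ^ (-ε) := by
    rw [norm_mul, Complex.norm_real, Real.norm_eq_abs, abs_of_nonneg (by positivity)]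
    calc _ ≤ (x : ℝ) ^ β * (x : ℝ) ^ (-b) := mul_le_mul_of_nonneg_right (hS x hyx le_rfl) (by positivity)
      _ = (x : ℝ) ^ (-ε) := by
          rw [← Real.rpow_add (by linarith)]
          congr 1
          rw [hε]
          ring
      _ ≤ ((y : ℝ) - 1) ^ (-ε) := by
          apply Real.rpow_le_rpow_of_nonpos (by linarith) _ (by linarith)
          have : (y : ℝ) ≤ x := by exact_mod_cast hyx
          linarith
  have h3 : (y : ℝ) ^ (-ε) ≤ ((y : ℝ) - 1) ^ (-ε) := Real.rpow_le_rpow_of_nonpos (by linarith) (by linarith) (by linarith)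
  have h4 : 0 ≤ ((x : ℝ) - 1) ^ (-ε) := Real.rpow_nonneg (by linarith) _
  have h5 : 0 < ((y : ℝ) - 1) ^ (-ε) := Real.rpow_pos_of_pos (by linarith) _
  have h6 : 0 < b / ε := by
    have : 0 < b := by linarith
    positivity
  rw [← hε]
  have h7 : ∑ k ∈ Ioc y x, c k * ((k : ℝ) ^ (-b) : ℝ) = (∑ k ∈ Ioc y x, c k * ((k : ℝ) ^ (-b) : ℝ) -
      (∑ k ∈ range (x + 1), c k) * ((x : ℝ) ^ (-b) : ℝ)) + (∑ k ∈ range (x + 1), c k) * ((x : ℝ) ^ (-b) : ℝ) := by ring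
  rw [h7]
  refine (norm_add_le _ _).trans ?_
  have h8 : (b / ε) * (((y : ℝ) - 1) ^ (-ε) - ((x : ℝ) - 1) ^ (-ε)) ≤ (b / ε) * ((y : ℝ) - 1) ^ (-ε) :=
    mul_le_mul_of_nonneg_left (by linarith) h6.le
  have h9 : (2 + 2 * b / ε) * ((y : ℝ) - 1) ^ (-ε) = 2 * ((y : ℝ) - 1) ^ (-ε) + 2 * ((b / ε) * ((y : ℝ) - 1) ^ (-ε)) := by ring
  rw [h9]
  have h10 : 0 < (b / ε) * ((y : ℝ) - 1) ^ (-ε) := by positivity
  linarith

/-- **products near one** -/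
lemma prod_near (P : Finset ℕ) (z : ℕ → ℂ) (η : ℝ) (hη : η ≤ 1 / 4) (h1 : ‖∑ p ∈ P, z p‖ ≤ η) (h2 : ∑ p ∈ P, ‖z p‖ ^ 2 ≤ η)
    (h3 : ∀ p ∈ P, ‖z p‖ ≤ 1 / 2) : ‖∏ p ∈ P, (1 - z p)⁻¹ - 1‖ ≤ 4 * η := by
  have hne : ∀ p ∈ P, (1 - z p) ≠ 0 := by
    intro p hp h
    have h4 : z p = 1 := by
      rw [sub_eq_zero] at h
      exact h.symm
    have := h3 p hp
    rw [h4, norm_one] at this
    linarith
  have hlog : ∀ p ∈ P, ‖-Complex.log (1 - z p) - z p‖ ≤ ‖z p‖ ^ 2 := by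
    intro p hp
    have h4 := h3 p hp
    have h5 := Complex.norm_log_one_add_sub_self_le (z := -z p) (by rw [norm_neg]; linarith)
    rw [norm_neg] at h5
    have h6 : -Complex.log (1 - z p) - z p = -(Complex.log (1 + -z p) - -z p) := by ring
    rw [h6, norm_neg]
    refine h5.trans ?_
    have h7 : (1 - ‖z p‖)⁻¹ ≤ 2 := by
      rw [inv_le_comm₀ (by linarith) (by norm_num)]
      linarith
    have h8 : 0 ≤ ‖z p‖ ^ 2 := by positivity
    calc ‖z p‖ ^ 2 * (1 - ‖z p‖)⁻¹ / 2 ≤ ‖z p‖ ^ 2 * 2 / 2 := by gcongr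
      _ = ‖z p‖ ^ 2 := by ring
  have hprod : ∏ p ∈ P, (1 - z p)⁻¹ = Complex.exp (∑ p ∈ P, -Complex.log (1 - z p)) := by
    rw [Complex.exp_sum]
    refine prod_congr rfl fun p hp => ?_
    rw [Complex.exp_neg, Complex.exp_log (hne p hp)]
  have hw : ‖∑ p ∈ P, -Complex.log (1 - z p)‖ ≤ 2 * η := by
    have h4 : ∑ p ∈ P, -Complex.log (1 - z p) = ∑ p ∈ P, z p + ∑ p ∈ P, (-Complex.log (1 - z p) - z p) := by
      rw [← sum_add_distrib]
      exact sum_congr rfl fun p _ => by ring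
    rw [h4]
    refine (norm_add_le _ _).trans ?_
    have h5 : ‖∑ p ∈ P, (-Complex.log (1 - z p) - z p)‖ ≤ η := (norm_sum_le _ _).trans ((sum_le_sum hlog).trans h2)
    linarith
  rw [hprod]
  refine (Complex.norm_exp_sub_one_le (by linarith)).trans ?_
  linarith

end Pool.Agent.X35.GV
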