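import Pool.Agent.X35.GV.Pencil
import Pool.Agent.X35.GV.Euler

/-! The traces of Frobenius of the members of the pencils `y² = f(x) - n q(x)`. -/

set_option autoImplicit false

namespace Pool.Agent.X35.GV
open Finset Polynomial

/-- the trace of Frobenius of `y² = f(x) - n q(x)` -/
noncomputable def ptr (f q : ℤ[X]) (n : ℤ) (p : ℕ) : ℤ :=
  p - Nat.card {P : ZMod p × ZMod p // P.2 ^ 2 = ((f - C n * q).map (Int.castRingHom (ZMod p))).eval P.1}

/-- a polynomial in one variable as one of `MvPolynomial (Fin 1)` -/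
noncomputable def up (f : ℤ[X]) : MvPolynomial (Fin 1) ℤ := Polynomial.aeval (MvPolynomial.X 0) f

lemma ev_up (p : ℕ) (f : ℤ[X]) (t : Fin 1 → ZMod p) : ev p (up f) t = (f.map (Int.castRingHom (ZMod p))).eval (t 0) := by
  unfold ev up
  have h1 : (MvPolynomial.eval₂Hom (Int.castRingHom (ZMod p)) t) (aeval (MvPolynomial.X 0) f) =
      (f.map (Int.castRingHom (ZMod p))).eval (t 0) := by
    rw [Polynomial.aeval_def, Polynomial.hom_eval₂, Polynomial.eval_map]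
    congr 1
    · exact RingHom.ext_int _ _
    · simp
  exact h1

lemma up_indep (f q : ℤ[X]) (h : ∀ a b : ℤ, C a * f = C b * q → a = 0 ∧ b = 0) (a b : ℤ)
    (hab : MvPolynomial.C a * up f = MvPolynomial.C b * up q) : a = 0 ∧ b = 0 := by
  apply h
  have h1 := congrArg (MvPolynomial.eval₂Hom (C : ℤ →+* ℤ[X]) (fun _ : Fin 1 => (X : ℤ[X]))) hab
  have h2 : ∀ g : ℤ[X], MvPolynomial.eval₂Hom (C : ℤ →+* ℤ[X]) (fun _ : Fin 1 => (X : ℤ[X])) (up g) = g := by
    intro g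
    unfold up
    rw [Polynomial.aeval_def, Polynomial.hom_eval₂]
    have e : ((MvPolynomial.eval₂Hom (C : ℤ →+* ℤ[X]) (fun _ : Fin 1 => (X : ℤ[X]))).comp (algebraMap ℤ (MvPolynomial (Fin 1) ℤ))) = C :=
      RingHom.ext_int _ _
    rw [e]
    simp
  rw [map_mul, map_mul, h2, h2] at h1
  simpa using h1

lemma indep_of_monic (f q : ℤ[X]) (hd : q.natDegree < f.natDegree) (hq : q ≠ 0) (a b : ℤ)
    (hab : Polynomial.C a * f = Polynomial.C b * q) : a = 0 ∧ b = 0 := by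
  by_cases ha : a = 0
  · subst ha
    refine ⟨rfl, ?_⟩
    rw [C_0, zero_mul] at hab
    rcases mul_eq_zero.1 hab.symm with h | h
    · exact C_eq_zero.1 h
    · exact absurd h hq
  · exfalso
    have h1 : (Polynomial.C a * f).natDegree = f.natDegree := natDegree_C_mul ha
    have h3 : (Polynomial.C b * q).natDegree ≤ q.natDegree := natDegree_C_mul_le _ _
    rw [hab] at h1
    omega

lemma ptr_sum (f q : ℤ[X]) (n : ℤ) (p : ℕ) [hF : Fact p.Prime] (h2 : p ≠ 2) :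
    (ptr f q n p : ℝ) = -∑ x : ZMod p, (Pool.Agent.H304R2.EC.Pts.qc p (((f - C n * q).map (Int.castRingHom (ZMod p))).eval x) : ℝ) := by
  have hc : ringChar (ZMod p) ≠ 2 := by
    rw [ZMod.ringChar_zmod_n]
    exact h2
  have h3 := Pool.Agent.H126T.card_aff hc ((f - C n * q).map (Int.castRingHom (ZMod p))) (1 : ZMod p) one_ne_zero
  simp only [one_mul, map_one] at h3
  unfold ptr
  rw [h3, ZMod.card]
  push_cast
  ring

lemma ptr_tot (f q : ℤ[X]) (n : ℤ) (p : ℕ) (hp : p.Prime) (h2 : p ≠ 2) (w : ℕ → ℝ) :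
    tot p (up f) (up q) (fun p _ => w p * p) n = -(w p * ptr f q n p) := by
  classical
  have hF := Fact.mk hp
  have hp0 : (0 : ℝ) < p := by exact_mod_cast hp.pos
  rw [tot_eq p hp, ptr_sum f q n p h2]
  have h5 : ∑ t : Fin 1 → ZMod p, (Pool.Agent.H304R2.EC.Pts.qc p (ev p (up f) t - (n : ZMod p) * ev p (up q) t) : ℝ) * (w p * p) =
      (∑ x : ZMod p, (Pool.Agent.H304R2.EC.Pts.qc p (((f - C n * q).map (Int.castRingHom (ZMod p))).eval x) : ℝ)) * (w p * p) := by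
    rw [sum_mul]
    refine Fintype.sum_equiv (Equiv.funUnique (Fin 1) (ZMod p)) _ _ fun t => ?_
    rw [ev_up, ev_up]
    congr 3
    simp
  rw [h5, pow_one]
  field_simp

lemma ptr_bound (f q : ℤ[X]) (hf : f.Monic) (ho : Odd f.natDegree) (hd : q.natDegree < f.natDegree) (n : ℤ) (p : ℕ) (hp : p.Prime)
    (h2 : p ≠ 2) : |(ptr f q n p : ℝ)| ≤ f.natDegree * √(p : ℝ) := by
  have hF := Fact.mk hp
  have h3 : ringChar (ZMod p) ≠ 2 := by
    rw [ZMod.ringChar_zmod_n]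
    exact h2
  have hdn : (C n * q).natDegree < f.natDegree := lt_of_le_of_lt (natDegree_C_mul_le _ _) hd
  have hmm : (f - C n * q).Monic := by
    apply hf.sub_of_left
    exact degree_lt_degree hdn
  have hnd : (f - C n * q).natDegree = f.natDegree := natDegree_sub_eq_left_of_natDegree_lt hdn
  obtain ⟨g, hg⟩ : ∃ g : Polynomial (ZMod p), g = (f - C n * q).map (Int.castRingHom (ZMod p)) := ⟨_, rfl⟩
  have hgd : g.natDegree = f.natDegree := by
    rw [hg, hmm.natDegree_map, hnd]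
  have h5 := Pool.Agent.H341R2.Sharp.weil_sharp h3 g (by rw [hgd]; exact ho.pos) (by
    intro c h' hgh
    by_cases hc : c = 0
    · rw [hc] at hgh
      simp at hgh
      rw [hgh, Polynomial.natDegree_zero] at hgd
      have := ho.pos
      omega
    · have h5 : g.natDegree = 2 * h'.natDegree := by
        rw [hgh, Polynomial.natDegree_C_mul hc, Polynomial.natDegree_pow]
      rw [hgd] at h5
      rw [h5] at ho
      exact (Nat.not_odd_iff_even.2 (even_two_mul _)) ho)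
  rw [hgd, ZMod.card] at h5
  rw [ptr_sum f q n p h2, abs_neg, ← hg]
  refine h5.trans ?_
  have h6 : 0 ≤ Real.sqrt (p : ℝ) := Real.sqrt_nonneg _
  nlinarith

lemma ptr_bound_sharp (f q : ℤ[X]) (hf : f.Monic) (ho : Odd f.natDegree) (hd : q.natDegree < f.natDegree) (n : ℤ) (p : ℕ) (hp : p.Prime)
    (h2 : p ≠ 2) : |(ptr f q n p : ℝ)| ≤ (f.natDegree - 1) * √(p : ℝ) := by
  have hF := Fact.mk hp
  have h3 : ringChar (ZMod p) ≠ 2 := by
    rw [ZMod.ringChar_zmod_n]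
    exact h2
  have hdn : (C n * q).natDegree < f.natDegree := lt_of_le_of_lt (natDegree_C_mul_le _ _) hd
  have hmm : (f - C n * q).Monic := by
    apply hf.sub_of_left
    exact degree_lt_degree hdn
  have hnd : (f - C n * q).natDegree = f.natDegree := natDegree_sub_eq_left_of_natDegree_lt hdn
  obtain ⟨g, hg⟩ : ∃ g : Polynomial (ZMod p), g = (f - C n * q).map (Int.castRingHom (ZMod p)) := ⟨_, rfl⟩
  have hgd : g.natDegree = f.natDegree := by
    rw [hg, hmm.natDegree_map, hnd]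
  have h5 := Pool.Agent.H341R2.Sharp.weil_sharp h3 g (by rw [hgd]; exact ho.pos) (by
    intro c h' hgh
    by_cases hc : c = 0
    · rw [hc] at hgh
      simp at hgh
      rw [hgh, Polynomial.natDegree_zero] at hgd
      have := ho.pos
      omega
    · have h5 : g.natDegree = 2 * h'.natDegree := by
        rw [hgh, Polynomial.natDegree_C_mul hc, Polynomial.natDegree_pow]
      rw [hgd] at h5
      rw [h5] at ho
      exact (Nat.not_odd_iff_even.2 (even_two_mul _)) ho)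
  rw [hgd, ZMod.card] at h5
  rw [ptr_sum f q n p h2, abs_neg, ← hg]
  exact h5

/-- the sums of `a_p p ^ (- i σ)` for all pencils, near sequences -/
theorem ptr_law (δ A : ℝ) (hδ : 0 < δ) (hA : 0 ≤ A) :
    ∃ κ C : ℝ, 0 < κ ∧ 0 < C ∧ ∀ (v : ℕ → ℝ) (τ θ : ℝ), (∀ i, 1 ≤ v i) → 0 ≤ τ → θ < 1 →
      (∀ u : ℝ, τ < u → Summable (fun i => v i ^ (-u))) →
      ∃ E : Set ℝ, dimH E ≤ ENNReal.ofReal ((1 - κ + τ) / (1 - θ)) ∧
        ∀ α : ℝ, 0 < α → α ∉ E → ∀ f q : ℤ[X], f.Monic → Odd f.natDegree → q.natDegree < f.natDegree → q ≠ 0 →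
          ∃ i₀ : ℕ, ∀ i : ℕ, i₀ ≤ i → ∀ n : ℤ, |(|(n : ℝ)|) - α * v i| ≤ v i ^ θ →
            ∀ x : ℕ, Real.log |(n : ℝ)| ^ C ≤ x → (x : ℝ) ≤ |(n : ℝ)| ^ κ → ∀ σ : ℝ, |σ| ≤ (x : ℝ) ^ A →
              ‖∑ p ∈ op x, ((ptr f q n p : ℝ) : ℂ) * (p : ℂ) ^ (-(σ * Complex.I))‖ ≤ (x : ℝ) ^ (1 + δ) := by
  classical
  obtain ⟨U, hU⟩ : ∃ U : ℕ → Finset (ℕ → ℝ), U = fun _ => {fun p : ℕ => if 3 ≤ p then 1 / Real.log p else 0} := ⟨_, rfl⟩
  have hl3 : 1 ≤ Real.log 3 := by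
    rw [Real.le_log_iff_exp_le (by norm_num)]
    exact Real.exp_one_lt_three.le
  have hU1 : ∀ x, 2 ≤ x → ((U x).card : ℝ) ≤ (x : ℝ) ^ (0 : ℝ) := by
    intro x _
    rw [hU, card_singleton, Real.rpow_zero, Nat.cast_one]
  have hU2 : ∀ x, ∀ w ∈ U x, ∀ p, |w p| ≤ 1 := by
    intro x w hw p
    rw [hU, mem_singleton] at hw
    subst hw
    beta_reduce
    split_ifs with h
    · have h1 : Real.log 3 ≤ Real.log p := Real.log_le_log (by norm_num) (by exact_mod_cast h)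
      have hlp : 0 < Real.log p := by linarith
      rw [abs_of_pos (by positivity), div_le_one (by linarith)]
      linarith
    · simp
  obtain ⟨W, hW1, hW2, hW3⟩ := heightsU A 0 hA U hU1 hU2
  obtain ⟨κ, C, hκ, hC, H⟩ := pencil_law (δ / 2) (0 + (A + 6)) 1 (by positivity) (by norm_num)
  refine ⟨κ, C, hκ, hC, fun v τ θ hv1 hτ hθ hv => ?_⟩
  let Γ : Type := {c : ℤ[X] × ℤ[X] // c.1.Monic ∧ Odd c.1.natDegree ∧ c.2.natDegree < c.1.natDegree ∧ c.2 ≠ 0}
  have hcount : Countable Γ := by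
    have h0 := Pool.Agent.X35.GM.countable_int_poly
    exact Subtype.countable
  obtain ⟨E, hE1, hE2⟩ := H v τ θ hv1 hτ hθ hv Γ (fun c => ⟨1, up c.1.1, up c.1.2⟩)
    (fun c => up_indep c.1.1 c.1.2 (indep_of_monic _ _ c.2.2.2.1 c.2.2.2.2)) W hW1 hW2
    (fun c p t => (1 : ℝ) * (p : ℝ)) (fun c => 1) (fun c => by norm_num)
    (by
      intro c p hp h2 t
      rw [Real.rpow_one, abs_of_nonneg (by positivity)])
  refine ⟨E, hE1, fun α hα hαE f q hf ho hd hq => ?_⟩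
  obtain ⟨i₁, hi₁⟩ := hE2 α hα hαE ⟨(f, q), hf, ho, hd, hq⟩
  obtain ⟨x₀, hx₀⟩ : ∃ x₀ : ℝ, ∀ x : ℝ, x₀ ≤ x → 2 * (x : ℝ) ^ (1 + δ / 2) + 2 * (f.natDegree * (x * Real.log x)) ≤ (x : ℝ) ^ (1 + δ) := by
    have h1 := (isLittleO_log_rpow_atTop (show (0 : ℝ) < δ / 2 by positivity)).bound (show (0 : ℝ) < 1 by norm_num)
    have h2 : Filter.Tendsto (fun x : ℝ => x ^ (δ / 2)) Filter.atTop Filter.atTop := tendsto_rpow_atTop (by positivity)
    have h3 := h2.eventually_ge_atTop (2 + 2 * (f.natDegree : ℝ))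
    obtain ⟨x₀, hx₀⟩ := Filter.eventually_atTop.1 (h1.and (h3.and (Filter.eventually_ge_atTop (1 : ℝ))))
    refine ⟨x₀, fun x hx => ?_⟩
    obtain ⟨h4, h5, h6⟩ := hx₀ x hx
    have hx0 : 0 < x := by linarith
    rw [one_mul, Real.norm_eq_abs, Real.norm_eq_abs, abs_of_nonneg (Real.log_nonneg h6), abs_of_pos (Real.rpow_pos_of_pos hx0 _)] at h4
    have e1 : x ^ (1 + δ / 2) = x * x ^ (δ / 2) := by rw [Real.rpow_add hx0, Real.rpow_one]
    have e2 : x ^ (1 + δ) = x * (x ^ (δ / 2) * x ^ (δ / 2)) := by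
      rw [Real.rpow_add hx0, Real.rpow_one, ← Real.rpow_add hx0]
      congr 2
      ring
    rw [e1, e2]
    have h8 : 0 < x ^ (δ / 2) := Real.rpow_pos_of_pos hx0 _
    calc 2 * (x * x ^ (δ / 2)) + 2 * (f.natDegree * (x * Real.log x))
        ≤ 2 * (x * x ^ (δ / 2)) + 2 * (f.natDegree * (x * x ^ (δ / 2))) := by gcongr
      _ = x * ((2 + 2 * (f.natDegree : ℝ)) * x ^ (δ / 2)) := by ring
      _ ≤ x * (x ^ (δ / 2) * x ^ (δ / 2)) := by gcongr
  obtain ⟨i₂, hi₂⟩ := log_large hv1 hτ hθ hv α hα x₀ C hC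
  refine ⟨max i₁ i₂, fun i hi n hn x hx1 hx2 σ hσ => ?_⟩
  have hlarge := hi₂ i (le_trans (le_max_right _ _) hi) n hn
  have hxx : x₀ ≤ x := hlarge.trans hx1
  obtain ⟨hx3, hS⟩ := hi₁ i (le_trans (le_max_left _ _) hi) n hn x hx1 hx2
  beta_reduce at hS
  have hK : ∀ p ∈ op x, |tot p (up f) (up q) (fun p _ => (1 : ℝ) * (p : ℝ)) n * Real.log p| ≤ f.natDegree * (x * Real.log x) := by
    intro p hp
    obtain ⟨q1, q2, q3, q4, q5⟩ := op_log hp
    rw [mem_op] at hp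
    have hp0 : (0 : ℝ) < p := by linarith
    have h1 := ptr_tot f q n p hp.2.1 hp.2.2 (fun _ => 1)
    have h3 := ptr_bound f q hf ho hd n p hp.2.1 hp.2.2
    rw [h1, abs_mul, abs_neg, one_mul, abs_of_pos q3]
    have h4 : √(p : ℝ) ≤ x := by
      rw [Real.sqrt_le_left (by linarith)]
      nlinarith
    calc _ ≤ (f.natDegree * √(p : ℝ)) * Real.log p := by gcongr
      _ ≤ (f.natDegree * x) * Real.log x := by gcongr
      _ = _ := by ring
  have hfin := hW3 x (by omega) (fun p : ℕ => if 3 ≤ p then 1 / Real.log p else 0) (by rw [hU]; exact mem_singleton_self _)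
    (fun p => tot p (up f) (up q) (fun p _ => (1 : ℝ) * (p : ℝ)) n * Real.log p) _ _ (by
    have := Real.log_natCast_nonneg x
    positivity) hK hS σ hσ
  have hdd : ∑ p ∈ op x, ((ptr f q n p : ℝ) : ℂ) * (p : ℂ) ^ (-(σ * Complex.I)) = -∑ p ∈ op x,
      (((if 3 ≤ p then 1 / Real.log p else 0) * (tot p (up f) (up q) (fun p _ => (1 : ℝ) * (p : ℝ)) n * Real.log p) : ℝ) : ℂ) *
        (p : ℂ) ^ (-(σ * Complex.I)) := by
    rw [← sum_neg_distrib]
    refine sum_congr rfl fun p hp => ?_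
    obtain ⟨q1, q2, q3, q4, q5⟩ := op_log hp
    rw [mem_op] at hp
    have h1 := ptr_tot f q n p hp.2.1 hp.2.2 (fun _ => 1)
    have h3 : 3 ≤ p := by
      have := hp.2.1.two_le
      have := hp.2.2
      omega
    have h4 : (1 / Real.log p * (-(1 * (ptr f q n p : ℝ)) * Real.log p) : ℝ) = -(ptr f q n p : ℝ) := by
      field_simp
    rw [if_pos h3, h1, h4]
    push_cast
    ring
  rw [hdd, norm_neg]
  exact hfin.trans (hx₀ x hxx)

end Pool.Agent.X35.GV
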