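import Pool.Agent.TH894.NE2

/-! Averages of periodic functions of several integers over boxes. -/

set_option autoImplicit false

namespace Pool.Agent.X35.GV
open Finset
open Pool.Agent.TH894.NE (box Per mean mem_box card_box)

/-- a box of integers -/
def rect {d : ℕ} (M L : Fin d → ℕ) : Finset (Fin d → ℕ) := Fintype.piFinset (fun i => Ico (M i) (M i + L i))

lemma card_rect {d : ℕ} (M L : Fin d → ℕ) : (rect M L).card = ∏ i, L i := by
  unfold rect
  rw [Fintype.card_piFinset]
  refine prod_congr rfl fun i _ => ?_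
  rw [Nat.card_Ico]
  omega

lemma count_one (q : ℕ) (M r : ℕ) (hr : r < q) : ((Ico M (M + q)).filter (fun n => n % q = r)).card = 1 := by
  have hper : Function.Periodic (fun n : ℕ => n % q = r) q := by
    intro n
    simp
  rw [Nat.filter_Ico_card_eq_of_periodic M q (fun n => n % q = r) hper, Nat.count_eq_card_filter_range, card_eq_one]
  refine ⟨r, ?_⟩
  ext n
  rw [mem_filter, mem_range, mem_singleton]
  constructor
  · rintro ⟨h1, h2⟩
    rw [Nat.mod_eq_of_lt h1] at h2
    exact h2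
  · rintro rfl
    exact ⟨hr, Nat.mod_eq_of_lt hr⟩

lemma count_res (q : ℕ) (M r : ℕ) (hr : r < q) (k : ℕ) :
    ((Ico M (M + k * q)).filter (fun n => n % q = r)).card = k := by
  induction k with
  | zero => simp
  | succ k ih =>
    have h1 : Ico M (M + (k + 1) * q) = Ico M (M + k * q) ∪ Ico (M + k * q) (M + k * q + q) := by
      rw [Ico_union_Ico_eq_Ico (by omega) (by omega)]
      congr 1
      ring
    have h2 : Disjoint (Ico M (M + k * q)) (Ico (M + k * q) (M + k * q + q)) := Ico_disjoint_Ico_consecutive _ _ _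
    rw [h1, filter_union, card_union_of_disjoint (disjoint_filter_filter h2), ih, count_one q _ r hr]

lemma sum_rect_mul {d : ℕ} (q : ℕ) (hq : 1 ≤ q) (M k : Fin d → ℕ) (H : (Fin d → ℕ) → ℝ) (hH : Per q H) :
    ∑ n ∈ rect M (fun i => k i * q), H n = (∏ i, (k i : ℝ)) * ∑ r ∈ box d q, H r := by
  classical
  have h1 : ∀ n ∈ rect M (fun i => k i * q), (fun i => n i % q) ∈ box d q := by
    intro n _
    rw [mem_box]
    intro i
    exact Nat.mod_lt _ (by omega)
  rw [← sum_fiberwise_of_maps_to h1, mul_sum]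
  refine sum_congr rfl fun r hr => ?_
  rw [mem_box] at hr
  have h2 : (rect M (fun i => k i * q)).filter (fun n => (fun i => n i % q) = r) =
      Fintype.piFinset (fun i => (Ico (M i) (M i + k i * q)).filter (fun n => n % q = r i)) := by
    ext n
    unfold rect
    simp only [mem_filter, Fintype.mem_piFinset]
    constructor
    · rintro ⟨h3, h4⟩ i
      exact ⟨h3 i, congrFun h4 i⟩
    · intro h3
      exact ⟨fun i => (h3 i).1, funext fun i => (h3 i).2⟩
  have h3 : ∀ n ∈ (rect M (fun i => k i * q)).filter (fun n => (fun i => n i % q) = r), H n = H r := by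
    intro n hn
    rw [mem_filter] at hn
    rw [hH n, hn.2]
  rw [sum_congr rfl h3, sum_const, nsmul_eq_mul, h2, Fintype.card_piFinset]
  congr 1
  push_cast
  refine prod_congr rfl fun i _ => ?_
  rw [count_res q (M i) (r i) (hr i) (k i)]

lemma mean_multiple {d : ℕ} (q m : ℕ) (hq : 1 ≤ q) (hm : 1 ≤ m) (H : (Fin d → ℕ) → ℝ) (hH : Per q H) :
    mean d (m * q) H = mean d q H := by
  have h1 : box d (m * q) = rect (fun _ => 0) (fun _ : Fin d => m * q) := by
    unfold Pool.Agent.TH894.NE.box rect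
    simp
  unfold mean
  rw [h1, sum_rect_mul q hq (fun _ => 0) (fun _ => m) H hH, prod_const, card_univ, Fintype.card_fin]
  have h2 : (q : ℝ) ≠ 0 := by exact_mod_cast (by omega : q ≠ 0)
  have h3 : (m : ℝ) ≠ 0 := by exact_mod_cast (by omega : m ≠ 0)
  push_cast
  rw [mul_pow]
  field_simp

/-- a shift does not change the mean -/
lemma sum_shift {d : ℕ} (q : ℕ) (hq : 1 ≤ q) (M : Fin d → ℕ) (H : (Fin d → ℕ) → ℝ) (hH : Per q H) :
    ∑ n ∈ box d q, H (fun i => n i + M i) = ∑ n ∈ box d q, H n := by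
  have h1 := sum_rect_mul q hq M (fun _ => 1) H hH
  simp only [one_mul, Nat.cast_one, prod_const_one] at h1
  rw [← h1]
  refine sum_bij' (fun n _ i => n i + M i) (fun n _ i => n i - M i) ?_ ?_ ?_ ?_ ?_
  · intro n hn
    unfold rect
    rw [Fintype.mem_piFinset]
    intro i
    rw [mem_Ico]
    have := mem_box.1 hn i
    show M i ≤ n i + M i ∧ n i + M i < M i + q
    omega
  · intro n hn
    unfold rect at hn
    rw [Fintype.mem_piFinset] at hn
    rw [mem_box]
    intro i
    have h := mem_Ico.1 (hn i)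
    have h' : n i < M i + q := h.2
    show n i - M i < q
    omega
  · intro n hn
    funext i
    simp
  · intro n hn
    unfold rect at hn
    rw [Fintype.mem_piFinset] at hn
    funext i
    have := mem_Ico.1 (hn i)
    show n i - M i + M i = n i
    omega
  · intro n _
    rfl

/-- averages over a box -/
theorem avg_rect {d : ℕ} (q N : ℕ) (hq : 1 ≤ q) (hN : 1 ≤ N) (M L : Fin d → ℕ) (hL : ∀ i, N ≤ L i) (H : (Fin d → ℕ) → ℝ)
    (hH : Per q H) (hH1 : ∀ n, |H n| ≤ 1) :
    |∑ n ∈ rect M L, H n - (∏ i, (L i : ℝ)) * mean d q H| ≤ 2 * (d * ((q : ℝ) / N)) * ∏ i, (L i : ℝ) := by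
  classical
  have hq0 : (0 : ℝ) < q := by exact_mod_cast (by omega : 0 < q)
  have hN0 : (0 : ℝ) < N := by exact_mod_cast (by omega : 0 < N)
  obtain ⟨k, hk⟩ : ∃ k : Fin d → ℕ, k = fun i => L i / q := ⟨_, rfl⟩
  have hkL : ∀ i, k i * q ≤ L i := by
    intro i
    rw [hk]
    exact Nat.div_mul_le_self _ _
  have hsub : rect M (fun i => k i * q) ⊆ rect M L := by
    intro n hn
    unfold rect at hn ⊢
    rw [Fintype.mem_piFinset] at hn ⊢
    intro i
    have h1 := mem_Ico.1 (hn i)
    have h1' : n i < M i + k i * q := h1.2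
    rw [mem_Ico]
    have := hkL i
    omega
  have hP0 : 0 ≤ ∏ i, (L i : ℝ) := prod_nonneg fun i _ => Nat.cast_nonneg _
  -- the small difference of the volumes
  have hvol : (∏ i, (L i : ℝ)) - ∏ i, ((k i : ℝ) * q) ≤ (d * ((q : ℝ) / N)) * ∏ i, (L i : ℝ) := by
    rcases le_or_gt ((q : ℝ) / N) 1 with h | h
    · have h1 : ∀ i ∈ (univ : Finset (Fin d)), (1 - (q : ℝ) / N) * L i ≤ (k i : ℝ) * q := by
        intro i _
        have h2 : L i < k i * q + q := by
          rw [hk]
          have := Nat.lt_div_mul_add (a := L i) (by omega : 0 < q)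
          simpa using this
        have h3 : (L i : ℝ) ≤ (k i : ℝ) * q + q := by exact_mod_cast h2.le
        have h4 : (q : ℝ) ≤ (q : ℝ) / N * L i := by
          rw [div_mul_eq_mul_div, le_div_iff₀ hN0]
          exact mul_le_mul_of_nonneg_left (by exact_mod_cast hL i) hq0.le
        nlinarith
      have h2 : ∏ i : Fin d, ((1 - (q : ℝ) / N) * L i) ≤ ∏ i, ((k i : ℝ) * q) :=
        prod_le_prod (fun i _ => mul_nonneg (by linarith) (Nat.cast_nonneg _)) h1
      rw [prod_mul_distrib, prod_const, card_univ, Fintype.card_fin] at h2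
      have h3 : 1 + (d : ℝ) * (-((q : ℝ) / N)) ≤ (1 + -((q : ℝ) / N)) ^ d := by
        apply one_add_mul_le_pow
        linarith
      have h4 : (1 - (d : ℝ) * ((q : ℝ) / N)) * ∏ i, (L i : ℝ) ≤ (1 - (q : ℝ) / N) ^ d * ∏ i, (L i : ℝ) := by
        apply mul_le_mul_of_nonneg_right _ hP0
        rw [show (1 - (d : ℝ) * ((q : ℝ) / N)) = 1 + (d : ℝ) * (-((q : ℝ) / N)) by ring, sub_eq_add_neg]
        exact h3
      nlinarith
    · rcases Nat.eq_zero_or_pos d with hd | hd
      · subst hd
        simp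
      · have h1 : (1 : ℝ) ≤ d := by exact_mod_cast hd
        have h2 : 1 ≤ (d : ℝ) * ((q : ℝ) / N) := by nlinarith
        have h3 : 0 ≤ ∏ i, ((k i : ℝ) * q) := prod_nonneg fun i _ => by positivity
        nlinarith
  have hS := sum_rect_mul q hq M k H hH
  have hmean : mean d q H * ∏ i, ((k i : ℝ) * q) = ∑ n ∈ rect M (fun i => k i * q), H n := by
    rw [hS]
    unfold mean
    rw [prod_mul_distrib, prod_const, card_univ, Fintype.card_fin]
    field_simp
  have hmean1 : |mean d q H| ≤ 1 := by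
    unfold mean
    rw [abs_mul, abs_of_nonneg (by positivity : (0 : ℝ) ≤ 1 / (q : ℝ) ^ d), one_div, inv_mul_le_iff₀ (by positivity), mul_one]
    refine (abs_sum_le_sum_abs _ _).trans ((sum_le_sum fun n _ => hH1 n).trans ?_)
    rw [sum_const, card_box, nsmul_eq_mul, mul_one]
    push_cast
    exact le_rfl
  have hcard : (((rect M L) \ (rect M (fun i => k i * q))).card : ℝ) = (∏ i, (L i : ℝ)) - ∏ i, ((k i : ℝ) * q) := by
    rw [cast_card_sdiff hsub, card_rect, card_rect]
    push_cast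
    ring
  have hdiff : |∑ n ∈ rect M L, H n - ∑ n ∈ rect M (fun i => k i * q), H n| ≤ (∏ i, (L i : ℝ)) - ∏ i, ((k i : ℝ) * q) := by
    rw [← sum_sdiff hsub, add_sub_cancel_right, ← hcard]
    refine (abs_sum_le_sum_abs _ _).trans ((sum_le_sum fun n _ => hH1 n).trans ?_)
    rw [sum_const, nsmul_eq_mul, mul_one]
  have hpos : 0 ≤ (∏ i, (L i : ℝ)) - ∏ i, ((k i : ℝ) * q) := by
    rw [← hcard]
    positivity
  have h5 : |(∏ i, (L i : ℝ)) * mean d q H - mean d q H * ∏ i, ((k i : ℝ) * q)| ≤ (∏ i, (L i : ℝ)) - ∏ i, ((k i : ℝ) * q) := by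
    rw [show (∏ i, (L i : ℝ)) * mean d q H - mean d q H * ∏ i, ((k i : ℝ) * q) =
      mean d q H * ((∏ i, (L i : ℝ)) - ∏ i, ((k i : ℝ) * q)) by ring, abs_mul, abs_of_nonneg hpos]
    nlinarith
  rw [hmean] at h5
  have h6 : |∑ n ∈ rect M L, H n - (∏ i, (L i : ℝ)) * mean d q H| ≤
      |∑ n ∈ rect M L, H n - ∑ n ∈ rect M (fun i => k i * q), H n| +
      |(∏ i, (L i : ℝ)) * mean d q H - ∑ n ∈ rect M (fun i => k i * q), H n| := by
    rw [abs_sub_comm ((∏ i, (L i : ℝ)) * mean d q H)]
    exact abs_sub_le _ _ _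
  linarith

end Pool.Agent.X35.GV
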