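import Pool.Agent.X35.GV.Avg

/-! Arbitrary local conditions at the integer vectors of a box: the number of the moduli at which the condition holds,
with the square root of the expected number as error, power saving exceptional set. -/

set_option autoImplicit false

namespace Pool.Agent.X35.GV
open Finset
open Pool.Agent.TH894.NE (Per mean mem_box card_box momentd mean_add mean_mul mean_const mean_mono)

/-- moments over a box -/
lemma moment {d : ℕ} {ι : Type*} [DecidableEq ι] (I : Finset ι) (q : ι → ℕ) (Y : ℕ) (hq : ∀ a ∈ I, 1 ≤ q a ∧ q a ≤ Y)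
    (hcop : ∀ a ∈ I, ∀ a' ∈ I, a ≠ a' → Nat.Coprime (q a) (q a')) (F : ι → (Fin d → ℕ) → ℝ) (hF : ∀ a ∈ I, Per (q a) (F a))
    (hF1 : ∀ a ∈ I, ∀ n, |F a n| ≤ 1) (hF0 : ∀ a ∈ I, mean d (q a) (F a) = 0) (V : ℝ) (hV1 : 1 ≤ V)
    (hV : ∑ a ∈ I, mean d (q a) (fun n => F a n ^ 2) ≤ V) (j : ℕ) (hI : I.card ≤ Y)
    (M L : Fin d → ℕ) (N : ℕ) (hN : 1 ≤ N) (hL : ∀ i, N ≤ L i) :
    ∑ n ∈ rect M L, (∑ a ∈ I, F a n) ^ (2 * j) ≤
      (6 * (2 * j).factorial * V ^ j + 2 * d * (Y : ℝ) ^ (4 * j) / N) * ∏ i, (L i : ℝ) := by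
  classical
  obtain ⟨J, hJ⟩ : ∃ J, J = 2 * j := ⟨_, rfl⟩
  obtain ⟨G, hG⟩ : ∃ G : Finset (Fin J → ι), G = Fintype.piFinset (fun _ => I) := ⟨_, rfl⟩
  obtain ⟨Q, hQ⟩ : ∃ Q, Q = ∏ a ∈ I, q a := ⟨_, rfl⟩
  have hN0 : (0 : ℝ) < N := by exact_mod_cast (by omega : 0 < N)
  have hP0 : 0 ≤ ∏ i, (L i : ℝ) := prod_nonneg fun i _ => Nat.cast_nonneg _
  have hQ1 : 1 ≤ Q := by
    rw [hQ]
    exact Nat.one_le_iff_ne_zero.2 (prod_ne_zero_iff.2 fun a h => by have := (hq a h).1; omega)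
  have hexp : ∀ n, (∑ a ∈ I, F a n) ^ J = ∑ g ∈ G, ∏ i, F (g i) n := by
    intro n
    have h1 := prod_univ_sum (fun _ : Fin J => I) (fun _ a => F a n)
    rw [prod_const, card_univ, Fintype.card_fin] at h1
    rw [h1, hG]
  have hper : ∀ g ∈ G, ∀ m : ℕ, (∀ i, q (g i) ∣ m) → Per m (fun n => ∏ i, F (g i) n) := by
    intro g hg m hm n
    rw [hG, Fintype.mem_piFinset] at hg
    exact prod_congr rfl fun i _ => (hF (g i) (hg i)).of_dvd (hm i) n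
  have hterm : ∀ g ∈ G, ∑ n ∈ rect M L, ∏ i, F (g i) n ≤
      (∏ i, (L i : ℝ)) * mean d Q (fun n => ∏ i, F (g i) n) + 2 * (d * ((Y : ℝ) ^ J / N)) * ∏ i, (L i : ℝ) := by
    intro g hg
    have hg' := hg
    rw [hG, Fintype.mem_piFinset] at hg'
    obtain ⟨Qg, hQg⟩ : ∃ Qg, Qg = ∏ i, q (g i) := ⟨_, rfl⟩
    have hQg1 : 1 ≤ Qg := by
      rw [hQg]
      exact Nat.one_le_iff_ne_zero.2 (prod_ne_zero_iff.2 fun i _ => by have := (hq (g i) (hg' i)).1; omega)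
    have hQgY : Qg ≤ Y ^ J := by
      rw [hQg]
      calc ∏ i, q (g i) ≤ ∏ _i : Fin J, Y := prod_le_prod' fun i _ => (hq (g i) (hg' i)).2
        _ = Y ^ J := by rw [prod_const, card_univ, Fintype.card_fin]
    have hp1 := hper g hg Qg (fun i => by rw [hQg]; exact dvd_prod_of_mem _ (mem_univ i))
    have hp2 := hper g hg Q (fun i => by rw [hQ]; exact dvd_prod_of_mem _ (hg' i))
    have hm : mean d Qg (fun n => ∏ i, F (g i) n) = mean d Q (fun n => ∏ i, F (g i) n) := by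
      rw [← mean_multiple Qg Q hQg1 hQ1 _ hp1, ← mean_multiple Q Qg hQ1 hQg1 _ hp2, mul_comm]
    have h1 := avg_rect Qg N hQg1 hN M L hL (fun n => ∏ i, F (g i) n) hp1 (fun n => by
      rw [abs_prod]
      exact prod_le_one (fun i _ => abs_nonneg _) fun i _ => hF1 (g i) (hg' i) n)
    rw [hm] at h1
    have h2 := (abs_le.1 h1).2
    have h3 : 2 * (d * ((Qg : ℝ) / N)) * ∏ i, (L i : ℝ) ≤ 2 * (d * ((Y : ℝ) ^ J / N)) * ∏ i, (L i : ℝ) := by
      have h4 : (Qg : ℝ) ≤ (Y : ℝ) ^ J := by exact_mod_cast hQgY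
      gcongr
    linarith
  have hG1 : (G.card : ℝ) ≤ (Y : ℝ) ^ J := by
    rw [hG, Fintype.card_piFinset, prod_const, card_univ, Fintype.card_fin]
    exact_mod_cast Nat.pow_le_pow_left hI J
  have hmean : ∑ g ∈ G, mean d Q (fun n => ∏ i, F (g i) n) = mean d Q (fun n => (∑ a ∈ I, F a n) ^ J) := by
    unfold mean
    rw [← mul_sum, sum_comm]
    congr 1
    exact sum_congr rfl fun n _ => (hexp n).symm
  have hmom : mean d Q (fun n => (∑ a ∈ I, F a n) ^ J) ≤ 6 * J.factorial * V ^ j := by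
    rw [hQ, hJ]
    exact momentd I q (fun a ha => (hq a ha).1) hcop F hF hF1 hF0 V hV1 hV j
  rw [← hJ]
  calc ∑ n ∈ rect M L, (∑ a ∈ I, F a n) ^ J = ∑ g ∈ G, ∑ n ∈ rect M L, ∏ i, F (g i) n := by
        rw [sum_comm]
        exact sum_congr rfl fun n _ => hexp n
    _ ≤ ∑ g ∈ G, ((∏ i, (L i : ℝ)) * mean d Q (fun n => ∏ i, F (g i) n) + 2 * (d * ((Y : ℝ) ^ J / N)) * ∏ i, (L i : ℝ)) :=
        sum_le_sum hterm
    _ = (∏ i, (L i : ℝ)) * mean d Q (fun n => (∑ a ∈ I, F a n) ^ J) +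
          G.card * (2 * (d * ((Y : ℝ) ^ J / N)) * ∏ i, (L i : ℝ)) := by
        rw [sum_add_distrib, ← mul_sum, hmean, sum_const, nsmul_eq_mul]
    _ ≤ (∏ i, (L i : ℝ)) * (6 * J.factorial * V ^ j) +
          (Y : ℝ) ^ J * (2 * (d * ((Y : ℝ) ^ J / N)) * ∏ i, (L i : ℝ)) :=
        add_le_add (mul_le_mul_of_nonneg_left hmom hP0) (mul_le_mul_of_nonneg_right hG1 (by positivity))
    _ = _ := by
        have h1 : (Y : ℝ) ^ (4 * j) = (Y : ℝ) ^ J * (Y : ℝ) ^ J := by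
          rw [← pow_add, hJ]
          congr 1
          omega
        rw [h1]
        ring

/-- few vectors with a large sum -/
lemma one {d : ℕ} (δ : ℝ) (hδ : 0 < δ) (B : ℕ) (hB : 1 ≤ B) (N x : ℕ) (hN : 1 ≤ N) (hx2 : 2 ≤ x)
    (hx1 : Real.log N ≤ (x : ℝ) ^ (δ / 2)) (hx3 : 8 * B * Real.log x ≤ Real.log N)
    {ι : Type*} [DecidableEq ι] (I : Finset ι) (q : ι → ℕ) (hq : ∀ a ∈ I, 2 ≤ q a ∧ q a ≤ x ^ B)
    (hcop : ∀ a ∈ I, ∀ a' ∈ I, a ≠ a' → Nat.Coprime (q a) (q a')) (F : ι → (Fin d → ℕ) → ℝ) (hF : ∀ a ∈ I, Per (q a) (F a))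
    (hF1 : ∀ a ∈ I, ∀ n, |F a n| ≤ 1) (hF0 : ∀ a ∈ I, mean d (q a) (F a) = 0) (V : ℝ) (hV1 : 1 ≤ V)
    (hV : ∑ a ∈ I, mean d (q a) (fun n => F a n ^ 2) ≤ V) (M L : Fin d → ℕ) (hL : ∀ i, N ≤ L i)
    (Ex : Finset (Fin d → ℕ)) (hEx : Ex ⊆ rect M L) (hExb : ∀ n ∈ Ex, √V * (x : ℝ) ^ δ < |∑ a ∈ I, F a n|) :
    (Ex.card : ℝ) ≤ (6 * (N : ℝ) ^ (-(δ / (16 * B))) + 2 * d * (N : ℝ) ^ (-(1 / 2 : ℝ))) * ∏ i, (L i : ℝ) := by
  have hx0 : (0 : ℝ) < x := by exact_mod_cast (by omega : 0 < x)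
  have hx1' : (1 : ℝ) ≤ x := by exact_mod_cast (by omega : 1 ≤ x)
  have hBr : (1 : ℝ) ≤ B := by exact_mod_cast hB
  have hN0 : (0 : ℝ) < N := by exact_mod_cast (by omega : 0 < N)
  have hP0 : 0 ≤ ∏ i, (L i : ℝ) := prod_nonneg fun i _ => Nat.cast_nonneg _
  have hl2 : (1 : ℝ) / 2 ≤ Real.log x := by
    have h1 := Real.log_two_gt_d9
    have h2 : Real.log 2 ≤ Real.log x := Real.log_le_log (by norm_num) (by exact_mod_cast hx2)
    linarith
  have hlx : 0 < Real.log x := by linarith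
  have hlN : 0 < Real.log N := by nlinarith
  have hcard : I.card ≤ x ^ B := by
    have h1 : I.card ≤ (Icc 1 (x ^ B)).card := by
      refine card_le_card_of_injOn q (fun a ha => ?_) ?_
      · have := hq a ha
        rw [mem_coe, mem_Icc]
        omega
      · intro a ha a' ha' h
        by_contra hne
        have h2 := hcop a ha a' ha' hne
        rw [h, Nat.coprime_self] at h2
        have := (hq a' ha').1
        omega
    rwa [Nat.card_Icc, Nat.add_sub_cancel] at h1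
  obtain ⟨u, hu⟩ : ∃ u : ℝ, u = Real.log N / (8 * B * Real.log x) := ⟨_, rfl⟩
  have hden : 0 < 8 * B * Real.log x := by positivity
  have hu1 : 1 ≤ u := by rw [hu, one_le_div hden]; exact hx3
  obtain ⟨j, hj⟩ : ∃ j, j = ⌊u⌋₊ := ⟨_, rfl⟩
  have hju : (j : ℝ) ≤ u := by rw [hj]; exact Nat.floor_le (by linarith)
  have hj1 : 1 ≤ j := by rw [hj]; exact (Nat.one_le_floor_iff u).2 hu1
  have hj1r : (1 : ℝ) ≤ j := by exact_mod_cast hj1
  have hju2 : u ≤ 2 * j := by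
    have h1 := Nat.lt_floor_add_one u
    rw [← hj] at h1
    linarith
  have huL : u * (8 * B * Real.log x) = Real.log N := by
    rw [hu]
    field_simp
  -- the three estimates
  have e1 : ((x ^ B : ℕ) : ℝ) ^ (4 * j) ≤ (N : ℝ) ^ (1 / 2 : ℝ) := by
    rw [← Real.log_le_log_iff (by positivity) (by positivity), Real.log_pow, Real.log_rpow hN0]
    push_cast
    rw [Real.log_pow]
    have h1 : (j : ℝ) * (8 * B * Real.log x) ≤ Real.log N := by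
      rw [← huL]
      exact mul_le_mul_of_nonneg_right hju hden.le
    nlinarith
  have e2 : ((2 * j).factorial : ℝ) ≤ (x : ℝ) ^ (δ * j) := by
    have h1 : ((2 * j).factorial : ℝ) ≤ ((2 * j : ℕ) : ℝ) ^ (2 * j) := by exact_mod_cast Nat.factorial_le_pow (2 * j)
    have h2 : ((2 * j : ℕ) : ℝ) ≤ Real.log N := by
      push_cast
      have h3 : (j : ℝ) * (8 * B * Real.log x) ≤ Real.log N := by
        rw [← huL]
        exact mul_le_mul_of_nonneg_right hju hden.le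
      have h4 : (4 : ℝ) ≤ 8 * B * Real.log x := by nlinarith
      nlinarith
    calc ((2 * j).factorial : ℝ) ≤ ((2 * j : ℕ) : ℝ) ^ (2 * j) := h1
      _ ≤ ((x : ℝ) ^ (δ / 2)) ^ (2 * j) := pow_le_pow_left₀ (by positivity) (h2.trans hx1) _
      _ = (x : ℝ) ^ (δ * j) := by
          rw [← Real.rpow_natCast, ← Real.rpow_mul hx0.le]
          congr 1
          push_cast
          ring
  have e3 : (N : ℝ) ^ (δ / (16 * B)) ≤ (x : ℝ) ^ (δ * j) := by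
    rw [← Real.log_le_log_iff (by positivity) (by positivity), Real.log_rpow hN0, Real.log_rpow hx0]
    have h1 : Real.log N ≤ 2 * j * (8 * B * Real.log x) := by
      rw [← huL]
      exact mul_le_mul_of_nonneg_right hju2 hden.le
    rw [div_mul_eq_mul_div, div_le_iff₀ (by positivity)]
    nlinarith
  have hV0 : (0 : ℝ) < V ^ j := by positivity
  have hVj : (1 : ℝ) ≤ V ^ j := one_le_pow₀ hV1
  have hmom := moment I q (x ^ B) (fun a ha => ⟨by have := (hq a ha).1; omega, (hq a ha).2⟩) hcop F hF hF1 hF0 V hV1 hV j hcard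
    M L N hN hL
  have hlow : (Ex.card : ℝ) * (V ^ j * (x : ℝ) ^ (2 * (δ * j))) ≤ ∑ n ∈ rect M L, (∑ a ∈ I, F a n) ^ (2 * j) := by
    have h1 : ∀ n ∈ Ex, V ^ j * (x : ℝ) ^ (2 * (δ * j)) ≤ (∑ a ∈ I, F a n) ^ (2 * j) := by
      intro n hn
      have h2 := (hExb n hn).le
      have h3 : (√V * (x : ℝ) ^ δ) ^ (2 * j) ≤ |∑ a ∈ I, F a n| ^ (2 * j) :=
        pow_le_pow_left₀ (by positivity) h2 _
      rw [(even_two_mul j).pow_abs] at h3
      refine le_trans (le_of_eq ?_) h3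
      rw [mul_pow, pow_mul, Real.sq_sqrt (by linarith), ← Real.rpow_natCast ((x : ℝ) ^ δ), ← Real.rpow_mul hx0.le]
      congr 2
      push_cast
      ring
    calc (Ex.card : ℝ) * (V ^ j * (x : ℝ) ^ (2 * (δ * j))) = ∑ _n ∈ Ex, V ^ j * (x : ℝ) ^ (2 * (δ * j)) := by
          rw [sum_const, nsmul_eq_mul]
      _ ≤ ∑ n ∈ Ex, (∑ a ∈ I, F a n) ^ (2 * j) := sum_le_sum h1
      _ ≤ _ := sum_le_sum_of_subset_of_nonneg hEx fun n _ _ => (even_two_mul j).pow_nonneg _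
  have h1 := hlow.trans hmom
  obtain ⟨W, hW⟩ : ∃ W : ℝ, W = (x : ℝ) ^ (δ * j) := ⟨_, rfl⟩
  have hW1 : 1 ≤ W := by
    rw [hW]
    exact Real.one_le_rpow hx1' (by positivity)
  have hW2 : (x : ℝ) ^ (2 * (δ * j)) = W * W := by
    rw [hW, ← Real.rpow_add hx0]
    congr 1
    ring
  rw [hW2] at h1
  rw [← hW] at e2 e3
  have hNd : 0 < (N : ℝ) ^ (δ / (16 * B)) := by positivity
  have h2 : 6 * ((2 * j).factorial : ℝ) * V ^ j + 2 * d * ((x ^ B : ℕ) : ℝ) ^ (4 * j) / N ≤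
      (6 * (N : ℝ) ^ (-(δ / (16 * B))) + 2 * d * (N : ℝ) ^ (-(1 / 2 : ℝ))) * (V ^ j * (W * W)) := by
    have h3 : 6 * ((2 * j).factorial : ℝ) * V ^ j ≤ 6 * (N : ℝ) ^ (-(δ / (16 * B))) * (V ^ j * (W * W)) := by
      rw [Real.rpow_neg hN0.le]
      have h4 : 1 ≤ ((N : ℝ) ^ (δ / (16 * B)))⁻¹ * W := by
        rw [inv_mul_eq_div, one_le_div hNd]
        exact e3
      have h5 : ((2 * j).factorial : ℝ) ≤ (((N : ℝ) ^ (δ / (16 * B)))⁻¹ * W) * W := by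
        calc ((2 * j).factorial : ℝ) ≤ W := e2
          _ = 1 * W := (one_mul _).symm
          _ ≤ _ := mul_le_mul_of_nonneg_right h4 (by linarith)
      calc 6 * ((2 * j).factorial : ℝ) * V ^ j ≤ 6 * ((((N : ℝ) ^ (δ / (16 * B)))⁻¹ * W) * W) * V ^ j := by gcongr
        _ = _ := by ring
    have h6 : 2 * d * ((x ^ B : ℕ) : ℝ) ^ (4 * j) / N ≤ 2 * d * (N : ℝ) ^ (-(1 / 2 : ℝ)) * (V ^ j * (W * W)) := by
      have h7 : ((x ^ B : ℕ) : ℝ) ^ (4 * j) / N ≤ (N : ℝ) ^ (-(1 / 2 : ℝ)) := by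
        rw [div_le_iff₀ hN0]
        calc ((x ^ B : ℕ) : ℝ) ^ (4 * j) ≤ (N : ℝ) ^ (1 / 2 : ℝ) := e1
          _ = (N : ℝ) ^ (-(1 / 2 : ℝ)) * N := by
              rw [← Real.rpow_add_one hN0.ne']
              norm_num
      have h8 : 1 ≤ V ^ j * (W * W) := by
        have := one_le_mul_of_one_le_of_one_le hW1 hW1
        exact one_le_mul_of_one_le_of_one_le hVj this
      calc 2 * d * ((x ^ B : ℕ) : ℝ) ^ (4 * j) / N = 2 * d * (((x ^ B : ℕ) : ℝ) ^ (4 * j) / N) := by ring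
        _ ≤ 2 * d * (N : ℝ) ^ (-(1 / 2 : ℝ)) := by gcongr
        _ = 2 * d * (N : ℝ) ^ (-(1 / 2 : ℝ)) * 1 := (mul_one _).symm
        _ ≤ _ := mul_le_mul_of_nonneg_left h8 (by positivity)
    calc _ ≤ 6 * (N : ℝ) ^ (-(δ / (16 * B))) * (V ^ j * (W * W)) + 2 * d * (N : ℝ) ^ (-(1 / 2 : ℝ)) * (V ^ j * (W * W)) :=
          add_le_add h3 h6
      _ = _ := by ring
  have hpos : 0 < V ^ j * (W * W) := by positivity
  have h3 := h1.trans (mul_le_mul_of_nonneg_right h2 hP0)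
  have h4 : (Ex.card : ℝ) * (V ^ j * (W * W)) ≤
      ((6 * (N : ℝ) ^ (-(δ / (16 * B))) + 2 * d * (N : ℝ) ^ (-(1 / 2 : ℝ))) * ∏ i, (L i : ℝ)) * (V ^ j * (W * W)) := by
    refine h3.trans (le_of_eq ?_)
    ring
  exact le_of_mul_le_mul_right h4 hpos

end Pool.Agent.X35.GV
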