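import Pool.Agent.X35.GV.Law

/-! Arbitrary local conditions at the integer vectors of a box. -/

set_option autoImplicit false

namespace Pool.Agent.X35.GV
open Finset
open Pool.Agent.TH894.NE (Per mean mem_box card_box mean_add mean_mul mean_const mean_mono)

/-- the condition depends on the residues modulo `q` only -/
def PerZ {d : ℕ} (q : ℕ) (T : (Fin d → ℤ) → Prop) : Prop :=
  ∀ m m' : Fin d → ℤ, (∀ i, m i ≡ m' i [ZMOD q]) → (T m ↔ T m')

open Classical in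
/-- the proportion of the vectors of residues with a property -/
noncomputable def Prob (d q : ℕ) (T : (Fin d → ℤ) → Prop) : ℝ :=
  (((Fintype.piFinset (fun _ : Fin d => range q)).filter (fun n => T (fun i => (n i : ℤ)))).card : ℝ) / (q : ℝ) ^ d

lemma Prob_nonneg (d q : ℕ) (T : (Fin d → ℤ) → Prop) : 0 ≤ Prob d q T := by unfold Prob; positivity

lemma Prob_le_one (d q : ℕ) (T : (Fin d → ℤ) → Prop) : Prob d q T ≤ 1 := by
  classical
  unfold Prob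
  apply div_le_one_of_le₀ _ (by positivity)
  have := card_filter_le (Fintype.piFinset (fun _ : Fin d => range q)) (fun n => T (fun i => (n i : ℤ)))
  rw [Fintype.card_piFinset_const, card_range] at this
  exact_mod_cast this

open Classical in
lemma mean_ind {d : ℕ} (q : ℕ) (hq : 1 ≤ q) (T : (Fin d → ℤ) → Prop) (hT : PerZ q T) (M : Fin d → ℤ) :
    mean d q (fun n => if T (fun i => M i + n i) then (1 : ℝ) else 0) = Prob d q T := by
  have hq0 : (q : ℤ) ≠ 0 := by exact_mod_cast (by omega : q ≠ 0)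
  obtain ⟨M', hM'⟩ : ∃ M' : Fin d → ℕ, M' = fun i => (M i % q).toNat := ⟨_, rfl⟩
  obtain ⟨H, hH⟩ : ∃ H : (Fin d → ℕ) → ℝ, H = fun n => if T (fun i => (n i : ℤ)) then (1 : ℝ) else 0 := ⟨_, rfl⟩
  have hper : Per q H := by
    intro n
    rw [hH]
    have h1 := hT (fun i => (n i : ℤ)) (fun i => ((n i % q : ℕ) : ℤ)) (fun i => by
      show (n i : ℤ) ≡ ((n i % q : ℕ) : ℤ) [ZMOD q]
      push_cast
      exact (Int.mod_modEq _ _).symm)
    show (if T (fun i => (n i : ℤ)) then (1 : ℝ) else 0) = if T (fun i => ((n i % q : ℕ) : ℤ)) then (1 : ℝ) else 0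
    rw [propext h1]
  have h1 : (fun n : Fin d → ℕ => if T (fun i => M i + n i) then (1 : ℝ) else 0) = fun n => H (fun i => n i + M' i) := by
    funext n
    rw [hH]
    have h2 := hT (fun i => M i + n i) (fun i => ((n i + M' i : ℕ) : ℤ)) (fun i => by
      show M i + n i ≡ ((n i + M' i : ℕ) : ℤ) [ZMOD q]
      rw [hM']
      push_cast
      rw [Int.toNat_of_nonneg (Int.emod_nonneg _ hq0), add_comm]
      exact Int.ModEq.add_left _ (Int.mod_modEq _ _).symm)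
    show (if T (fun i => M i + n i) then (1 : ℝ) else 0) = if T (fun i => ((n i + M' i : ℕ) : ℤ)) then (1 : ℝ) else 0
    rw [propext h2]
  rw [h1]
  unfold mean
  rw [sum_shift q hq M' H hper, hH]
  unfold Prob
  rw [← sum_filter, sum_const, nsmul_eq_mul, mul_one, one_div, inv_mul_eq_div]
  rfl

open Classical in
/-- one level -/
theorem level {d : ℕ} (δ : ℝ) (hδ : 0 < δ) (B : ℕ) (hB : 1 ≤ B) (N x : ℕ) (hN : 1 ≤ N) (hx2 : 2 ≤ x)
    (hx1 : Real.log N ≤ (x : ℝ) ^ (δ / 2)) (hx3 : 8 * B * Real.log x ≤ Real.log N)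
    {ι : Type*} (I : Finset ι) (q : ι → ℕ) (hq : ∀ a ∈ I, 2 ≤ q a ∧ q a ≤ x ^ B)
    (hcop : ∀ a ∈ I, ∀ a' ∈ I, a ≠ a' → Nat.Coprime (q a) (q a')) (T : ι → (Fin d → ℤ) → Prop)
    (hT : ∀ a ∈ I, PerZ (q a) (T a)) (M : Fin d → ℤ) (L : Fin d → ℕ) (hL : ∀ i, N ≤ L i)
    (Ex : Finset (Fin d → ℤ)) (hEx : ∀ m ∈ Ex, ∀ i, M i ≤ m i ∧ m i < M i + L i)
    (hExb : ∀ m ∈ Ex, √(max 1 (∑ a ∈ I, Prob d (q a) (T a))) * (x : ℝ) ^ δ <
      |((I.filter (fun a => T a m)).card : ℝ) - ∑ a ∈ I, Prob d (q a) (T a)|) :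
    (Ex.card : ℝ) ≤ (6 * (N : ℝ) ^ (-(δ / (16 * B))) + 2 * d * (N : ℝ) ^ (-(1 / 2 : ℝ))) * ∏ i, (L i : ℝ) := by
  obtain ⟨F, hF⟩ : ∃ F : ι → (Fin d → ℕ) → ℝ,
    F = fun a n => (if T a (fun i => M i + n i) then (1 : ℝ) else 0) - Prob d (q a) (T a) := ⟨_, rfl⟩
  obtain ⟨φ, hφ⟩ : ∃ φ : (Fin d → ℤ) → (Fin d → ℕ), φ = fun m i => (m i - M i).toNat := ⟨_, rfl⟩
  have hφM : ∀ m ∈ Ex, (fun i => M i + (φ m i : ℤ)) = m := by
    intro m hm
    funext i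
    rw [hφ]
    have := (hEx m hm i).1
    show M i + ((m i - M i).toNat : ℤ) = m i
    rw [Int.toNat_of_nonneg (by omega)]
    ring
  have hinj : Set.InjOn φ (Ex : Set (Fin d → ℤ)) := by
    intro m hm m' hm' h
    rw [← hφM m hm, ← hφM m' hm', h]
  rw [← card_image_of_injOn hinj]
  have hq1 : ∀ a ∈ I, 1 ≤ q a := fun a ha => by have := (hq a ha).1; omega
  refine one δ hδ B hB N x hN hx2 hx1 hx3 I q hq hcop F ?_ ?_ ?_ (max 1 (∑ a ∈ I, Prob d (q a) (T a))) (le_max_left _ _) ?_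
    (fun _ => 0) L hL (Ex.image φ) ?_ ?_
  · intro a ha n
    rw [hF]
    have h2 := hT a ha (fun i => M i + n i) (fun i => M i + ((n i % q a : ℕ) : ℤ)) (fun i => by
      show M i + n i ≡ M i + ((n i % q a : ℕ) : ℤ) [ZMOD q a]
      push_cast
      exact Int.ModEq.add_left _ (Int.mod_modEq _ _).symm)
    show (if T a (fun i => M i + n i) then (1 : ℝ) else 0) - _ = (if T a (fun i => M i + ((n i % q a : ℕ) : ℤ)) then (1 : ℝ) else 0) - _
    rw [propext h2]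
  · intro a _ n
    rw [hF]
    have h1 := Prob_nonneg d (q a) (T a)
    have h2 := Prob_le_one d (q a) (T a)
    show |(if T a (fun i => M i + n i) then (1 : ℝ) else 0) - Prob d (q a) (T a)| ≤ 1
    rw [abs_le]
    split_ifs <;> constructor <;> linarith
  · intro a ha
    rw [hF]
    have h1 : (fun n : Fin d → ℕ => (if T a (fun i => M i + n i) then (1 : ℝ) else 0) - Prob d (q a) (T a)) =
        fun n => (if T a (fun i => M i + n i) then (1 : ℝ) else 0) + (fun _ => -Prob d (q a) (T a)) n := by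
      funext n
      ring
    show mean d (q a) (fun n : Fin d → ℕ => (if T a (fun i => M i + n i) then (1 : ℝ) else 0) - Prob d (q a) (T a)) = 0
    rw [h1, mean_add, mean_const d (q a) (hq1 a ha), mean_ind (q a) (hq1 a ha) (T a) (hT a ha) M]
    ring
  · have h1 : ∀ a ∈ I, mean d (q a) (fun n => F a n ^ 2) ≤ Prob d (q a) (T a) := by
      intro a ha
      have hp0 := Prob_nonneg d (q a) (T a)
      have hp1 := Prob_le_one d (q a) (T a)
      have h2 : ∀ n, F a n ^ 2 ≤ (1 - 2 * Prob d (q a) (T a)) * (if T a (fun i => M i + n i) then (1 : ℝ) else 0) +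
          Prob d (q a) (T a) ^ 2 := by
        intro n
        rw [hF]
        show ((if T a (fun i => M i + n i) then (1 : ℝ) else 0) - Prob d (q a) (T a)) ^ 2 ≤ _
        split_ifs <;> nlinarith
      refine (mean_mono h2).trans ?_
      rw [mean_add (fun n => (1 - 2 * Prob d (q a) (T a)) * (if T a (fun i => M i + n i) then (1 : ℝ) else 0))
        (fun _ => Prob d (q a) (T a) ^ 2), mean_mul, mean_ind (q a) (hq1 a ha) (T a) (hT a ha) M, mean_const d (q a) (hq1 a ha)]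
      nlinarith
    exact (sum_le_sum h1).trans (le_max_right _ _)
  · intro n hn
    rw [mem_image] at hn
    obtain ⟨m, hm, rfl⟩ := hn
    unfold rect
    rw [Fintype.mem_piFinset]
    intro i
    have := hEx m hm i
    rw [mem_Ico, hφ]
    show 0 ≤ (m i - M i).toNat ∧ (m i - M i).toNat < 0 + L i
    omega
  · intro n hn
    rw [mem_image] at hn
    obtain ⟨m, hm, rfl⟩ := hn
    have h1 := hExb m hm
    have h2 : ∑ a ∈ I, F a (φ m) = ((I.filter (fun a => T a m)).card : ℝ) - ∑ a ∈ I, Prob d (q a) (T a) := by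
      rw [hF]
      show ∑ a ∈ I, ((if T a (fun i => M i + (φ m i : ℤ)) then (1 : ℝ) else 0) - Prob d (q a) (T a)) = _
      rw [hφM m hm, sum_sub_distrib, card_filter]
      push_cast
      rfl
    rw [h2]
    exact h1

open Classical in
/-- The general law: all levels at once. -/
theorem law (d : ℕ) (δ A : ℝ) (B : ℕ) (hδ : 0 < δ) (hB : 1 ≤ B) : ∃ κ : ℝ, 0 < κ ∧ κ ≤ 1 / 2 ∧ ∃ N₀ : ℕ, ∀ N : ℕ, N₀ ≤ N →
    ∀ (Ka : Type) (Λ : ℕ → Finset Ka), (∀ x, 2 ≤ x → ((Λ x).card : ℝ) ≤ (x : ℝ) ^ A) →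
    ∀ (ι : Type) (I : ℕ → Ka → Finset ι) (q : Ka → ι → ℕ), (∀ x, ∀ l ∈ Λ x, ∀ a ∈ I x l, 2 ≤ q l a ∧ q l a ≤ x ^ B) →
    (∀ x, ∀ l ∈ Λ x, ∀ a ∈ I x l, ∀ a' ∈ I x l, a ≠ a' → Nat.Coprime (q l a) (q l a')) →
    ∀ T : Ka → ι → (Fin d → ℤ) → Prop, (∀ x, ∀ l ∈ Λ x, ∀ a ∈ I x l, PerZ (q l a) (T l a)) →
    ∀ (M : Fin d → ℤ) (L : Fin d → ℕ), (∀ i, N ≤ L i) →
    ∀ Ex : Finset (Fin d → ℤ), (∀ m ∈ Ex, ∀ i, M i ≤ m i ∧ m i < M i + L i) →
    (∀ m ∈ Ex, ∃ x : ℕ, Real.log N ^ (2 / δ) ≤ x ∧ (x : ℝ) ≤ (N : ℝ) ^ κ ∧ ∃ l ∈ Λ x,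
      √(max 1 (∑ a ∈ I x l, Prob d (q l a) (T l a))) * (x : ℝ) ^ δ <
      |(((I x l).filter (fun a => T l a m)).card : ℝ) - ∑ a ∈ I x l, Prob d (q l a) (T l a)|) →
    (Ex.card : ℝ) ≤ (N : ℝ) ^ (-κ) * ∏ i, (L i : ℝ) := by
  have hBr : (1 : ℝ) ≤ B := by exact_mod_cast hB
  obtain ⟨η, hη⟩ : ∃ η : ℝ, η = min (δ / (16 * B)) (1 / 2) := ⟨_, rfl⟩
  have hη0 : 0 < η := by rw [hη]; exact lt_min (by positivity) (by norm_num)
  have hη1 : η ≤ δ / (16 * B) := by rw [hη]; exact min_le_left _ _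
  have hη2 : η ≤ 1 / 2 := by rw [hη]; exact min_le_right _ _
  obtain ⟨κ, hκ⟩ : ∃ κ : ℝ, κ = min (η / (2 * (2 + |A|))) (1 / (8 * B)) := ⟨_, rfl⟩
  have hA0 : 0 ≤ |A| := abs_nonneg A
  have hκ0 : 0 < κ := by rw [hκ]; exact lt_min (by positivity) (by positivity)
  have hκ1 : κ * (2 + |A|) ≤ η / 2 := by
    have h1 : κ ≤ η / (2 * (2 + |A|)) := by rw [hκ]; exact min_le_left _ _
    rw [le_div_iff₀ (by positivity)] at h1
    linarith
  have hκ2 : κ ≤ 1 / (8 * B) := by rw [hκ]; exact min_le_right _ _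
  have hκ3 : κ ≤ 1 / 2 := by nlinarith
  have ht1 : Filter.Tendsto (fun x : ℝ => x ^ (η / 2)) Filter.atTop Filter.atTop := tendsto_rpow_atTop (by positivity)
  have hev1 := (ht1.comp tendsto_natCast_atTop_atTop).eventually (Filter.eventually_ge_atTop ((6 : ℝ) + 2 * d))
  have ht2 : Filter.Tendsto (fun n : ℕ => Real.log (n : ℝ)) Filter.atTop Filter.atTop :=
    Real.tendsto_log_atTop.comp tendsto_natCast_atTop_atTop
  have hev2 := ht2.eventually (Filter.eventually_ge_atTop ((2 : ℝ) ^ (δ / 2)))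
  obtain ⟨N₁, hN₁⟩ := Filter.eventually_atTop.1 (hev1.and hev2)
  refine ⟨κ, hκ0, hκ3, N₁ + 2, fun N hN Ka Λ hΛ ι I q hq hcop T hT M L hL Ex hEx hExb => ?_⟩
  obtain ⟨hN3, hN4⟩ := hN₁ N (by omega)
  have hN1 : (1 : ℝ) ≤ N := by exact_mod_cast (by omega : 1 ≤ N)
  have hN0 : (0 : ℝ) < N := by linarith
  have hP0 : 0 ≤ ∏ i, (L i : ℝ) := prod_nonneg fun i _ => Nat.cast_nonneg _
  have hlogN : 0 < Real.log N := lt_of_lt_of_le (by positivity) hN4
  obtain ⟨W, hW⟩ : ∃ W : ℝ, W = (6 * (N : ℝ) ^ (-(δ / (16 * B))) + 2 * d * (N : ℝ) ^ (-(1 / 2 : ℝ))) * ∏ i, (L i : ℝ) := ⟨_, rfl⟩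
  have hW0 : 0 ≤ W := by rw [hW]; positivity
  obtain ⟨Bd, hBd⟩ : ∃ Bd : ℕ → Ka → Finset (Fin d → ℤ), Bd = fun x l => Ex.filter (fun m =>
      √(max 1 (∑ a ∈ I x l, Prob d (q l a) (T l a))) * (x : ℝ) ^ δ <
      |(((I x l).filter (fun a => T l a m)).card : ℝ) - ∑ a ∈ I x l, Prob d (q l a) (T l a)|) := ⟨_, rfl⟩
  obtain ⟨X, hX⟩ : ∃ X : Finset ℕ, X = (Icc 1 ⌊(N : ℝ) ^ κ⌋₊).filter (fun x : ℕ => Real.log N ^ (2 / δ) ≤ (x : ℝ)) := ⟨_, rfl⟩
  have hXx : ∀ x ∈ X, 2 ≤ x ∧ Real.log N ≤ (x : ℝ) ^ (δ / 2) ∧ 8 * B * Real.log x ≤ Real.log N ∧ (x : ℝ) ≤ (N : ℝ) ^ κ := by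
    intro x hx
    rw [hX, mem_filter, mem_Icc] at hx
    obtain ⟨⟨h1, h2⟩, h3⟩ := hx
    have h4 : (x : ℝ) ≤ (N : ℝ) ^ κ := (Nat.le_floor_iff (by positivity)).1 h2
    have hx0 : (0 : ℝ) < x := by exact_mod_cast h1
    have h5 : (2 : ℝ) ≤ x := by
      calc (2 : ℝ) = ((2 : ℝ) ^ (δ / 2)) ^ (2 / δ) := by
            rw [← Real.rpow_mul (by norm_num)]
            rw [show δ / 2 * (2 / δ) = 1 by field_simp, Real.rpow_one]
        _ ≤ (Real.log N) ^ (2 / δ) := Real.rpow_le_rpow (by positivity) hN4 (by positivity)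
        _ ≤ x := h3
    refine ⟨by exact_mod_cast h5, ?_, ?_, h4⟩
    · calc Real.log N = ((Real.log N) ^ (2 / δ)) ^ (δ / 2) := by
            rw [← Real.rpow_mul hlogN.le]
            rw [show 2 / δ * (δ / 2) = 1 by field_simp, Real.rpow_one]
        _ ≤ (x : ℝ) ^ (δ / 2) := Real.rpow_le_rpow (by positivity) h3 (by positivity)
    · have h6 : Real.log x ≤ κ * Real.log N := by
        rw [← Real.log_rpow hN0]
        exact Real.log_le_log hx0 h4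
      have h7 : κ * (8 * B) ≤ 1 := by
        have := hκ2
        rw [le_div_iff₀ (by positivity)] at this
        exact this
      calc 8 * B * Real.log x ≤ 8 * B * (κ * Real.log N) := by gcongr
        _ = (κ * (8 * B)) * Real.log N := by ring
        _ ≤ 1 * Real.log N := mul_le_mul_of_nonneg_right h7 hlogN.le
        _ = Real.log N := one_mul _
  have hcov : Ex ⊆ X.biUnion (fun x => (Λ x).biUnion (fun l => Bd x l)) := by
    intro m hm
    obtain ⟨x, h1, h2, l, hl, h3⟩ := hExb m hm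
    have hx1 : 1 ≤ x := by
      by_contra h
      have : x = 0 := by omega
      rw [this, Nat.cast_zero] at h1
      have h4 : 0 < Real.log N ^ (2 / δ) := by positivity
      linarith
    rw [mem_biUnion]
    refine ⟨x, ?_, ?_⟩
    · rw [hX, mem_filter, mem_Icc]
      exact ⟨⟨hx1, (Nat.le_floor_iff (by positivity)).2 h2⟩, h1⟩
    · rw [mem_biUnion]
      refine ⟨l, hl, ?_⟩
      rw [hBd, mem_filter]
      exact ⟨hm, h3⟩
  have hone : ∀ x ∈ X, ∀ l ∈ Λ x, ((Bd x l).card : ℝ) ≤ W := by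
    intro x hx l hl
    obtain ⟨h1, h2, h3, -⟩ := hXx x hx
    rw [hW]
    refine level δ hδ B hB N x (by omega) h1 h2 h3 (I x l) (q l) (hq x l hl) (hcop x l hl) (T l) (hT x l hl) M L hL (Bd x l)
      (fun m hm => ?_) (fun m hm => ?_)
    · rw [hBd, mem_filter] at hm
      exact hEx m hm.1
    · rw [hBd, mem_filter] at hm
      exact hm.2
  have hcard : (Ex.card : ℝ) ≤ (N : ℝ) ^ κ * ((N : ℝ) ^ (κ * |A|) * W) := by
    have h1 : (Ex.card : ℝ) ≤ ∑ x ∈ X, ∑ l ∈ Λ x, ((Bd x l).card : ℝ) := by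
      have h2 := (card_le_card hcov).trans (card_biUnion_le.trans (sum_le_sum fun x _ => card_biUnion_le))
      exact_mod_cast h2
    have h2 : ∀ x ∈ X, ∑ l ∈ Λ x, ((Bd x l).card : ℝ) ≤ (N : ℝ) ^ (κ * |A|) * W := by
      intro x hx
      obtain ⟨hx2, -, -, hx4⟩ := hXx x hx
      have hx1 : (1 : ℝ) ≤ x := by exact_mod_cast (by omega : 1 ≤ x)
      calc ∑ l ∈ Λ x, ((Bd x l).card : ℝ) ≤ ∑ _l ∈ Λ x, W := sum_le_sum (hone x hx)
        _ = (Λ x).card * W := by rw [sum_const, nsmul_eq_mul]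
        _ ≤ (N : ℝ) ^ (κ * |A|) * W := by
            apply mul_le_mul_of_nonneg_right _ hW0
            calc ((Λ x).card : ℝ) ≤ (x : ℝ) ^ A := hΛ x hx2
              _ ≤ (x : ℝ) ^ |A| := Real.rpow_le_rpow_of_exponent_le hx1 (le_abs_self A)
              _ ≤ ((N : ℝ) ^ κ) ^ |A| := Real.rpow_le_rpow (by linarith) hx4 hA0
              _ = (N : ℝ) ^ (κ * |A|) := (Real.rpow_mul hN0.le _ _).symm
    have h3 : (X.card : ℝ) ≤ (N : ℝ) ^ κ := by
      have h4 : X.card ≤ ⌊(N : ℝ) ^ κ⌋₊ := by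
        rw [hX]
        refine (card_filter_le _ _).trans ?_
        rw [Nat.card_Icc, Nat.add_sub_cancel]
      exact le_trans (by exact_mod_cast h4) (Nat.floor_le (by positivity))
    calc (Ex.card : ℝ) ≤ ∑ x ∈ X, ∑ l ∈ Λ x, ((Bd x l).card : ℝ) := h1
      _ ≤ ∑ _x ∈ X, (N : ℝ) ^ (κ * |A|) * W := sum_le_sum h2
      _ = X.card * ((N : ℝ) ^ (κ * |A|) * W) := by rw [sum_const, nsmul_eq_mul]
      _ ≤ _ := mul_le_mul_of_nonneg_right h3 (by positivity)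
  refine hcard.trans ?_
  have hWle : W ≤ ((6 + 2 * d) * (N : ℝ) ^ (-η)) * ∏ i, (L i : ℝ) := by
    rw [hW]
    apply mul_le_mul_of_nonneg_right _ hP0
    have h1 : (N : ℝ) ^ (-(δ / (16 * B))) ≤ (N : ℝ) ^ (-η) := Real.rpow_le_rpow_of_exponent_le hN1 (by linarith)
    have h2 : (N : ℝ) ^ (-(1 / 2 : ℝ)) ≤ (N : ℝ) ^ (-η) := Real.rpow_le_rpow_of_exponent_le hN1 (by linarith)
    have hd0 : (0 : ℝ) ≤ 2 * d := by positivity
    nlinarith
  have hfin : (N : ℝ) ^ κ * ((N : ℝ) ^ (κ * |A|) * ((6 + 2 * d) * (N : ℝ) ^ (-η))) ≤ (N : ℝ) ^ (-κ) := by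
    have h1 : (6 + 2 * (d : ℝ)) ≤ (N : ℝ) ^ (η / 2) := hN3
    calc (N : ℝ) ^ κ * ((N : ℝ) ^ (κ * |A|) * ((6 + 2 * d) * (N : ℝ) ^ (-η))) ≤
        (N : ℝ) ^ κ * ((N : ℝ) ^ (κ * |A|) * ((N : ℝ) ^ (η / 2) * (N : ℝ) ^ (-η))) := by gcongr
      _ = (N : ℝ) ^ (κ + (κ * |A| + (η / 2 + -η))) := by
          rw [Real.rpow_add hN0, Real.rpow_add hN0, Real.rpow_add hN0]
      _ ≤ (N : ℝ) ^ (-κ) := by
          apply Real.rpow_le_rpow_of_exponent_le hN1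
          nlinarith
  calc (N : ℝ) ^ κ * ((N : ℝ) ^ (κ * |A|) * W) ≤
      (N : ℝ) ^ κ * ((N : ℝ) ^ (κ * |A|) * (((6 + 2 * d) * (N : ℝ) ^ (-η)) * ∏ i, (L i : ℝ))) := by gcongr
    _ = ((N : ℝ) ^ κ * ((N : ℝ) ^ (κ * |A|) * ((6 + 2 * d) * (N : ℝ) ^ (-η)))) * ∏ i, (L i : ℝ) := by ring
    _ ≤ _ := mul_le_mul_of_nonneg_right hfin hP0

end Pool.Agent.X35.GV
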