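import Pool.Agent.X35.GV.Twist
import Pool.Agent.X35.GM.Seq2

/-! The sums `∑_t χ(g(t) - n) u_p(t)` as functions of the integer `n`, weights `p ^ (- i τ)` and the sums over the odd primes. -/

set_option autoImplicit false

namespace Pool.Agent.X35.GV
open Finset Polynomial

open Classical in
/-- `∑_t χ(g(t) - n) u_p(t)` for `p` prime, `0` otherwise -/
noncomputable def G (p : ℕ) (g : ℤ[X]) (u : (p : ℕ) → ZMod p → ℝ) (n : ℤ) : ℝ :=
  if hp : p.Prime then (haveI := Fact.mk hp; tw (fun t : ZMod p => (g.map (Int.castRingHom (ZMod p))).eval t) (u p) (n : ZMod p)) else 0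

lemma G_eq (p : ℕ) [hp : Fact p.Prime] (g : ℤ[X]) (u : (p : ℕ) → ZMod p → ℝ) (n : ℤ) :
    G p g u n = tw (fun t : ZMod p => (g.map (Int.castRingHom (ZMod p))).eval t) (u p) (n : ZMod p) := by
  unfold G
  rw [dif_pos hp.out]

/-- the odd primes up to `x` -/
def op (x : ℕ) : Finset ℕ := (range (x + 1)).filter (fun p => p.Prime ∧ p ≠ 2)

lemma mem_op {x p : ℕ} : p ∈ op x ↔ p ≤ x ∧ p.Prime ∧ p ≠ 2 := by
  unfold op
  rw [mem_filter, mem_range]
  constructor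
  · rintro ⟨h1, h2⟩
    exact ⟨by omega, h2⟩
  · rintro ⟨h1, h2⟩
    exact ⟨by omega, h2⟩

lemma op_log {x p : ℕ} (h : p ∈ op x) : (1 : ℝ) < p ∧ (p : ℝ) ≤ x ∧ 0 < Real.log p ∧ Real.log p ≤ Real.log x ∧ 0 < Real.log x := by
  rw [mem_op] at h
  have h1 : (1 : ℝ) < p := by exact_mod_cast h.2.1.one_lt
  have h2 : (p : ℝ) ≤ x := by exact_mod_cast h.1
  exact ⟨h1, h2, Real.log_pos h1, Real.log_le_log (by linarith) h2, Real.log_pos (by linarith)⟩

lemma op_sub (x : ℕ) : op x ⊆ Icc 1 x := by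
  intro p hp
  rw [mem_op] at hp
  rw [mem_Icc]
  exact ⟨hp.2.1.one_lt.le, hp.1⟩

lemma op_card (x : ℕ) : ((op x).card : ℝ) ≤ x := by
  have h := card_le_card (op_sub x)
  rw [Nat.card_Icc, Nat.add_sub_cancel] at h
  exact_mod_cast h

lemma op_harmonic (x : ℕ) : ∑ p ∈ op x, (1 : ℝ) / p ≤ 1 + Real.log x := by
  have h2 : ∑ p ∈ op x, (1 / p : ℝ) ≤ ∑ p ∈ Icc 1 x, (1 / p : ℝ) :=
    sum_le_sum_of_subset_of_nonneg (op_sub x) fun i _ _ => by positivity
  have h3 := harmonic_le_one_add_log x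
  rw [harmonic_eq_sum_Icc] at h3
  push_cast at h3
  simp only [one_div] at h2 ⊢
  linarith

section
variable (p : ℕ) (hp : p.Prime) (h2 : p ≠ 2) (g : ℤ[X]) (hg : g.Monic) (hg1 : 1 ≤ g.natDegree) (u : (p : ℕ) → ZMod p → ℝ)
  (U : ℝ) (hU : 0 < U) (hu : ∀ t, |u p t| ≤ U) (r : ℝ) (hr : |r| ≤ 1)
include hp

lemma G_per (m m' : ℤ) (h : m ≡ m' [ZMOD (p : ℕ)]) : G p g u m = G p g u m' := by
  have := Fact.mk hp
  have h4 : ((m : ℤ) : ZMod p) = (m' : ZMod p) := (ZMod.intCast_eq_intCast_iff m m' p).2 h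
  rw [G_eq, G_eq, h4]

include hU hu hr
lemma G_abs (m : ℤ) : |r * (G p g u m / (p * U))| ≤ 1 := by
  have := Fact.mk hp
  have hp0 : (0 : ℝ) < p := by exact_mod_cast hp.pos
  have h5 := tw_abs (fun t : ZMod p => (g.map (Int.castRingHom (ZMod p))).eval t) (u p) U hu (m : ZMod p)
  rw [G_eq, abs_mul, abs_div, abs_of_pos (by positivity : (0 : ℝ) < p * U)]
  exact mul_le_one₀ hr (by positivity) ((div_le_one (by positivity)).2 h5)

include h2 in
omit hU hu hr in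
lemma G_mean : avg p (fun m => r * (G p g u m / (p * U))) = 0 := by
  have := Fact.mk hp
  have h5 := avg_zmod (p := p) (fun m => r * (G p g u m / (p * U)))
    (fun n => tw (fun t : ZMod p => (g.map (Int.castRingHom (ZMod p))).eval t) (u p) n * (r / (p * U))) (by
      intro n
      rw [G_eq]
      ring)
  rw [h5, ← sum_mul, tw_mean h2, zero_mul, zero_div]

include h2 hg hg1 in
omit hr in
lemma G_sq : avg p (fun m => (r * (G p g u m / (p * U))) ^ 2) ≤ r ^ 2 * g.natDegree / p := by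
  have := Fact.mk hp
  have hp0 : (0 : ℝ) < p := by exact_mod_cast hp.pos
  have h5 := avg_zmod (p := p) (fun m => (r * (G p g u m / (p * U))) ^ 2)
    (fun n => tw (fun t : ZMod p => (g.map (Int.castRingHom (ZMod p))).eval t) (u p) n ^ 2 * (r / (p * U)) ^ 2) (by
      intro n
      rw [G_eq]
      ring)
  have h6 := tw_sq h2 (fun t : ZMod p => (g.map (Int.castRingHom (ZMod p))).eval t) g.natDegree (fibre_card g hg hg1) (u p) U hu
  rw [h5, ← sum_mul]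
  apply div_le_div_of_nonneg_right _ hp0.le
  calc _ ≤ (g.natDegree * (p : ℝ) ^ 2 * U ^ 2) * (r / (p * U)) ^ 2 := mul_le_mul_of_nonneg_right h6 (sq_nonneg _)
    _ = _ := by field_simp

end

/-- the trace of `y² = h(x, t)` -/
noncomputable def tr1 (h : ℤ[X][X]) (p : ℕ) (t : ZMod p) : ℝ :=
  (((p : ℤ) - Nat.card {P : ZMod p × ZMod p // 1 * P.2 ^ 2 = (h.map (eval₂RingHom (Int.castRingHom (ZMod p)) t)).eval P.1} : ℤ) : ℝ)

lemma tr1_eq (h : ℤ[X][X]) (p : ℕ) [Fact p.Prime] (t : ZMod p) : tr1 h p t = tr0 h t := rfl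

lemma tr1_bound (h : ℤ[X][X]) (hm : h.Monic) (ho : Odd h.natDegree) (p : ℕ) (hp : p.Prime) (h2 : p ≠ 2) (t : ZMod p) :
    |tr1 h p t| ≤ h.natDegree * √p := by
  have := Fact.mk hp
  rw [tr1_eq]
  exact tr0_bound h2 h hm ho t

/-- **weights** covering all `p ^ (- i τ)`, `|τ| ≤ x ^ A` -/
theorem heights (A : ℝ) (hA : 0 ≤ A) : ∃ W : ℕ → Finset (ℕ → ℝ), (∀ x, 2 ≤ x → ((W x).card : ℝ) ≤ (x : ℝ) ^ (A + 6)) ∧
    (∀ x, ∀ w ∈ W x, ∀ p, |w p| ≤ 1) ∧
    ∀ x : ℕ, 2 ≤ x → ∀ (c : ℕ → ℝ) (K S : ℝ), 0 ≤ K → (∀ p ∈ op x, |c p| ≤ K) → (∀ w ∈ W x, |∑ p ∈ op x, w p * c p| ≤ S) →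
      ∀ τ : ℝ, |τ| ≤ (x : ℝ) ^ A → ‖∑ p ∈ op x, (c p : ℂ) * (p : ℂ) ^ (-(τ * Complex.I))‖ ≤ 2 * S + 2 * K := by
  classical
  obtain ⟨J, hJ⟩ : ∃ J : ℕ → Finset ℤ, J = fun (x : ℕ) => Icc (-⌈(x : ℝ) ^ (A + 2)⌉) ⌈(x : ℝ) ^ (A + 2)⌉ := ⟨_, rfl⟩
  obtain ⟨W, hW⟩ : ∃ W : ℕ → Finset (ℕ → ℝ), W = fun (x : ℕ) => (J x).image (fun (j : ℤ) (p : ℕ) => Real.cos ((j : ℝ) / (x : ℝ) ^ 2 * Real.log p)) ∪
      (J x).image (fun (j : ℤ) (p : ℕ) => Real.sin ((j : ℝ) / (x : ℝ) ^ 2 * Real.log p)) := ⟨_, rfl⟩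
  refine ⟨W, ?_, ?_, ?_⟩
  · intro x hx
    have hxr : (2 : ℝ) ≤ x := by exact_mod_cast hx
    have hx0 : (0 : ℝ) < x := by linarith
    have h1 : (1 : ℝ) ≤ (x : ℝ) ^ (A + 2) := Real.one_le_rpow (by linarith) (by linarith)
    have h2 : ((J x).card : ℝ) ≤ 5 * (x : ℝ) ^ (A + 2) := by
      rw [hJ, Int.card_Icc]
      have h3 := Int.ceil_lt_add_one ((x : ℝ) ^ (A + 2))
      have h4 : (0 : ℤ) ≤ ⌈(x : ℝ) ^ (A + 2)⌉ := Int.ceil_nonneg (by linarith)
      have h5 : ((⌈(x : ℝ) ^ (A + 2)⌉ + 1 - -⌈(x : ℝ) ^ (A + 2)⌉).toNat : ℤ) = ⌈(x : ℝ) ^ (A + 2)⌉ + 1 - -⌈(x : ℝ) ^ (A + 2)⌉ :=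
        Int.toNat_of_nonneg (by omega)
      have h6 : ((⌈(x : ℝ) ^ (A + 2)⌉ + 1 - -⌈(x : ℝ) ^ (A + 2)⌉).toNat : ℝ) = ⌈(x : ℝ) ^ (A + 2)⌉ + 1 - -⌈(x : ℝ) ^ (A + 2)⌉ := by
        exact_mod_cast h5
      rw [h6]
      linarith
    have h7 : ((W x).card : ℝ) ≤ 10 * (x : ℝ) ^ (A + 2) := by
      rw [hW]
      have h8 : ((J x).image (fun (j : ℤ) (p : ℕ) => Real.cos ((j : ℝ) / (x : ℝ) ^ 2 * Real.log p)) ∪
        (J x).image (fun (j : ℤ) (p : ℕ) => Real.sin ((j : ℝ) / (x : ℝ) ^ 2 * Real.log p))).card ≤ (J x).card + (J x).card :=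
        (card_union_le _ _).trans (add_le_add card_image_le card_image_le)
      have h9 : (((J x).image (fun (j : ℤ) (p : ℕ) => Real.cos ((j : ℝ) / (x : ℝ) ^ 2 * Real.log p)) ∪
        (J x).image (fun (j : ℤ) (p : ℕ) => Real.sin ((j : ℝ) / (x : ℝ) ^ 2 * Real.log p))).card : ℝ) ≤ (J x).card + (J x).card := by
        exact_mod_cast h8
      show ((((J x).image (fun (j : ℤ) (p : ℕ) => Real.cos ((j : ℝ) / (x : ℝ) ^ 2 * Real.log p)) ∪
        (J x).image (fun (j : ℤ) (p : ℕ) => Real.sin ((j : ℝ) / (x : ℝ) ^ 2 * Real.log p))).card : ℕ) : ℝ) ≤ _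
      linarith
    refine h7.trans ?_
    rw [show A + 6 = (A + 2) + (4 : ℕ) by push_cast; ring, Real.rpow_add hx0 (A + 2) ((4 : ℕ) : ℝ), Real.rpow_natCast]
    have h8 : (16 : ℝ) ≤ (x : ℝ) ^ 4 := by
      calc (16 : ℝ) = 2 ^ 4 := by norm_num
        _ ≤ (x : ℝ) ^ 4 := pow_le_pow_left₀ (by norm_num) hxr 4
    nlinarith
  · intro x w hw p
    rw [hW] at hw
    simp only [mem_union, mem_image] at hw
    rcases hw with ⟨j, _, rfl⟩ | ⟨j, _, rfl⟩
    · exact Real.abs_cos_le_one _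
    · exact Real.abs_sin_le_one _
  · intro x hx c K S hK hc hS τ hτ
    have hxr : (2 : ℝ) ≤ x := by exact_mod_cast hx
    have hx0 : (0 : ℝ) < x := by linarith
    obtain ⟨j, hj⟩ : ∃ j : ℤ, j = ⌊τ * (x : ℝ) ^ 2⌋ := ⟨_, rfl⟩
    have hxx : (x : ℝ) ^ (A + 2) = (x : ℝ) ^ A * (x : ℝ) ^ 2 := by
      rw [show A + 2 = A + (2 : ℕ) by push_cast; ring, Real.rpow_add hx0, Real.rpow_natCast]
    have hjJ : j ∈ J x := by
      rw [hJ]
      show j ∈ Icc _ _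
      rw [mem_Icc]
      have h1 := abs_le.1 hτ
      have hx2 : (0 : ℝ) < (x : ℝ) ^ 2 := by positivity
      constructor
      · rw [hj, Int.le_floor]
        push_cast
        have h2 := Int.le_ceil ((x : ℝ) ^ (A + 2))
        have h3 : -((x : ℝ) ^ A * (x : ℝ) ^ 2) ≤ τ * (x : ℝ) ^ 2 := by nlinarith
        linarith
      · have h2 := Int.le_ceil ((x : ℝ) ^ (A + 2))
        have h3 : τ * (x : ℝ) ^ 2 ≤ (x : ℝ) ^ A * (x : ℝ) ^ 2 := by nlinarith
        have h4 : (j : ℝ) ≤ τ * (x : ℝ) ^ 2 := by rw [hj]; exact Int.floor_le _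
        have h5 : (j : ℝ) ≤ (⌈(x : ℝ) ^ (A + 2)⌉ : ℝ) := by linarith
        exact_mod_cast h5
    have hcos := hS (fun p => Real.cos ((j : ℝ) / (x : ℝ) ^ 2 * Real.log p)) (by
      rw [hW]
      exact mem_union_left _ (mem_image_of_mem _ hjJ))
    have hsin := hS (fun p => Real.sin ((j : ℝ) / (x : ℝ) ^ 2 * Real.log p)) (by
      rw [hW]
      exact mem_union_right _ (mem_image_of_mem _ hjJ))
    have hclose : ∀ p ∈ op x, |τ * Real.log p - (j : ℝ) / (x : ℝ) ^ 2 * Real.log p| ≤ 1 / x := by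
      intro p hp
      obtain ⟨q1, q2, q3, q4, q5⟩ := op_log hp
      have h1 : (j : ℝ) ≤ τ * (x : ℝ) ^ 2 := by rw [hj]; exact Int.floor_le _
      have h2 : τ * (x : ℝ) ^ 2 < j + 1 := by rw [hj]; exact Int.lt_floor_add_one _
      have hx2 : (0 : ℝ) < (x : ℝ) ^ 2 := by positivity
      have h3 : |τ - (j : ℝ) / (x : ℝ) ^ 2| ≤ 1 / (x : ℝ) ^ 2 := by
        have h4 : τ - (j : ℝ) / (x : ℝ) ^ 2 = (τ * (x : ℝ) ^ 2 - j) / (x : ℝ) ^ 2 := by field_simp
        rw [h4, abs_div, abs_of_pos hx2]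
        apply div_le_div_of_nonneg_right _ hx2.le
        rw [abs_le]
        constructor <;> linarith
      rw [← sub_mul, abs_mul, abs_of_pos q3]
      have h5 : Real.log p ≤ x := by
        have := Real.log_le_self hx0.le
        linarith
      calc |τ - (j : ℝ) / (x : ℝ) ^ 2| * Real.log p ≤ (1 / (x : ℝ) ^ 2) * x := mul_le_mul h3 h5 q3.le (by positivity)
        _ = 1 / x := by field_simp
    have hsumK : ∀ (f f' : ℕ → ℝ), (∀ p ∈ op x, |f p - f' p| ≤ 1 / x) → |∑ p ∈ op x, f p * c p| ≤ |∑ p ∈ op x, f' p * c p| + K := by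
      intro f f' hff
      have h1 : ∑ p ∈ op x, f p * c p = ∑ p ∈ op x, f' p * c p + ∑ p ∈ op x, (f p - f' p) * c p := by
        rw [← sum_add_distrib]
        exact sum_congr rfl fun p _ => by ring
      rw [h1]
      refine (abs_add_le _ _).trans ?_
      have h2 : |∑ p ∈ op x, (f p - f' p) * c p| ≤ K := by
        refine (abs_sum_le_sum_abs _ _).trans ?_
        calc ∑ p ∈ op x, |(f p - f' p) * c p| ≤ ∑ _p ∈ op x, (1 / x) * K := by
              refine sum_le_sum fun p hp => ?_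
              rw [abs_mul]
              exact mul_le_mul (hff p hp) (hc p hp) (abs_nonneg _) (by positivity)
          _ = ((op x).card : ℝ) * ((1 / x) * K) := by rw [sum_const, nsmul_eq_mul]
          _ ≤ x * ((1 / x) * K) := mul_le_mul_of_nonneg_right (op_card x) (by positivity)
          _ = K := by field_simp
      linarith
    have hC := hsumK (fun p => Real.cos (τ * Real.log p)) (fun p => Real.cos ((j : ℝ) / (x : ℝ) ^ 2 * Real.log p))
      (fun p hp => (Real.abs_cos_sub_cos_le _ _).trans (hclose p hp))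
    have hSn := hsumK (fun p => Real.sin (τ * Real.log p)) (fun p => Real.sin ((j : ℝ) / (x : ℝ) ^ 2 * Real.log p))
      (fun p hp => (Real.abs_sin_sub_sin_le _ _).trans (hclose p hp))
    have hmain : ∑ p ∈ op x, (c p : ℂ) * (p : ℂ) ^ (-(τ * Complex.I)) =
        ((∑ p ∈ op x, Real.cos (τ * Real.log p) * c p : ℝ) : ℂ) - ((∑ p ∈ op x, Real.sin (τ * Real.log p) * c p : ℝ) : ℂ) * Complex.I := by
      push_cast
      rw [sum_mul, ← sum_sub_distrib]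
      refine sum_congr rfl fun p hp => ?_
      obtain ⟨q1, q2, q3, q4, q5⟩ := op_log hp
      have hpc : (p : ℂ) ≠ 0 := by
        have : (p : ℝ) ≠ 0 := by linarith
        exact_mod_cast this
      rw [Complex.cpow_def_of_ne_zero hpc, ← Complex.natCast_log]
      have h1 : ((Real.log p : ℝ) : ℂ) * -((τ : ℂ) * Complex.I) = ((-(τ * Real.log p) : ℝ) : ℂ) * Complex.I := by
        push_cast
        ring
      rw [h1, Complex.exp_mul_I, ← Complex.ofReal_cos, ← Complex.ofReal_sin, Real.cos_neg, Real.sin_neg]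
      push_cast
      ring
    rw [hmain]
    refine (norm_sub_le _ _).trans ?_
    rw [norm_mul, Complex.norm_I, mul_one, Complex.norm_real, Complex.norm_real, Real.norm_eq_abs, Real.norm_eq_abs]
    linarith

end Pool.Agent.X35.GV
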