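import Pool.Agent.X35.GV.LawZ

/-! The law for several pairs of integers in boxes. -/

set_option autoImplicit false

namespace Pool.Agent.X35.GV
open Finset

open Classical in
/-- the proportion of the pairs of residues with a property -/
noncomputable def prob2 (q : ℕ) (S : ℤ → ℤ → Prop) : ℝ :=
  (((range q ×ˢ range q).filter (fun ab : ℕ × ℕ => S ab.1 ab.2)).card : ℝ) / (q : ℝ) ^ 2

lemma prob2_nonneg (q : ℕ) (S : ℤ → ℤ → Prop) : 0 ≤ prob2 q S := by unfold prob2; positivity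

/-- the position of a coordinate -/
def pos {r : ℕ} (j : Fin r) (c : Fin 2) : Fin (r * 2) := finProdFinEquiv (j, c)

lemma exists_pos {r : ℕ} (i : Fin (r * 2)) : ∃ j c, i = pos (r := r) j c :=
  ⟨(finProdFinEquiv.symm i).1, (finProdFinEquiv.symm i).2, (finProdFinEquiv.apply_symm_apply i).symm⟩

/-- a vector from pairs -/
def enc {r : ℕ} {α : Type*} (m : Fin r → α × α) (i : Fin (r * 2)) : α :=
  if (finProdFinEquiv.symm i).2 = 0 then (m (finProdFinEquiv.symm i).1).1 else (m (finProdFinEquiv.symm i).1).2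

lemma enc_zero {r : ℕ} {α : Type*} (m : Fin r → α × α) (j : Fin r) : enc m (pos j 0) = (m j).1 := by
  simp [enc, pos]

lemma enc_one {r : ℕ} {α : Type*} (m : Fin r → α × α) (j : Fin r) : enc m (pos j 1) = (m j).2 := by
  simp [enc, pos]

/-- the pairs of a vector -/
def dec {r : ℕ} {α : Type*} (n : Fin (r * 2) → α) (j : Fin r) : α × α := (n (pos j 0), n (pos j 1))

lemma dec_enc {r : ℕ} {α : Type*} (m : Fin r → α × α) : dec (enc m) = m := by
  funext j
  unfold dec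
  rw [enc_zero, enc_one]

lemma enc_dec {r : ℕ} {α : Type*} (n : Fin (r * 2) → α) : enc (dec n) = n := by
  funext i
  obtain ⟨j, c, rfl⟩ := exists_pos i
  fin_cases c
  · exact enc_zero _ _
  · exact enc_one _ _

open Classical in
lemma Prob_pairs {r : ℕ} (q : ℕ) (S : Fin r → ℤ → ℤ → Prop) :
    Prob (r * 2) q (fun m => ∀ j, S j (m (pos j 0)) (m (pos j 1))) = ∏ j, prob2 q (S j) := by
  unfold Prob prob2
  rw [prod_div_distrib, prod_const, card_univ, Fintype.card_fin, ← pow_mul, mul_comm 2 r]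
  congr 1
  have h : ((Fintype.piFinset (fun _ : Fin (r * 2) => range q)).filter (fun n =>
      ∀ j, S j ((n (pos j 0) : ℕ) : ℤ) ((n (pos j 1) : ℕ) : ℤ))).card =
      (Fintype.piFinset (fun j : Fin r => (range q ×ˢ range q).filter (fun ab : ℕ × ℕ => S j ab.1 ab.2))).card := by
    refine card_bij' (fun n _ => dec n) (fun m _ => enc m) ?_ ?_ ?_ ?_
    · intro n hn
      rw [mem_filter, Fintype.mem_piFinset] at hn
      rw [Fintype.mem_piFinset]
      intro j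
      rw [mem_filter, mem_product]
      exact ⟨⟨hn.1 _, hn.1 _⟩, hn.2 j⟩
    · intro m hm
      rw [Fintype.mem_piFinset] at hm
      rw [mem_filter, Fintype.mem_piFinset]
      constructor
      · intro i
        obtain ⟨j, c, rfl⟩ := exists_pos i
        have h1 := hm j
        rw [mem_filter, mem_product] at h1
        fin_cases c
        · show enc m (pos j 0) ∈ range q
          rw [enc_zero]
          exact h1.1.1
        · show enc m (pos j 1) ∈ range q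
          rw [enc_one]
          exact h1.1.2
      · intro j
        rw [enc_zero, enc_one]
        exact (mem_filter.1 (hm j)).2
    · intro n _
      exact enc_dec n
    · intro m _
      exact dec_enc m
  rw [Fintype.card_piFinset] at h
  have h' : ∀ k k' : ℕ, k = k' → (k : ℝ) = k' := fun k k' h => by rw [h]
  refine (h' _ (∏ j, ((range q ×ˢ range q).filter (fun ab : ℕ × ℕ => S j ab.1 ab.2)).card) ?_).trans ?_
  · convert h using 2
    ext n
    simp only [mem_filter]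
  · push_cast
    rfl

open Classical in
/-- the law for `r` pairs -/
theorem lawP (r : ℕ) (δ A : ℝ) (B : ℕ) (hδ : 0 < δ) (hB : 1 ≤ B) : ∃ κ : ℝ, 0 < κ ∧ κ ≤ 1 / 2 ∧ ∃ N₀ : ℕ, ∀ N : ℕ, N₀ ≤ N →
    ∀ (Ka : Type) (Λ : ℕ → Finset Ka), (∀ x, 2 ≤ x → ((Λ x).card : ℝ) ≤ (x : ℝ) ^ A) →
    ∀ (ι : Type) (I : ℕ → Ka → Finset ι) (q : Ka → ι → ℕ), (∀ x, ∀ l ∈ Λ x, ∀ a ∈ I x l, 2 ≤ q l a ∧ q l a ≤ x ^ B) →
    (∀ x, ∀ l ∈ Λ x, ∀ a ∈ I x l, ∀ a' ∈ I x l, a ≠ a' → Nat.Coprime (q l a) (q l a')) →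
    ∀ S : Ka → ι → Fin r → ℤ → ℤ → Prop, (∀ x, ∀ l ∈ Λ x, ∀ a ∈ I x l, ∀ (j : Fin r) (u u' w w' : ℤ),
      u ≡ u' [ZMOD (q l a : ℕ)] → w ≡ w' [ZMOD (q l a : ℕ)] → (S l a j u w ↔ S l a j u' w')) →
    ∀ (M : Fin r → ℤ × ℤ) (L : Fin r → ℕ × ℕ), (∀ j, N ≤ (L j).1 ∧ N ≤ (L j).2) →
    ∀ Ex : Finset (Fin r → ℤ × ℤ), (∀ m ∈ Ex, ∀ j, ((M j).1 ≤ (m j).1 ∧ (m j).1 < (M j).1 + (L j).1) ∧
      (M j).2 ≤ (m j).2 ∧ (m j).2 < (M j).2 + (L j).2) →
    (∀ m ∈ Ex, ∃ x : ℕ, Real.log N ^ (2 / δ) ≤ x ∧ (x : ℝ) ≤ (N : ℝ) ^ κ ∧ ∃ l ∈ Λ x,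
      √(max 1 (∑ a ∈ I x l, ∏ j, prob2 (q l a) (S l a j))) * (x : ℝ) ^ δ <
      |(((I x l).filter (fun a => ∀ j, S l a j (m j).1 (m j).2)).card : ℝ) - ∑ a ∈ I x l, ∏ j, prob2 (q l a) (S l a j)|) →
    (Ex.card : ℝ) ≤ (N : ℝ) ^ (-κ) * ∏ j, (((L j).1 : ℝ) * (L j).2) := by
  obtain ⟨κ, hκ, hκ1, N₀, H⟩ := law (r * 2) δ A B hδ hB
  refine ⟨κ, hκ, hκ1, N₀, fun N hN Ka Λ hΛ ι I q hq hcop S hS M L hL Ex hEx hExb => ?_⟩
  have hinj : Function.Injective (enc : (Fin r → ℤ × ℤ) → (Fin (r * 2) → ℤ)) := by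
    intro m m' h
    rw [← dec_enc m, ← dec_enc m', h]
  have h1 := H N hN Ka Λ hΛ ι I q hq hcop (fun l a m => ∀ j, S l a j (m (pos j 0)) (m (pos j 1))) (by
    intro x l hl a ha m m' h
    exact forall_congr' fun j => hS x l hl a ha j _ _ _ _ (h _) (h _)) (enc M) (enc L) (by
    intro i
    obtain ⟨j, c, rfl⟩ := exists_pos i
    fin_cases c
    · show N ≤ enc L (pos j 0)
      rw [enc_zero]
      exact (hL j).1
    · show N ≤ enc L (pos j 1)
      rw [enc_one]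
      exact (hL j).2) (Ex.image enc) (by
    intro m hm i
    rw [mem_image] at hm
    obtain ⟨n, hn, rfl⟩ := hm
    obtain ⟨j, c, rfl⟩ := exists_pos i
    have h2 := hEx n hn j
    fin_cases c
    · show enc M (pos j 0) ≤ enc n (pos j 0) ∧ enc n (pos j 0) < enc M (pos j 0) + enc L (pos j 0)
      rw [enc_zero, enc_zero, enc_zero]
      exact h2.1
    · show enc M (pos j 1) ≤ enc n (pos j 1) ∧ enc n (pos j 1) < enc M (pos j 1) + enc L (pos j 1)
      rw [enc_one, enc_one, enc_one]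
      exact h2.2) (by
    intro m hm
    rw [mem_image] at hm
    obtain ⟨n, hn, rfl⟩ := hm
    obtain ⟨x, hx1, hx2, l, hl, h⟩ := hExb n hn
    refine ⟨x, hx1, hx2, l, hl, ?_⟩
    simp only [Prob_pairs, enc_zero, enc_one]
    exact h)
  rw [card_image_of_injective _ hinj] at h1
  refine h1.trans (le_of_eq ?_)
  congr 1
  rw [← (finProdFinEquiv (m := r) (n := 2)).prod_comp, Fintype.prod_prod_type]
  refine prod_congr rfl fun j _ => ?_
  rw [Fin.prod_univ_two]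
  have e0 : enc L (finProdFinEquiv (j, 0)) = (L j).1 := enc_zero L j
  have e1 : enc L (finProdFinEquiv (j, 1)) = (L j).2 := enc_one L j
  rw [e0, e1]

end Pool.Agent.X35.GV
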