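import Pool.Agent.X35.GV.TwistT

/-! The law for all pencils of twists over affine spaces, for all integers near a thin sequence. -/

set_option autoImplicit false

namespace Pool.Agent.X35.GV
open Finset Polynomial
open Pool.Agent.H304R2.EC.Pts (qc)

/-- the average of `χ(g(t) - n q(t)) u_p(t)` over the points `t` of the affine space, `p` prime -/
noncomputable def tot (p : ℕ) {k : ℕ} (g q : MvPolynomial (Fin k) ℤ) (u : (p : ℕ) → (Fin k → ZMod p) → ℝ) (n : ℤ) : ℝ := by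
  classical
  exact if hp : p.Prime then (haveI := Fact.mk hp; (∑ t : Fin k → ZMod p, (qc p (ev p g t - (n : ZMod p) * ev p q t) : ℝ) * u p t) / (p : ℝ) ^ k)
    else 0

/-- the part with `q(t) ≠ 0` -/
noncomputable def tot1 (p : ℕ) {k : ℕ} (g q : MvPolynomial (Fin k) ℤ) (u : (p : ℕ) → (Fin k → ZMod p) → ℝ) (n : ℤ) : ℝ := by
  classical
  exact if hp : p.Prime then (haveI := Fact.mk hp; twT (fun t => ev p g t / ev p q t) (fun t => (qc p (ev p q t) : ℝ) * u p t) (n : ZMod p) / (p : ℝ) ^ k)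
    else 0

/-- the part with `q(t) = 0` -/
noncomputable def tot0 (p : ℕ) {k : ℕ} (g q : MvPolynomial (Fin k) ℤ) (u : (p : ℕ) → (Fin k → ZMod p) → ℝ) : ℝ := by
  classical
  exact if hp : p.Prime then (haveI := Fact.mk hp; base (fun t => ev p g t) (fun t => ev p q t) (u p) / (p : ℝ) ^ k)
    else 0

section
variable (p : ℕ) (hp : p.Prime) (h2 : p ≠ 2) {k : ℕ} (g q : MvPolynomial (Fin k) ℤ) (u : (p : ℕ) → (Fin k → ZMod p) → ℝ)
  (U : ℝ) (hU : 0 < U) (hu : ∀ t, |u p t| ≤ U) (r : ℝ) (hr : |r| ≤ 1)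
include hp

lemma tot_eq [Fact p.Prime] (n : ℤ) : tot p g q u n =
    (∑ t : Fin k → ZMod p, (qc p (ev p g t - (n : ZMod p) * ev p q t) : ℝ) * u p t) / (p : ℝ) ^ k := by
  unfold tot
  rw [dif_pos hp]

lemma tot1_eq [Fact p.Prime] (n : ℤ) : tot1 p g q u n =
    twT (fun t => ev p g t / ev p q t) (fun t => (qc p (ev p q t) : ℝ) * u p t) (n : ZMod p) / (p : ℝ) ^ k := by
  unfold tot1
  rw [dif_pos hp]

lemma tot0_eq [Fact p.Prime] : tot0 p g q u = base (fun t => ev p g t) (fun t => ev p q t) (u p) / (p : ℝ) ^ k := by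
  unfold tot0
  rw [dif_pos hp]

lemma tot_split (n : ℤ) : tot p g q u n = tot1 p g q u n + tot0 p g q u := by
  have := Fact.mk hp
  rw [tot_eq p hp, tot1_eq p hp, tot0_eq p hp, ← add_div, split]

lemma tot1_per (m m' : ℤ) (h : m ≡ m' [ZMOD (p : ℕ)]) : tot1 p g q u m = tot1 p g q u m' := by
  have := Fact.mk hp
  have h4 : ((m : ℤ) : ZMod p) = (m' : ZMod p) := (ZMod.intCast_eq_intCast_iff m m' p).2 h
  rw [tot1_eq p hp, tot1_eq p hp, h4]

include hu

lemma tot_abs (n : ℤ) : |tot p g q u n| ≤ U := by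
  have := Fact.mk hp
  have hp0 : (0 : ℝ) < p := by exact_mod_cast hp.pos
  rw [tot_eq p hp, abs_div, abs_of_pos (by positivity : (0 : ℝ) < (p : ℝ) ^ k), div_le_iff₀ (by positivity)]
  refine (abs_sum_le_sum_abs _ _).trans ?_
  have h : ∀ t ∈ (univ : Finset (Fin k → ZMod p)), |(qc p (ev p g t - (n : ZMod p) * ev p q t) : ℝ) * u p t| ≤ U := by
    intro t _
    rw [abs_mul]
    calc |(qc p (ev p g t - (n : ZMod p) * ev p q t) : ℝ)| * |u p t| ≤ 1 * |u p t| := mul_le_mul_of_nonneg_right (qc_abs _) (abs_nonneg _)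
      _ = |u p t| := one_mul _
      _ ≤ U := hu t
  refine (sum_le_sum h).trans ?_
  rw [sum_const, card_univ, nsmul_eq_mul, Fintype.card_fun, Fintype.card_fin, ZMod.card]
  push_cast
  linarith

lemma hu' [Fact p.Prime] (t : Fin k → ZMod p) : |(qc p (ev p q t) : ℝ) * u p t| ≤ U := by
  rw [abs_mul]
  calc _ ≤ 1 * |u p t| := mul_le_mul_of_nonneg_right (qc_abs _) (abs_nonneg _)
    _ = |u p t| := one_mul _
    _ ≤ U := hu t

include hU in
lemma tot0_abs (hgood : Good p g q) (e : ℕ) (hq : q.totalDegree ≤ e) : |tot0 p g q u| ≤ e * U / p := by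
  have := Fact.mk hp
  have hp0 : (0 : ℝ) < p := by exact_mod_cast hp.pos
  rw [tot0_eq p hp, abs_div, abs_of_pos (by positivity : (0 : ℝ) < (p : ℝ) ^ k), div_le_div_iff₀ (by positivity) hp0]
  have h1 := base_abs (fun t => ev p g t) (fun t => ev p q t) (u p) U hu
  have h3 := q_zeros g q hgood e hq
  calc _ ≤ ((e * (p : ℝ) ^ k / p) * U) * p := by
        apply mul_le_mul_of_nonneg_right _ hp0.le
        exact h1.trans (mul_le_mul_of_nonneg_right h3 hU.le)
    _ = _ := by field_simp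

include hU hr in
lemma tot1_abs (m : ℤ) : |r * (tot1 p g q u m / U)| ≤ 1 := by
  have := Fact.mk hp
  have hp0 : (0 : ℝ) < p := by exact_mod_cast hp.pos
  have h5 := twT_abs (fun t => ev p g t / ev p q t) (fun t => (qc p (ev p q t) : ℝ) * u p t) U
    (fun t => hu' p hp q u U hu t) (m : ZMod p)
  rw [Fintype.card_fun, Fintype.card_fin, ZMod.card] at h5
  push_cast at h5
  rw [tot1_eq p hp, abs_mul, abs_div, abs_div, abs_of_pos hU, abs_of_pos (by positivity : (0 : ℝ) < (p : ℝ) ^ k)]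
  refine mul_le_one₀ hr (by positivity) ?_
  rw [div_le_one hU, div_le_iff₀ (by positivity)]
  linarith

include h2 in
omit hu in
lemma tot1_mean : avg p (fun m => r * (tot1 p g q u m / U)) = 0 := by
  have := Fact.mk hp
  have h5 := avg_zmod (p := p) (fun m => r * (tot1 p g q u m / U))
    (fun n => twT (fun t => ev p g t / ev p q t) (fun t => (qc p (ev p q t) : ℝ) * u p t) n * (r / ((p : ℝ) ^ k * U))) (by
      intro n
      rw [tot1_eq p hp, div_div]
      ring)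
  rw [h5, ← sum_mul, twT_mean h2, zero_mul, zero_div]

include h2 hU in
lemma tot1_sq (hgood : Good p g q) (e : ℕ) (hg : g.totalDegree ≤ e) (hq : q.totalDegree ≤ e) :
    avg p (fun m => (r * (tot1 p g q u m / U)) ^ 2) ≤ r ^ 2 * (2 * e) / p := by
  have := Fact.mk hp
  have hp0 : (0 : ℝ) < p := by exact_mod_cast hp.pos
  have h5 := avg_zmod (p := p) (fun m => (r * (tot1 p g q u m / U)) ^ 2)
    (fun n => twT (fun t => ev p g t / ev p q t) (fun t => (qc p (ev p q t) : ℝ) * u p t) n ^ 2 * (r / ((p : ℝ) ^ k * U)) ^ 2) (by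
      intro n
      rw [tot1_eq p hp, div_div]
      ring)
  have h6 := twT_sq h2 (fun t => ev p g t / ev p q t) (2 * e * (p : ℝ) ^ k / p) (by positivity) (fibre_le g q hgood e hg hq)
    (fun t => (qc p (ev p q t) : ℝ) * u p t) U hU.le (fun t => hu' p hp q u U hu t)
  rw [Fintype.card_fun, Fintype.card_fin, ZMod.card] at h6
  push_cast at h6
  rw [h5, ← sum_mul]
  apply div_le_div_of_nonneg_right _ hp0.le
  calc _ ≤ ((p : ℝ) ^ k * (2 * e * (p : ℝ) ^ k / p * (p * U ^ 2))) * (r / ((p : ℝ) ^ k * U)) ^ 2 :=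
        mul_le_mul_of_nonneg_right h6 (sq_nonneg _)
    _ = _ := by field_simp

end

/-- the integers near the members of the sequence are large -/
theorem log_large {v : ℕ → ℝ} {τ θ : ℝ} (hv1 : ∀ i, 1 ≤ v i) (hτ : 0 ≤ τ) (hθ : θ < 1)
    (hv : ∀ t : ℝ, τ < t → Summable (fun i => v i ^ (-t))) (α : ℝ) (hα : 0 < α) (B C : ℝ) (hC : 0 < C) :
    ∃ i₀ : ℕ, ∀ i : ℕ, i₀ ≤ i → ∀ n : ℤ, |(|(n : ℝ)|) - α * v i| ≤ v i ^ θ → B ≤ Real.log |(n : ℝ)| ^ C := by
  have h1 : Filter.Tendsto (fun i => v i ^ (-(τ + 1))) Filter.atTop (nhds 0) := (hv (τ + 1) (by linarith)).tendsto_atTop_zero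
  have hvinf : Filter.Tendsto v Filter.atTop Filter.atTop := by
    rw [Filter.tendsto_atTop]
    intro b
    have hb : 0 < (max b 1 : ℝ) ^ (-(τ + 1)) := Real.rpow_pos_of_pos (lt_of_lt_of_le one_pos (le_max_right _ _)) _
    filter_upwards [h1.eventually (gt_mem_nhds hb)] with i hi
    by_contra hcon
    push Not at hcon
    have h0 : 0 < v i := by linarith [hv1 i]
    have h2 : (max b 1 : ℝ) ^ (-(τ + 1)) ≤ v i ^ (-(τ + 1)) :=
      Real.rpow_le_rpow_of_nonpos h0 (hcon.le.trans (le_max_left _ _)) (by linarith)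
    linarith
  have h2 : Filter.Tendsto (fun y : ℝ => y ^ (1 - max θ 0)) Filter.atTop Filter.atTop := tendsto_rpow_atTop (by
    rcases le_total θ 0 with h | h
    · rw [max_eq_right h]; norm_num
    · rw [max_eq_left h]; linarith)
  have h3 : Filter.Tendsto (fun y : ℝ => Real.log (α / 2 * y) ^ C) Filter.atTop Filter.atTop :=
    (tendsto_rpow_atTop hC).comp (Real.tendsto_log_atTop.comp (Filter.tendsto_id.const_mul_atTop (by positivity)))
  have h4 := ((hvinf.eventually (h2.eventually_ge_atTop (2 / α))).and (hvinf.eventually (h3.eventually_ge_atTop B))).and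
    (hvinf.eventually (Filter.eventually_ge_atTop (2 / α)))
  obtain ⟨i₀, hi₀⟩ := Filter.eventually_atTop.1 h4
  refine ⟨i₀, fun i hi n hn => ?_⟩
  obtain ⟨⟨h5, h6⟩, h7⟩ := hi₀ i hi
  have hv0 : 0 < v i := by linarith [hv1 i]
  have h8 : v i ^ θ ≤ v i ^ (max θ 0) := Real.rpow_le_rpow_of_exponent_le (hv1 i) (le_max_left _ _)
  have h9 : v i ^ (max θ 0) ≤ α / 2 * v i := by
    have h10 : v i = v i ^ (max θ 0) * v i ^ (1 - max θ 0) := by
      rw [← Real.rpow_add hv0, add_sub_cancel, Real.rpow_one]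
    have h11 : 0 < v i ^ (max θ 0) := Real.rpow_pos_of_pos hv0 _
    calc v i ^ (max θ 0) = α / 2 * (v i ^ (max θ 0) * (2 / α)) := by field_simp
      _ ≤ α / 2 * (v i ^ (max θ 0) * v i ^ (1 - max θ 0)) := by gcongr
      _ = α / 2 * v i := by rw [← h10]
  have h10 : α / 2 * v i ≤ |(n : ℝ)| := by
    have := (abs_le.1 hn).1
    linarith
  have h11 : 1 ≤ α / 2 * v i := by
    calc (1 : ℝ) = α / 2 * (2 / α) := by field_simp
      _ ≤ α / 2 * v i := by gcongr
  exact h6.trans (Real.rpow_le_rpow (Real.log_nonneg h11) (Real.log_le_log (by linarith) h10) hC.le)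

/-- a pencil of twists: independent `g, q` -/
structure Pen where
  /-- the dimension of the base -/
  k : ℕ
  /-- the first polynomial -/
  g : MvPolynomial (Fin k) ℤ
  /-- the second polynomial -/
  q : MvPolynomial (Fin k) ℤ

/-- **the law for all pencils** -/
theorem pencil_law (δ A β : ℝ) (hδ : 0 < δ) (hβ : 0 ≤ β) : ∃ κ C : ℝ, 0 < κ ∧ 0 < C ∧
    ∀ (v : ℕ → ℝ) (τ θ : ℝ), (∀ i, 1 ≤ v i) → 0 ≤ τ → θ < 1 → (∀ t : ℝ, τ < t → Summable (fun i => v i ^ (-t))) →
    ∀ (Γ : Type) [Countable Γ] (P : Γ → Pen),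
    (∀ c, ∀ a b : ℤ, MvPolynomial.C a * (P c).g = MvPolynomial.C b * (P c).q → a = 0 ∧ b = 0) →
    ∀ W : ℕ → Finset (ℕ → ℝ), (∀ x, 2 ≤ x → ((W x).card : ℝ) ≤ (x : ℝ) ^ A) → (∀ x, ∀ w ∈ W x, ∀ p, |w p| ≤ 1) →
    ∀ (u : (c : Γ) → (p : ℕ) → (Fin (P c).k → ZMod p) → ℝ) (D : Γ → ℝ), (∀ c, 0 < D c) →
    (∀ c, ∀ p : ℕ, p.Prime → p ≠ 2 → ∀ t, |u c p t| ≤ D c * (p : ℝ) ^ β) →
    ∃ E : Set ℝ, dimH E ≤ ENNReal.ofReal ((1 - κ + τ) / (1 - θ)) ∧ ∀ α : ℝ, 0 < α → α ∉ E → ∀ c : Γ, ∃ i₀ : ℕ,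
      ∀ i : ℕ, i₀ ≤ i → ∀ n : ℤ, |(|(n : ℝ)|) - α * v i| ≤ v i ^ θ →
        ∀ x : ℕ, Real.log |(n : ℝ)| ^ C ≤ x → (x : ℝ) ≤ |(n : ℝ)| ^ κ → 3 ≤ x ∧ ∀ w ∈ W x,
          |∑ p ∈ op x, w p * (tot p (P c).g (P c).q (u c) n * Real.log p)| ≤ (x : ℝ) ^ (β + δ) := by
  classical
  obtain ⟨κ, hκ, hκ1, H⟩ := lawWinF (δ / 4) A 1 (by positivity) le_rfl
  refine ⟨κ, 2 / (δ / 4), hκ, by positivity, fun v τ θ hv1 hτ hθ hv Γ _ P hP W hW hW1 u D hD hu => ?_⟩
  obtain ⟨F, hF⟩ : ∃ F : Γ → ℕ → (ℕ → ℝ) → ℕ → ℤ → ℝ, F = fun (c : Γ) (x : ℕ) (w : ℕ → ℝ) (p : ℕ) (n : ℤ) =>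
      if Good p (P c).g (P c).q then
        (w p * ((p : ℝ) ^ β * Real.log p / ((x : ℝ) ^ β * Real.log x))) * (tot1 p (P c).g (P c).q (u c) n / (D c * (p : ℝ) ^ β))
      else 0 := ⟨_, rfl⟩
  obtain ⟨e, he⟩ : ∃ e : Γ → ℕ, e = fun c => max (P c).g.totalDegree (P c).q.totalDegree := ⟨_, rfl⟩
  have heg : ∀ c, (P c).g.totalDegree ≤ e c := fun c => by rw [he]; exact le_max_left _ _
  have heq : ∀ c, (P c).q.totalDegree ≤ e c := fun c => by rw [he]; exact le_max_right _ _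
  have hr : ∀ x : ℕ, ∀ w : ℕ → ℝ, (∀ p, |w p| ≤ 1) → ∀ p ∈ op x,
      |w p * ((p : ℝ) ^ β * Real.log p / ((x : ℝ) ^ β * Real.log x))| ≤ 1 := by
    intro x w hw p hp
    obtain ⟨q1, q2, q3, q4, q5⟩ := op_log hp
    have hp0 : (0 : ℝ) < p := by linarith
    have hx0 : (0 : ℝ) < x := by linarith
    have e1 : (p : ℝ) ^ β ≤ (x : ℝ) ^ β := Real.rpow_le_rpow hp0.le q2 hβ
    have e2 : 0 < (x : ℝ) ^ β := Real.rpow_pos_of_pos hx0 _
    have e3 : 0 < (p : ℝ) ^ β := Real.rpow_pos_of_pos hp0 _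
    have e4 : (p : ℝ) ^ β * Real.log p / ((x : ℝ) ^ β * Real.log x) ≤ 1 := by
      rw [div_le_one (by positivity)]
      exact mul_le_mul e1 q4 q3.le e2.le
    have e5 : 0 ≤ (p : ℝ) ^ β * Real.log p / ((x : ℝ) ^ β * Real.log x) := by positivity
    rw [abs_mul, abs_of_nonneg e5]
    exact mul_le_one₀ (hw p) e5 e4
  have hUp : ∀ c, ∀ p : ℕ, p.Prime → 0 < D c * (p : ℝ) ^ β := by
    intro c p hp
    have : (0 : ℝ) < p := by exact_mod_cast hp.pos
    exact mul_pos (hD c) (Real.rpow_pos_of_pos this _)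
  obtain ⟨E, hE1, hE2⟩ := H v τ θ hv1 hτ hθ hv Γ (ℕ → ℝ) (fun _ x => W x) (fun c x hx => hW x hx) ℕ
    (fun _ x _ => op x) (fun _ _ p => p)
    (by
      intro c x l _ p hp
      rw [mem_op] at hp
      exact ⟨hp.2.1.two_le, by rw [pow_one]; exact hp.1⟩)
    (by
      intro c x l _ p hp p' hp' hne
      rw [mem_op] at hp hp'
      exact (Nat.coprime_primes hp.2.1 hp'.2.1).2 hne)
    F (fun c x _ => (1 + 2 * e c) * (1 + Real.log x))
    (by
      intro c x l _ p hp m m' h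
      rw [mem_op] at hp
      rw [hF]
      beta_reduce
      rw [tot1_per p hp.2.1 _ _ _ m m' h])
    (by
      intro c x l hl p hp m
      have hp' := hp
      rw [mem_op] at hp
      rw [hF]
      beta_reduce
      split_ifs with hg
      · exact tot1_abs p hp.2.1 _ _ _ _ (hUp c p hp.2.1) (hu c p hp.2.1 hp.2.2) _ (hr x l (hW1 x l hl) p hp') m
      · simp)
    (by
      intro c x l hl p hp
      rw [mem_op] at hp
      rw [hF]
      beta_reduce
      split_ifs with hg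
      · exact tot1_mean p hp.2.1 hp.2.2 _ _ _ _ _
      · simp [avg])
    (by
      intro c x l hl
      have hlx : 0 ≤ Real.log x := Real.log_natCast_nonneg x
      have hec : (0 : ℝ) ≤ e c := Nat.cast_nonneg _
      refine ⟨by nlinarith, ?_⟩
      have hone : ∀ p ∈ op x, avg p (fun m => F c x l p m ^ 2) ≤ (2 * e c : ℝ) * (1 / p) := by
        intro p hp
        have hp' := hp
        rw [mem_op] at hp
        have hp0 : (0 : ℝ) < p := by exact_mod_cast hp.2.1.pos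
        rw [hF]
        beta_reduce
        split_ifs with hg
        · refine (tot1_sq p hp.2.1 hp.2.2 _ _ _ _ (hUp c p hp.2.1) (hu c p hp.2.1 hp.2.2) _ hg (e c) (heg c) (heq c)).trans ?_
          have h1 := hr x l (hW1 x l hl) p hp'
          have h3 : (l p * ((p : ℝ) ^ β * Real.log p / ((x : ℝ) ^ β * Real.log x))) ^ 2 ≤ 1 := by
            rw [← sq_abs]
            exact pow_le_one₀ (abs_nonneg _) h1
          rw [mul_one_div]
          apply div_le_div_of_nonneg_right _ hp0.le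
          exact mul_le_of_le_one_left (by positivity) h3
        · have : avg p (fun _ : ℤ => (0 : ℝ) ^ 2) = 0 := by simp [avg]
          rw [this]
          positivity
      calc _ ≤ ∑ p ∈ op x, (2 * e c : ℝ) * (1 / p) := sum_le_sum hone
        _ = (2 * e c : ℝ) * ∑ p ∈ op x, (1 / p : ℝ) := by rw [mul_sum]
        _ ≤ (2 * e c : ℝ) * (1 + Real.log x) := mul_le_mul_of_nonneg_left (op_harmonic x) (by positivity)
        _ ≤ (1 + 2 * e c) * (1 + Real.log x) := by nlinarith)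
  refine ⟨E, hE1, fun α hα hαE c => ?_⟩
  obtain ⟨i₁, hi₁⟩ := hE2 α hα hαE c
  obtain ⟨m, hm0, hm⟩ := good_of_indep (P c).g (P c).q (hP c)
  obtain ⟨K, hK⟩ : ∃ K : ℝ, K = D c * (1 + 3 * e c + m) := ⟨_, rfl⟩
  have hK0 : 0 < K := by
    rw [hK]
    have := hD c
    positivity
  -- absorbing constants
  obtain ⟨x₀, hx₀⟩ : ∃ x₀ : ℝ, ∀ x : ℝ, x₀ ≤ x → K * (x : ℝ) ^ (δ / 4) * (1 + Real.log x) ^ 2 ≤ (x : ℝ) ^ δ := by
    have h1 := (isLittleO_log_rpow_atTop (show (0 : ℝ) < δ / 8 by positivity)).bound (show (0 : ℝ) < 1 by norm_num)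
    have h2 : Filter.Tendsto (fun x : ℝ => x ^ (δ / 2)) Filter.atTop Filter.atTop := tendsto_rpow_atTop (by positivity)
    have h3 := h2.eventually_ge_atTop (4 * K)
    obtain ⟨x₀, hx₀⟩ := Filter.eventually_atTop.1 (h1.and (h3.and (Filter.eventually_ge_atTop (1 : ℝ))))
    refine ⟨x₀, fun x hx => ?_⟩
    obtain ⟨h4, h5, h6⟩ := hx₀ x hx
    have hx0 : 0 < x := by linarith
    rw [one_mul, Real.norm_eq_abs, Real.norm_eq_abs, abs_of_nonneg (Real.log_nonneg h6), abs_of_pos (Real.rpow_pos_of_pos hx0 _)] at h4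
    have h7 : x ^ δ = x ^ (δ / 2) * (x ^ (δ / 4) * (x ^ (δ / 8) * x ^ (δ / 8))) := by
      rw [← Real.rpow_add hx0, ← Real.rpow_add hx0, ← Real.rpow_add hx0]
      congr 1
      ring
    rw [h7]
    have h8 : 1 ≤ x ^ (δ / 8) := Real.one_le_rpow h6 (by positivity)
    have h9 : 0 ≤ Real.log x := Real.log_nonneg h6
    have h10 : 0 < x ^ (δ / 4) := Real.rpow_pos_of_pos hx0 _
    have h11 : (1 + Real.log x) ^ 2 ≤ 4 * (x ^ (δ / 8) * x ^ (δ / 8)) := by nlinarith
    calc K * x ^ (δ / 4) * (1 + Real.log x) ^ 2 ≤ K * x ^ (δ / 4) * (4 * (x ^ (δ / 8) * x ^ (δ / 8))) := by gcongr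
      _ = (4 * K) * (x ^ (δ / 4) * (x ^ (δ / 8) * x ^ (δ / 8))) := by ring
      _ ≤ x ^ (δ / 2) * (x ^ (δ / 4) * (x ^ (δ / 8) * x ^ (δ / 8))) := by gcongr
  -- `|n|` is large
  obtain ⟨i₂, hi₂⟩ := log_large hv1 hτ hθ hv α hα (max x₀ 3) (2 / (δ / 4)) (by positivity)
  refine ⟨max i₁ i₂, fun i hi n hn x hx1 hx2 => ?_⟩
  have hlarge := hi₂ i (le_trans (le_max_right _ _) hi) n hn
  have hxx : x₀ ≤ x := ((le_max_left _ _).trans hlarge).trans hx1
  have hx3 : (3 : ℝ) ≤ x := ((le_max_right _ _).trans hlarge).trans hx1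
  refine ⟨by exact_mod_cast hx3, fun w hw => ?_⟩
  have hx0 : (0 : ℝ) < x := by linarith
  have hl : 0 < Real.log x := Real.log_pos (by linarith)
  have hxb : 0 < (x : ℝ) ^ β := Real.rpow_pos_of_pos hx0 _
  have hmain := hi₁ i (le_trans (le_max_left _ _) hi) n hn x hx1 hx2 w hw
  -- splitting of the sum
  have hsplit : ∑ p ∈ op x, w p * (tot p (P c).g (P c).q (u c) n * Real.log p) =
      (D c * ((x : ℝ) ^ β * Real.log x)) * ∑ p ∈ op x, F c x w p n +
      ∑ p ∈ op x, (if Good p (P c).g (P c).q then w p * (tot0 p (P c).g (P c).q (u c) * Real.log p) else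
        w p * (tot p (P c).g (P c).q (u c) n * Real.log p)) := by
    rw [mul_sum, ← sum_add_distrib]
    refine sum_congr rfl fun p hp => ?_
    rw [mem_op] at hp
    have hp0 : (0 : ℝ) < p := by exact_mod_cast hp.2.1.pos
    have hpb : 0 < (p : ℝ) ^ β := Real.rpow_pos_of_pos hp0 _
    have hDc := hD c
    rw [hF]
    beta_reduce
    split_ifs with hg
    · rw [tot_split p hp.2.1]
      field_simp
    · ring
  have hrest : |∑ p ∈ op x, (if Good p (P c).g (P c).q then w p * (tot0 p (P c).g (P c).q (u c) * Real.log p) else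
        w p * (tot p (P c).g (P c).q (u c) n * Real.log p))| ≤ (D c * (e c + m)) * (x : ℝ) ^ β * (1 + Real.log x) ^ 2 := by
    have hbd : ∀ p ∈ op x, |(if Good p (P c).g (P c).q then w p * (tot0 p (P c).g (P c).q (u c) * Real.log p) else
        w p * (tot p (P c).g (P c).q (u c) n * Real.log p))| ≤ (D c * (x : ℝ) ^ β * Real.log x) * (e c * (1 / p)) +
        (D c * (x : ℝ) ^ β * Real.log x) * (if p ∣ m then 1 else 0) := by
      intro p hp
      have hp' := hp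
      obtain ⟨q1, q2, q3, q4, q5⟩ := op_log hp
      rw [mem_op] at hp
      have hp0 : (0 : ℝ) < p := by exact_mod_cast hp.2.1.pos
      have hpb : (p : ℝ) ^ β ≤ (x : ℝ) ^ β := Real.rpow_le_rpow hp0.le q2 hβ
      have hpb0 : 0 < (p : ℝ) ^ β := Real.rpow_pos_of_pos hp0 _
      have hDc := hD c
      have hwp := hW1 x w hw p
      split_ifs with hg hd hd
      · have h1 := tot0_abs p hp.2.1 _ _ _ _ (hUp c p hp.2.1) (hu c p hp.2.1 hp.2.2) hg (e c) (heq c)
        rw [abs_mul, abs_mul, abs_of_pos q3]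
        have h3 : |w p| * (|tot0 p (P c).g (P c).q (u c)| * Real.log p) ≤ 1 * ((e c * (D c * (p : ℝ) ^ β) / p) * Real.log x) := by
          gcongr
        have h4 : 1 * ((e c * (D c * (p : ℝ) ^ β) / p) * Real.log x) ≤ (D c * (x : ℝ) ^ β * Real.log x) * (e c * (1 / p)) := by
          have : 1 * ((e c * (D c * (p : ℝ) ^ β) / p) * Real.log x) = (D c * (p : ℝ) ^ β * Real.log x) * (e c * (1 / p)) := by
            field_simp
          rw [this]
          gcongr
        have h5 : 0 ≤ (D c * (x : ℝ) ^ β * Real.log x) * 1 := by positivity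
        linarith
      · have h1 := tot0_abs p hp.2.1 _ _ _ _ (hUp c p hp.2.1) (hu c p hp.2.1 hp.2.2) hg (e c) (heq c)
        rw [abs_mul, abs_mul, abs_of_pos q3]
        have h3 : |w p| * (|tot0 p (P c).g (P c).q (u c)| * Real.log p) ≤ 1 * ((e c * (D c * (p : ℝ) ^ β) / p) * Real.log x) := by
          gcongr
        have h4 : 1 * ((e c * (D c * (p : ℝ) ^ β) / p) * Real.log x) ≤ (D c * (x : ℝ) ^ β * Real.log x) * (e c * (1 / p)) := by
          have : 1 * ((e c * (D c * (p : ℝ) ^ β) / p) * Real.log x) = (D c * (p : ℝ) ^ β * Real.log x) * (e c * (1 / p)) := by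
            field_simp
          rw [this]
          gcongr
        linarith
      · have h1 := tot_abs p hp.2.1 (P c).g (P c).q (u c) _ (hu c p hp.2.1 hp.2.2) n
        rw [abs_mul, abs_mul, abs_of_pos q3]
        have h3 : |w p| * (|tot p (P c).g (P c).q (u c) n| * Real.log p) ≤ 1 * ((D c * (x : ℝ) ^ β) * Real.log x) := by
          have h4 : |tot p (P c).g (P c).q (u c) n| ≤ D c * (x : ℝ) ^ β := h1.trans (by gcongr)
          gcongr
        have h5 : 0 ≤ (D c * (x : ℝ) ^ β * Real.log x) * (e c * (1 / p)) := by positivity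
        linarith
      · exact absurd (hm p hp.2.1 hd) hg
    have hdiv : ∑ p ∈ op x, (if p ∣ m then (1 : ℝ) else 0) ≤ m := by
      rw [← sum_filter, sum_const, nsmul_eq_mul, mul_one]
      have h1 : (op x).filter (fun p => p ∣ m) ⊆ Icc 1 m := by
        intro p hp
        rw [mem_filter, mem_op] at hp
        rw [mem_Icc]
        exact ⟨hp.1.2.1.one_lt.le, Nat.le_of_dvd (Nat.pos_of_ne_zero hm0) hp.2⟩
      have h3 := card_le_card h1
      rw [Nat.card_Icc, Nat.add_sub_cancel] at h3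
      exact_mod_cast h3
    have hDc := hD c
    calc _ ≤ ∑ p ∈ op x, ((D c * (x : ℝ) ^ β * Real.log x) * (e c * (1 / p)) +
        (D c * (x : ℝ) ^ β * Real.log x) * (if p ∣ m then 1 else 0)) := (abs_sum_le_sum_abs _ _).trans (sum_le_sum hbd)
      _ = (D c * (x : ℝ) ^ β * Real.log x) * (e c * ∑ p ∈ op x, (1 / p : ℝ)) +
        (D c * (x : ℝ) ^ β * Real.log x) * ∑ p ∈ op x, (if p ∣ m then 1 else 0) := by
          rw [sum_add_distrib, ← mul_sum, ← mul_sum, ← mul_sum]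
      _ ≤ (D c * (x : ℝ) ^ β * Real.log x) * (e c * (1 + Real.log x)) + (D c * (x : ℝ) ^ β * Real.log x) * m := by
          have := op_harmonic x
          gcongr
      _ ≤ (D c * (e c + m)) * (x : ℝ) ^ β * (1 + Real.log x) ^ 2 := by
          have h1 : Real.log x * (1 + Real.log x) ≤ (1 + Real.log x) ^ 2 := by nlinarith
          have h3 : Real.log x ≤ (1 + Real.log x) ^ 2 := by nlinarith
          have h4 : 0 ≤ D c * (x : ℝ) ^ β * e c := by positivity
          have h5 : 0 ≤ D c * (x : ℝ) ^ β * m := by positivity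
          have h6 := mul_le_mul_of_nonneg_left h1 h4
          have h7 := mul_le_mul_of_nonneg_left h3 h5
          linarith
  rw [hsplit]
  refine (abs_add_le _ _).trans ?_
  have hDc := hD c
  rw [abs_mul, abs_of_pos (by positivity : (0 : ℝ) < D c * ((x : ℝ) ^ β * Real.log x))]
  have hsq : √((1 + 2 * e c) * (1 + Real.log x)) ≤ (1 + 2 * e c) * (1 + Real.log x) := by
    have h1 : 1 ≤ (1 + 2 * (e c : ℝ)) * (1 + Real.log x) := by
      have : (0 : ℝ) ≤ e c := Nat.cast_nonneg _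
      nlinarith
    rw [Real.sqrt_le_left (by linarith)]
    nlinarith
  have hxd : 1 ≤ (x : ℝ) ^ (δ / 4) := Real.one_le_rpow (by linarith) (by positivity)
  have h1 : (D c * ((x : ℝ) ^ β * Real.log x)) * |∑ p ∈ op x, F c x w p n| ≤
      (D c * (1 + 2 * e c)) * ((x : ℝ) ^ β * (x : ℝ) ^ (δ / 4)) * (1 + Real.log x) ^ 2 := by
    calc _ ≤ (D c * ((x : ℝ) ^ β * Real.log x)) * (√((1 + 2 * e c) * (1 + Real.log x)) * (x : ℝ) ^ (δ / 4)) := by gcongr
      _ ≤ (D c * ((x : ℝ) ^ β * (1 + Real.log x))) * (((1 + 2 * e c) * (1 + Real.log x)) * (x : ℝ) ^ (δ / 4)) := by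
          gcongr
          linarith
      _ = _ := by ring
  have h3 : (D c * (e c + m)) * (x : ℝ) ^ β * (1 + Real.log x) ^ 2 ≤
      (D c * (e c + m)) * ((x : ℝ) ^ β * (x : ℝ) ^ (δ / 4)) * (1 + Real.log x) ^ 2 := by
    have : (x : ℝ) ^ β ≤ (x : ℝ) ^ β * (x : ℝ) ^ (δ / 4) := le_mul_of_one_le_right hxb.le hxd
    gcongr
  calc _ ≤ (D c * (1 + 2 * e c)) * ((x : ℝ) ^ β * (x : ℝ) ^ (δ / 4)) * (1 + Real.log x) ^ 2 +
      (D c * (e c + m)) * ((x : ℝ) ^ β * (x : ℝ) ^ (δ / 4)) * (1 + Real.log x) ^ 2 := add_le_add h1 (hrest.trans h3)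
    _ = (x : ℝ) ^ β * ((D c * (1 + 3 * e c + m)) * (x : ℝ) ^ (δ / 4) * (1 + Real.log x) ^ 2) := by ring
    _ ≤ (x : ℝ) ^ β * (x : ℝ) ^ δ := by
        have h5 := hx₀ x hxx
        rw [hK] at h5
        exact mul_le_mul_of_nonneg_left h5 hxb.le
    _ = _ := by rw [← Real.rpow_add hx0]

end Pool.Agent.X35.GV
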