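import Pool.Agent.X35.GV.PencilCurve

/-! The law for many pencils of twists, for the integers of an interval. -/

set_option autoImplicit false

namespace Pool.Agent.X35.GV
open Finset Polynomial
open Pool.Agent.H304R2.EC.Pts (qc)

/-- **the law for pencils in intervals** -/
theorem pencil_int (δ A A' β D : ℝ) (B : ℕ) (hδ : 0 < δ) (hβ : 0 ≤ β) (hD : 0 < D) : ∃ κ C : ℝ, 0 < κ ∧ 0 < C ∧ ∃ N₀ : ℕ, ∀ N : ℕ, N₀ ≤ N →
    ∀ (Γ : Type) (H : ℕ → Set Γ), (∀ x, 2 ≤ x → (H x).Finite ∧ ((H x).ncard : ℝ) ≤ (x : ℝ) ^ A) →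
    ∀ (P : Γ → Pen), (∀ x, ∀ c ∈ H x, ∀ p : ℕ, p.Prime → p ≠ 2 → Good p (P c).g (P c).q) →
    (∀ x, ∀ c ∈ H x, (P c).g.totalDegree ≤ B ∧ (P c).q.totalDegree ≤ B) →
    ∀ W : ℕ → Finset (ℕ → ℝ), (∀ x, 2 ≤ x → ((W x).card : ℝ) ≤ (x : ℝ) ^ A') → (∀ x, ∀ w ∈ W x, ∀ p, |w p| ≤ 1) →
    ∀ (u : (c : Γ) → (p : ℕ) → (Fin (P c).k → ZMod p) → ℝ),
    (∀ x, ∀ c ∈ H x, ∀ p : ℕ, p.Prime → p ≠ 2 → ∀ t, |u c p t| ≤ D * (p : ℝ) ^ β) →
    ∀ M : ℤ, ({n : ℤ | M ≤ n ∧ n < M + N ∧ ¬ ∀ x : ℕ, Real.log N ^ C ≤ x → (x : ℝ) ≤ (N : ℝ) ^ κ → 3 ≤ x ∧ ∀ c ∈ H x, ∀ w ∈ W x,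
          |∑ p ∈ op x, w p * (tot p (P c).g (P c).q (u c) n * Real.log p)| ≤ (x : ℝ) ^ (β + δ)}.ncard : ℝ) ≤ (N : ℝ) ^ (1 - κ) := by
  classical
  obtain ⟨κ, hκ, hκ1, N₀, HH⟩ := law1F (δ / 4) (A + A') 1 (by positivity) le_rfl
  obtain ⟨x₀, hx₀⟩ := absorb δ (D * (1 + 3 * B)) hδ (by positivity)
  obtain ⟨N₁, hN₁⟩ : ∃ N₁ : ℕ, ∀ N : ℕ, N₁ ≤ N → max x₀ 3 ≤ Real.log N ^ (2 / (δ / 4)) := by
    have h1 : Filter.Tendsto (fun N : ℕ => Real.log (N : ℝ) ^ (2 / (δ / 4))) Filter.atTop Filter.atTop :=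
      (tendsto_rpow_atTop (by positivity)).comp (Real.tendsto_log_atTop.comp tendsto_natCast_atTop_atTop)
    exact Filter.eventually_atTop.1 (h1.eventually_ge_atTop _)
  refine ⟨κ, 2 / (δ / 4), hκ, by positivity, max N₀ N₁, fun N hN Γ H hH P hgood hdeg W hW hW1 u hu M => ?_⟩
  have hNx : ∀ x : ℕ, Real.log N ^ (2 / (δ / 4)) ≤ x → x₀ ≤ x ∧ (3 : ℝ) ≤ x := by
    intro x hx
    have := hN₁ N (le_trans (le_max_right _ _) hN)
    exact ⟨((le_max_left _ _).trans this).trans hx, ((le_max_right _ _).trans this).trans hx⟩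
  obtain ⟨F, hF⟩ : ∃ F : ℕ → (Γ × (ℕ → ℝ)) → ℕ → ℤ → ℝ, F = fun (x : ℕ) (c : Γ × (ℕ → ℝ)) (p : ℕ) (n : ℤ) =>
        (c.2 p * ((p : ℝ) ^ β * Real.log p / ((x : ℝ) ^ β * Real.log x))) * (tot1 p (P c.1).g (P c.1).q (u c.1) n / (D * (p : ℝ) ^ β)) :=
    ⟨_, rfl⟩
  have hr : ∀ x : ℕ, ∀ w : ℕ → ℝ, (∀ p, |w p| ≤ 1) → ∀ p ∈ op x,
      |w p * ((p : ℝ) ^ β * Real.log p / ((x : ℝ) ^ β * Real.log x))| ≤ 1 := by
    intro x w hw p hp
    obtain ⟨q1, q2, q3, q4, q5⟩ := op_log hp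
    have hp0 : (0 : ℝ) < p := by linarith
    have hx0 : (0 : ℝ) < x := by linarith
    have e1 : (p : ℝ) ^ β ≤ (x : ℝ) ^ β := Real.rpow_le_rpow hp0.le q2 hβ
    have e2 : 0 < (x : ℝ) ^ β := Real.rpow_pos_of_pos hx0 _
    have e3 : 0 < (p : ℝ) ^ β := Real.rpow_pos_of_pos hp0 _
    have e4 : (p : ℝ) ^ β * Real.log p / ((x : ℝ) ^ β * Real.log x) ≤ 1 := by
      rw [div_le_one (by positivity)]
      exact mul_le_mul e1 q4 q3.le e2.le
    have e5 : 0 ≤ (p : ℝ) ^ β * Real.log p / ((x : ℝ) ^ β * Real.log x) := by positivity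
    rw [abs_mul, abs_of_nonneg e5]
    exact mul_le_one₀ (hw p) e5 e4
  have hUp : ∀ p : ℕ, p.Prime → 0 < D * (p : ℝ) ^ β := by
    intro p hp
    have : (0 : ℝ) < p := by exact_mod_cast hp.pos
    exact mul_pos hD (Real.rpow_pos_of_pos this _)
  obtain ⟨Hf, hHf⟩ : ∃ Hf : ℕ → Finset Γ, Hf = fun x => if h : 2 ≤ x then (hH x h).1.toFinset else ∅ := ⟨_, rfl⟩
  have hHm : ∀ x c, c ∈ Hf x → 2 ≤ x ∧ c ∈ H x := by
    intro x c hc
    rw [hHf] at hc
    by_cases h : 2 ≤ x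
    · simp only [h, dif_pos, Set.Finite.mem_toFinset] at hc
      exact ⟨h, hc⟩
    · simp only [h] at hc
      exact absurd hc (by simp)
  obtain ⟨Ex, hEx⟩ : ∃ Ex : Finset ℤ, Ex = (Ico M (M + N)).filter (fun n => ¬ ∀ x : ℕ, Real.log N ^ (2 / (δ / 4)) ≤ x → (x : ℝ) ≤ (N : ℝ) ^ κ →
      3 ≤ x ∧ ∀ c ∈ H x, ∀ w ∈ W x,
          |∑ p ∈ op x, w p * (tot p (P c).g (P c).q (u c) n * Real.log p)| ≤ (x : ℝ) ^ (β + δ)) := ⟨_, rfl⟩
  have hset : {n : ℤ | M ≤ n ∧ n < M + N ∧ ¬ ∀ x : ℕ, Real.log N ^ (2 / (δ / 4)) ≤ x → (x : ℝ) ≤ (N : ℝ) ^ κ →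
      3 ≤ x ∧ ∀ c ∈ H x, ∀ w ∈ W x,
          |∑ p ∈ op x, w p * (tot p (P c).g (P c).q (u c) n * Real.log p)| ≤ (x : ℝ) ^ (β + δ)} = (Ex : Set ℤ) := by
    ext n
    rw [hEx, mem_coe, mem_filter, mem_Ico, and_assoc]
    rfl
  rw [hset, Set.ncard_coe_finset]
  refine HH N (le_trans (le_max_left _ _) hN) (Γ × (ℕ → ℝ)) (fun x => Hf x ×ˢ W x) ?_ ℕ
    (fun x _ => op x) (fun _ p => p) ?_ ?_ F (fun x _ => (1 + 2 * (B : ℝ)) * (1 + Real.log x)) ?_ ?_ ?_ ?_ M Ex ?_ ?_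
  · intro x hx
    have hx0 : (0 : ℝ) < x := by
      have : (2 : ℝ) ≤ x := by exact_mod_cast hx
      linarith
    rw [card_product, Nat.cast_mul, Real.rpow_add hx0]
    apply mul_le_mul _ (hW x hx) (Nat.cast_nonneg _) (Real.rpow_nonneg hx0.le _)
    have h1 := (hH x hx).2
    rw [Set.ncard_eq_toFinset_card _ (hH x hx).1] at h1
    rw [hHf]
    simp only [hx, dif_pos]
    exact h1
  · intro x c _ p hp
    rw [mem_op] at hp
    exact ⟨hp.2.1.two_le, by rw [pow_one]; exact hp.1⟩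
  · intro x c _ p hp p' hp' hne
    rw [mem_op] at hp hp'
    exact (Nat.coprime_primes hp.2.1 hp'.2.1).2 hne
  · intro x c hc p hp m m' h
    rw [mem_op] at hp
    rw [hF]
    beta_reduce
    rw [tot1_per p hp.2.1 _ _ _ m m' h]
  · intro x c hc p hp m
    rw [mem_product] at hc
    obtain ⟨hx2, hcH⟩ := hHm x c.1 hc.1
    have hp' := hp
    rw [mem_op] at hp
    rw [hF]
    exact tot1_abs p hp.2.1 _ _ _ _ (hUp p hp.2.1) (hu x c.1 hcH p hp.2.1 hp.2.2) _ (hr x c.2 (hW1 x c.2 hc.2) p hp') m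
  · intro x c hc p hp
    rw [mem_op] at hp
    rw [hF]
    exact tot1_mean p hp.2.1 hp.2.2 _ _ _ _ _
  · intro x c hc
    rw [mem_product] at hc
    obtain ⟨hx2, hcH⟩ := hHm x c.1 hc.1
    have hlx : 0 ≤ Real.log x := Real.log_natCast_nonneg x
    have hec : (0 : ℝ) ≤ B := Nat.cast_nonneg _
    refine ⟨by nlinarith, ?_⟩
    have hone : ∀ p ∈ op x, avg p (fun m => F x c p m ^ 2) ≤ (2 * B : ℝ) * (1 / p) := by
      intro p hp
      have hp' := hp
      rw [mem_op] at hp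
      have hp0 : (0 : ℝ) < p := by exact_mod_cast hp.2.1.pos
      rw [hF]
      refine (tot1_sq p hp.2.1 hp.2.2 _ _ _ _ (hUp p hp.2.1) (hu x c.1 hcH p hp.2.1 hp.2.2) _ (hgood x c.1 hcH p hp.2.1 hp.2.2) B
        (hdeg x c.1 hcH).1 (hdeg x c.1 hcH).2).trans ?_
      have h1 := hr x c.2 (hW1 x c.2 hc.2) p hp'
      have h3 : (c.2 p * ((p : ℝ) ^ β * Real.log p / ((x : ℝ) ^ β * Real.log x))) ^ 2 ≤ 1 := by
        rw [← sq_abs]
        exact pow_le_one₀ (abs_nonneg _) h1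
      rw [mul_one_div]
      apply div_le_div_of_nonneg_right _ hp0.le
      exact mul_le_of_le_one_left (by positivity) h3
    calc _ ≤ ∑ p ∈ op x, (2 * B : ℝ) * (1 / p) := sum_le_sum hone
      _ = (2 * B : ℝ) * ∑ p ∈ op x, (1 / p : ℝ) := by rw [mul_sum]
      _ ≤ (2 * B : ℝ) * (1 + Real.log x) := mul_le_mul_of_nonneg_left (op_harmonic x) (by positivity)
      _ ≤ (1 + 2 * (B : ℝ)) * (1 + Real.log x) := by nlinarith
  · intro n hn
    rw [hEx, mem_filter, mem_Ico] at hn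
    exact hn.1
  · intro n hn
    rw [hEx, mem_filter] at hn
    obtain ⟨-, hn⟩ := hn
    push Not at hn
    obtain ⟨x, hx1, hx2, hneg⟩ := hn
    obtain ⟨hxx, hx3⟩ := hNx x hx1
    obtain ⟨c, hc, w, hw, hbig⟩ := hneg (by exact_mod_cast hx3)
    refine ⟨x, hx1, hx2, ?_⟩
    by_contra hcon
    push Not at hcon
    have hx0 : (0 : ℝ) < x := by linarith
    have hxn : 2 ≤ x := by
      have : (2 : ℝ) ≤ x := by linarith
      exact_mod_cast this
    have hcf : c ∈ Hf x := by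
      rw [hHf]
      simp only [hxn, dif_pos, Set.Finite.mem_toFinset]
      exact hc
    have hmain := hcon (c, w) (mem_product.2 ⟨hcf, hw⟩)
    have hl : 0 < Real.log x := Real.log_pos (by linarith)
    have hxb : 0 < (x : ℝ) ^ β := Real.rpow_pos_of_pos hx0 _
    refine absurd hbig (not_lt.2 ?_)
    have hsplit : ∑ p ∈ op x, w p * (tot p (P c).g (P c).q (u c) n * Real.log p) =
        (D * ((x : ℝ) ^ β * Real.log x)) * ∑ p ∈ op x, F x (c, w) p n +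
        ∑ p ∈ op x, w p * (tot0 p (P c).g (P c).q (u c) * Real.log p) := by
      rw [mul_sum, ← sum_add_distrib]
      refine sum_congr rfl fun p hp => ?_
      rw [mem_op] at hp
      have hp0 : (0 : ℝ) < p := by exact_mod_cast hp.2.1.pos
      have hpb : 0 < (p : ℝ) ^ β := Real.rpow_pos_of_pos hp0 _
      rw [hF]
      beta_reduce
      rw [tot_split p hp.2.1]
      field_simp
    have hrest : |∑ p ∈ op x, w p * (tot0 p (P c).g (P c).q (u c) * Real.log p)| ≤ (D * B) * (x : ℝ) ^ β * (1 + Real.log x) ^ 2 := by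
      have hbd : ∀ p ∈ op x, |w p * (tot0 p (P c).g (P c).q (u c) * Real.log p)| ≤ (D * (x : ℝ) ^ β * Real.log x) * (B * (1 / p)) := by
        intro p hp
        obtain ⟨q1, q2, q3, q4, q5⟩ := op_log hp
        rw [mem_op] at hp
        have hp0 : (0 : ℝ) < p := by exact_mod_cast hp.2.1.pos
        have hpb : (p : ℝ) ^ β ≤ (x : ℝ) ^ β := Real.rpow_le_rpow hp0.le q2 hβ
        have hpb0 : 0 < (p : ℝ) ^ β := Real.rpow_pos_of_pos hp0 _
        have hwp := hW1 x w hw p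
        have h1 := tot0_abs p hp.2.1 _ _ _ _ (hUp p hp.2.1) (hu x c hc p hp.2.1 hp.2.2) (hgood x c hc p hp.2.1 hp.2.2) B (hdeg x c hc).2
        rw [abs_mul, abs_mul, abs_of_pos q3]
        have h3 : |w p| * (|tot0 p (P c).g (P c).q (u c)| * Real.log p) ≤ 1 * ((B * (D * (p : ℝ) ^ β) / p) * Real.log x) := by
          gcongr
        have h4 : 1 * ((B * (D * (p : ℝ) ^ β) / p) * Real.log x) ≤ (D * (x : ℝ) ^ β * Real.log x) * (B * (1 / p)) := by
          have : 1 * ((B * (D * (p : ℝ) ^ β) / p) * Real.log x) = (D * (p : ℝ) ^ β * Real.log x) * (B * (1 / p)) := by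
            field_simp
          rw [this]
          gcongr
        linarith
      calc _ ≤ ∑ p ∈ op x, (D * (x : ℝ) ^ β * Real.log x) * (B * (1 / p)) := (abs_sum_le_sum_abs _ _).trans (sum_le_sum hbd)
        _ = (D * (x : ℝ) ^ β * Real.log x) * (B * ∑ p ∈ op x, (1 / p : ℝ)) := by
            rw [← mul_sum, ← mul_sum]
        _ ≤ (D * (x : ℝ) ^ β * Real.log x) * (B * (1 + Real.log x)) := by
            have := op_harmonic x
            gcongr
        _ ≤ (D * B) * (x : ℝ) ^ β * (1 + Real.log x) ^ 2 := by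
            have h1 : Real.log x * (1 + Real.log x) ≤ (1 + Real.log x) ^ 2 := by nlinarith
            have h4 : 0 ≤ D * (x : ℝ) ^ β * B := by positivity
            have h6 := mul_le_mul_of_nonneg_left h1 h4
            linarith
    rw [hsplit]
    refine (abs_add_le _ _).trans ?_
    rw [abs_mul, abs_of_pos (by positivity : (0 : ℝ) < D * ((x : ℝ) ^ β * Real.log x))]
    have hsq : √((1 + 2 * (B : ℝ)) * (1 + Real.log x)) ≤ (1 + 2 * B) * (1 + Real.log x) := by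
      have h1 : 1 ≤ (1 + 2 * (B : ℝ)) * (1 + Real.log x) := by
        have : (0 : ℝ) ≤ B := Nat.cast_nonneg _
        nlinarith
      rw [Real.sqrt_le_left (by linarith)]
      nlinarith
    have hxd : 1 ≤ (x : ℝ) ^ (δ / 4) := Real.one_le_rpow (by linarith) (by positivity)
    have h1 : (D * ((x : ℝ) ^ β * Real.log x)) * |∑ p ∈ op x, F x (c, w) p n| ≤
        (D * (1 + 2 * B)) * ((x : ℝ) ^ β * (x : ℝ) ^ (δ / 4)) * (1 + Real.log x) ^ 2 := by
      calc _ ≤ (D * ((x : ℝ) ^ β * Real.log x)) * (√((1 + 2 * (B : ℝ)) * (1 + Real.log x)) * (x : ℝ) ^ (δ / 4)) := by gcongr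
        _ ≤ (D * ((x : ℝ) ^ β * (1 + Real.log x))) * (((1 + 2 * B) * (1 + Real.log x)) * (x : ℝ) ^ (δ / 4)) := by
            gcongr
            linarith
        _ = _ := by ring
    have h3 : (D * B) * (x : ℝ) ^ β * (1 + Real.log x) ^ 2 ≤ (D * B) * ((x : ℝ) ^ β * (x : ℝ) ^ (δ / 4)) * (1 + Real.log x) ^ 2 := by
      have : (x : ℝ) ^ β ≤ (x : ℝ) ^ β * (x : ℝ) ^ (δ / 4) := le_mul_of_one_le_right hxb.le hxd
      gcongr
    calc _ ≤ (D * (1 + 2 * B)) * ((x : ℝ) ^ β * (x : ℝ) ^ (δ / 4)) * (1 + Real.log x) ^ 2 +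
        (D * B) * ((x : ℝ) ^ β * (x : ℝ) ^ (δ / 4)) * (1 + Real.log x) ^ 2 := add_le_add h1 (hrest.trans h3)
      _ = (x : ℝ) ^ β * ((D * (1 + 3 * B)) * (x : ℝ) ^ (δ / 4) * (1 + Real.log x) ^ 2) := by ring
      _ ≤ (x : ℝ) ^ β * (x : ℝ) ^ δ := mul_le_mul_of_nonneg_left (hx₀ x hxx) hxb.le
      _ = _ := by rw [← Real.rpow_add hx0]

/-- goodness of the pencils of curves -/
lemma good_up (f q : ℤ[X]) (hf : f.Monic) (hd : q.natDegree < f.natDegree) (hq : q.IsPrimitive) (p : ℕ) (hp : p.Prime) :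
    Good p (up f) (up q) := by
  classical
  have hF := Fact.mk hp
  -- back to one variable
  obtain ⟨ψ, hψ⟩ : ∃ ψ : MvPolynomial (Fin 1) (ZMod p) →+* (ZMod p)[X], ψ = MvPolynomial.eval₂Hom C (fun _ : Fin 1 => X) := ⟨_, rfl⟩
  have h2 : ∀ g : ℤ[X], ψ (MvPolynomial.map (Int.castRingHom (ZMod p)) (up g)) = g.map (Int.castRingHom (ZMod p)) := by
    intro g
    unfold up
    rw [Polynomial.aeval_def, Polynomial.hom_eval₂, Polynomial.hom_eval₂, hψ]
    rw [Polynomial.map]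
    congr 1
    · exact RingHom.ext_int _ _
    · simp
  have hq0 : q.map (Int.castRingHom (ZMod p)) ≠ 0 := by
    intro h0
    have h1 : (C (p : ℤ) : ℤ[X]) ∣ q := by
      rw [C_dvd_iff_dvd_coeff]
      intro i
      have := congrArg (fun r => r.coeff i) h0
      simp only [coeff_map, coeff_zero, eq_intCast] at this
      exact (ZMod.intCast_zmod_eq_zero_iff_dvd _ p).1 this
    have h3 := hq _ h1
    have h4 : (p : ℤ).natAbs = 1 := Int.isUnit_iff_natAbs_eq.1 h3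
    rw [Int.natAbs_natCast] at h4
    exact hp.one_lt.ne' h4
  constructor
  · intro h0
    apply hq0
    rw [← h2, h0, map_zero]
  · intro c h0
    have h1 := congrArg ψ h0
    rw [map_sub, map_mul, h2, h2, map_zero] at h1
    have h3 : ψ (MvPolynomial.C c) = C c := by rw [hψ]; simp
    rw [h3, sub_eq_zero] at h1
    have h4 : (f.map (Int.castRingHom (ZMod p))).natDegree = f.natDegree := hf.natDegree_map _
    have h5 : (C c * q.map (Int.castRingHom (ZMod p))).natDegree ≤ q.natDegree :=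
      (natDegree_C_mul_le _ _).trans natDegree_map_le
    rw [← h1] at h5
    omega

lemma up_deg (f : ℤ[X]) : (up f).totalDegree ≤ f.natDegree := by
  unfold up
  rw [Polynomial.aeval_eq_sum_range]
  refine (MvPolynomial.totalDegree_finsetSum _ _).trans ?_
  refine Finset.sup_le fun i hi => ?_
  rw [mem_range] at hi
  refine (MvPolynomial.totalDegree_smul_le _ _).trans ?_
  refine (MvPolynomial.totalDegree_pow _ _).trans ?_
  rw [MvPolynomial.totalDegree_X]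
  omega

end Pool.Agent.X35.GV
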